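import Pool.Agent.Hlc.Gr

/-!
# Hlc CUT: orientations with outdegrees at most 2 which are prescribed at far apart vertices
-/

set_option autoImplicit false

namespace Hlc

open Finset

variable {V : Type} [Fintype V] [DecidableEq V]

-- BEGIN ax_add
/-- H1. `X`, `Y` disjoint and no edge between them: `ed_union` and `ed_add_ax` (`card_union_of_disjoint`); all `dg s v Y = 0` (`dg_pos`). -/
theorem ax_add (s : Bool → Equiv.Perm V) (X Y : Finset V) (h : Disjoint X Y) (hn : ∀ u ∈ X, ∀ v ∈ Y, ¬ adj s u v) :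
    ax s (X ∪ Y) = ax s X + ax s Y := by
  have h1 := ed_add_ax s (X ∪ Y)
  have h2 := ed_add_ax s X
  have h3 := ed_add_ax s Y
  have h4 := ed_union s X Y h
  have h5 : ∑ v ∈ X, dg s v Y = 0 := by
    apply sum_eq_zero
    intro v hv
    by_contra hcon
    obtain ⟨u, hu, hvu⟩ := (dg_pos s v Y).1 (Nat.one_le_iff_ne_zero.2 hcon)
    exact hn v hv u hu hvu
  rw [card_union_of_disjoint h] at h1
  omega
-- END ax_add

-- BEGIN gap
/-- H2. If `Y` meets every `Bl s z j \ Bl s z (j - 1)`, `2 ≤ j ≤ R`, then `|Y ∩ Bl s z R| ≥ R - 1 ≥ 2q` (these sets are disjoint; induction on `R`: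
`|Y ∩ Bl s z R| ≥ R - 1`). -/
theorem gap (s : Bool → Equiv.Perm V) (Y : Finset V) (z : V) (q R : ℕ) (hR : 2 * q + 1 ≤ R) (h : (Y ∩ Bl s z R).card < 2 * q) :
    ∃ j, 1 ≤ j ∧ j + 1 ≤ R ∧ Y ∩ Bl s z (j + 1) = Y ∩ Bl s z j := by
  by_contra hcon
  push Not at hcon
  have key : ∀ r, 1 ≤ r → r ≤ R → r - 1 ≤ (Y ∩ Bl s z r).card := by
    intro r hr
    induction r, hr using Nat.le_induction with
    | base =>
      intro _
      omega
    | succ r hr ih =>
      intro hrR
      have h1 := ih (by omega)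
      have h2 := hcon r hr hrR
      have h3 : Y ∩ Bl s z r ⊂ Y ∩ Bl s z (r + 1) :=
        Finset.ssubset_iff_subset_ne.2 ⟨Finset.inter_subset_inter (Finset.Subset.refl _)
          (ball_mono s z r (r + 1) (by omega)), fun h5 => h2 h5.symm⟩
      have h4 := Finset.card_lt_card h3
      omega
  have h6 := key R (by omega) le_rfl
  omega
-- END gap

-- BEGIN cut_bound
/-- H3. Induction on `|Y|` (`Finset.strongInduction` on `Y`). `A` = the `z ∈ Sp` with `dg s z (N z ∩ Y) ≠ 0`; the sum is at most `2|A|`. If `2q ≤ |Y ∩ Bl s z R|` for all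
`z ∈ A`: the sets `Y ∩ Bl s z R` are disjoint, so `2q|A| ≤ |Y| ≤ q * ax s Y` (`hE`; `Y` is nonempty if `A` is). Otherwise `gap` for one `z ∈ A` gives `j`;
`Y' = Y ∩ Bl s z j` contains a neighbour of `z` (`dg_pos`, `ball_step`, `1 ≤ j`), `Y'' = Y \ Bl s z j`; a neighbour in `Y` of a vertex of `Y'` is in
`Y ∩ Bl s z (j + 1) = Y'`. So `ax s Y = ax s Y' + ax s Y''` (`ax_add`) and the sum for `Y` is the sum for `Y'` plus the sum for `Y''` (`dg_union`).
For `z' ≠ z` in `Sp` the term of `Y'` is `0`: a vertex of `Y'` adjacent to `z'` would give `z' ∈ Bl s z (j + 1) ⊆ Bl s z R`, and `z' ∈ Bl s z' R`. So the sum for `Y'` is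
at most `2 ≤ ax s Y'` (`ax_two`; `Y' ≠ univ` since `z ∉ Y`). The sum for `Y''` (smaller, also if empty) is at most `ax s Y''` by induction. -/
theorem cut_bound (s : Bool → Equiv.Perm V) (hs : Ham s) (q R : ℕ) (hq : 1 ≤ q) (hR : 2 * q + 1 ≤ R) (hE : Expands s q)
    (Sp : Finset V) (hS : Sep s R Sp) (N : V → Finset V) (hN : ∀ z ∈ Sp, dg s z (N z) ≤ 2) (Y : Finset V)
    (hY : Disjoint Y Sp) (hc : 2 * Y.card ≤ Fintype.card V) : ∑ z ∈ Sp, dg s z (N z ∩ Y) ≤ ax s Y := by
  induction Y using Finset.strongInduction with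
  | H Y ih =>
  rcases Y.eq_empty_or_nonempty with hYe | hYne
  · subst hYe
    have h1 : ∑ z ∈ Sp, dg s z (N z ∩ ∅) = 0 := by
      refine Finset.sum_eq_zero fun z _ => ?_
      rw [Finset.inter_empty]
      by_contra h
      obtain ⟨u, hu, _⟩ := (dg_pos s z ∅).1 (Nat.one_le_iff_ne_zero.2 h)
      exact absurd hu (Finset.notMem_empty u)
    rw [h1]
    exact Nat.zero_le _
  by_cases hall : ∀ z ∈ Sp.filter (fun z => dg s z (N z ∩ Y) ≠ 0), 2 * q ≤ (Y ∩ Bl s z R).card
  · have h1 : ∑ z ∈ Sp, dg s z (N z ∩ Y) = ∑ z ∈ Sp.filter (fun z => dg s z (N z ∩ Y) ≠ 0), dg s z (N z ∩ Y) :=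
      (Finset.sum_filter_ne_zero Sp).symm
    have h2 : ∑ z ∈ Sp.filter (fun z => dg s z (N z ∩ Y) ≠ 0), dg s z (N z ∩ Y) ≤
        (Sp.filter (fun z => dg s z (N z ∩ Y) ≠ 0)).card * 2 := by
      rw [← smul_eq_mul]
      refine Finset.sum_le_card_nsmul _ _ _ fun z hz => ?_
      exact (dg_mono s z _ _ Finset.inter_subset_left).trans (hN z (Finset.mem_filter.1 hz).1)
    have h3 : (Sp.filter (fun z => dg s z (N z ∩ Y) ≠ 0)).card * (2 * q) ≤
        ((Sp.filter (fun z => dg s z (N z ∩ Y) ≠ 0)).biUnion fun z => Y ∩ Bl s z R).card := by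
      rw [Finset.card_biUnion]
      · rw [← smul_eq_mul]
        exact Finset.card_nsmul_le_sum _ _ _ hall
      · intro z hz z' hz' hne
        have h4 := hS z (Finset.mem_filter.1 hz).1 z' (Finset.mem_filter.1 hz').1 hne
        exact Finset.disjoint_of_subset_left Finset.inter_subset_right
          (Finset.disjoint_of_subset_right Finset.inter_subset_right h4)
    have h5 : ((Sp.filter (fun z => dg s z (N z ∩ Y) ≠ 0)).biUnion fun z => Y ∩ Bl s z R).card ≤ Y.card :=
      Finset.card_le_card (Finset.biUnion_subset.2 fun z _ => Finset.inter_subset_left)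
    have h6 := hE Y hYne hc
    have h7 : (Sp.filter (fun z => dg s z (N z ∩ Y) ≠ 0)).card * 2 * q ≤ ax s Y * q := by
      calc (Sp.filter (fun z => dg s z (N z ∩ Y) ≠ 0)).card * 2 * q
          = (Sp.filter (fun z => dg s z (N z ∩ Y) ≠ 0)).card * (2 * q) := by ring
        _ ≤ Y.card := h3.trans h5
        _ ≤ q * ax s Y := h6
        _ = ax s Y * q := by ring
    have h8 := Nat.le_of_mul_le_mul_right h7 (by omega)
    rw [h1]
    exact h2.trans h8
  · push Not at hall
    obtain ⟨z, hzA, hzc⟩ := hall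
    obtain ⟨hzS, hz0⟩ := Finset.mem_filter.1 hzA
    obtain ⟨j, hj1, hjR, hj⟩ := gap s Y z q R hR hzc
    have hunion : Y ∩ Bl s z j ∪ Y \ Bl s z j = Y := by
      ext v
      rw [Finset.mem_union, Finset.mem_inter, Finset.mem_sdiff]
      tauto
    have hdis : Disjoint (Y ∩ Bl s z j) (Y \ Bl s z j) := by
      rw [Finset.disjoint_left]
      intro v hv hv'
      exact (Finset.mem_sdiff.1 hv').2 (Finset.mem_inter.1 hv).2
    have hax : ax s Y = ax s (Y ∩ Bl s z j) + ax s (Y \ Bl s z j) := by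
      rw [← ax_add s (Y ∩ Bl s z j) (Y \ Bl s z j) hdis ?_, hunion]
      intro u hu v hv hadj
      have h1 := ball_step s z u v j (Finset.mem_inter.1 hu).2 hadj
      have h2 : v ∈ Y ∩ Bl s z (j + 1) := Finset.mem_inter.2 ⟨(Finset.mem_sdiff.1 hv).1, h1⟩
      rw [hj] at h2
      exact (Finset.mem_sdiff.1 hv).2 (Finset.mem_inter.1 h2).2
    have hsum : ∀ w, dg s w (N w ∩ Y) = dg s w (N w ∩ (Y ∩ Bl s z j)) + dg s w (N w ∩ (Y \ Bl s z j)) := by
      intro w
      rw [← dg_union, ← Finset.inter_union_distrib_left, hunion]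
      exact Finset.disjoint_of_subset_left Finset.inter_subset_right
        (Finset.disjoint_of_subset_right Finset.inter_subset_right hdis)
    obtain ⟨u0, hu0, hadj0⟩ := (dg_pos s z (N z ∩ Y)).1 (Nat.one_le_iff_ne_zero.2 hz0)
    have hne : (Y ∩ Bl s z j).Nonempty :=
      ⟨u0, Finset.mem_inter.2 ⟨(Finset.mem_inter.1 hu0).2,
        ball_mono s z 1 j hj1 (ball_step s z z u0 0 (mem_self s z 0) hadj0)⟩⟩
    have huniv : Y ∩ Bl s z j ≠ univ := by
      intro h
      have h1 : z ∈ Y ∩ Bl s z j := by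
        rw [h]
        exact Finset.mem_univ z
      exact (Finset.disjoint_left.1 hY) (Finset.mem_inter.1 h1).1 hzS
    have hA' : ∑ w ∈ Sp, dg s w (N w ∩ (Y ∩ Bl s z j)) ≤ ax s (Y ∩ Bl s z j) := by
      rw [Finset.sum_eq_single z]
      · exact ((dg_mono s z _ _ Finset.inter_subset_left).trans (hN z hzS)).trans
          (ax_two s hs _ hne huniv)
      · intro w hw hwz
        by_contra h
        obtain ⟨u, hu, hadj⟩ := (dg_pos s w _).1 (Nat.one_le_iff_ne_zero.2 h)
        have h1 := (Finset.mem_inter.1 (Finset.mem_inter.1 hu).2).2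
        have h2 := ball_step s z u w j h1 ((adj_symm s w u).1 hadj)
        have h3 := ball_mono s z (j + 1) R hjR h2
        exact (Finset.disjoint_left.1 (hS z hzS w hw (fun h4 => hwz h4.symm))) h3 (mem_self s w R)
      · intro h
        exact absurd hzS h
    have hB' : ∑ w ∈ Sp, dg s w (N w ∩ (Y \ Bl s z j)) ≤ ax s (Y \ Bl s z j) := by
      refine ih (Y \ Bl s z j) ?_ (Finset.disjoint_of_subset_left Finset.sdiff_subset hY) ?_
      · refine Finset.ssubset_iff_subset_ne.2 ⟨Finset.sdiff_subset, fun h => ?_⟩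
        obtain ⟨v, hv⟩ := hne
        have h1 : v ∈ Y \ Bl s z j := by
          rw [h]
          exact (Finset.mem_inter.1 hv).1
        exact (Finset.mem_sdiff.1 h1).2 (Finset.mem_inter.1 hv).2
      · have h1 := Finset.card_le_card (Finset.sdiff_subset : Y \ Bl s z j ⊆ Y)
        omega
    rw [hax, Finset.sum_congr rfl fun w _ => hsum w, Finset.sum_add_distrib]
    exact Nat.add_le_add hA' hB'
-- END cut_bound

-- BEGIN no_adj
/-- H4. `z' ∈ Bl s z 1 ⊆ Bl s z R` and `z' ∈ Bl s z' R`. -/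
theorem no_adj (s : Bool → Equiv.Perm V) (R : ℕ) (hR : 1 ≤ R) (Sp : Finset V) (hS : Sep s R Sp)
    (hs : Ham s) (z z' : V) (hz : z ∈ Sp) (hz' : z' ∈ Sp) : ¬ adj s z z' := by
  intro h
  have h1 := hS z hz z' hz' (adj_ne s hs z z' h)
  have h2 : z' ∈ Bl s z R := ball_mono s z 1 R hR (ball_step s z z z' 0 (mem_self s z 0) h)
  exact (Finset.disjoint_left.1 h1) h2 (mem_self s z' R)

/-- so special vertices have no edges to `Sp` -/
theorem dg_Sp (s : Bool → Equiv.Perm V) (R : ℕ) (hR : 1 ≤ R) (Sp : Finset V) (hS : Sep s R Sp)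
    (hs : Ham s) (z : V) (hz : z ∈ Sp) (X : Finset V) (hX : X ⊆ Sp) : dg s z X = 0 := by
  by_contra h
  obtain ⟨u, hu, hadj⟩ := (dg_pos s z X).1 (Nat.one_le_iff_ne_zero.2 h)
  exact no_adj s R hR Sp hS hs z u hz (hX hu) hadj
-- END no_adj

-- BEGIN cut_all
/-- H5. If `2|Y| ≤ |V|`: `cut_bound` for `z ↦ (N z)ᶜ` (`dg_compl`). Otherwise `T = (Y ∪ Sp)ᶜ` has `2|T| ≤ |V|`, and `cut_bound` for `N` gives `h ≤ ax s T`, where
`h = ∑_{z ∈ Sp} dg s z (N z ∩ T)`. `ax s Y = ax s (T ∪ Sp)` (`ax_compl`) `= 2|T| + 2|Sp| - ed s (T ∪ Sp)` and (`ed_union`, `dg_comm`) `ed s (T ∪ Sp) = ed s T + 0 + ∑_{z ∈ Sp} dg s z T`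
(`ed s Sp = 0` by `sum_dg`, `dg_Sp`), `dg s z T = dg s z (N z ∩ T) + dg s z ((N z)ᶜ ∩ T)`, `dg s z ((N z)ᶜ ∩ Y) + dg s z ((N z)ᶜ ∩ T) + dg s z ((N z)ᶜ ∩ Sp) = dg s z (N z)ᶜ = 2` with the third
term `0`. So `ax s Y = (2|T| - ed s T) - h + ∑_{z ∈ Sp} dg s z ((N z)ᶜ ∩ Y)` and `2|T| - ed s T = ax s T ≥ h`. -/
theorem cut_all (s : Bool → Equiv.Perm V) (hs : Ham s) (q R : ℕ) (hq : 1 ≤ q) (hR : 2 * q + 1 ≤ R) (hE : Expands s q)
    (Sp : Finset V) (hS : Sep s R Sp) (N : V → Finset V) (hN : ∀ z ∈ Sp, dg s z (N z) = 2) (Y : Finset V)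
    (hY : Disjoint Y Sp) : ∑ z ∈ Sp, dg s z ((N z)ᶜ ∩ Y) ≤ ax s Y := by
  have hR1 : 1 ≤ R := by omega
  have hN' : ∀ z ∈ Sp, dg s z (N z)ᶜ = 2 := by
    intro z hz
    have := dg_compl s z (N z)
    rw [hN z hz] at this
    omega
  by_cases hc : 2 * Y.card ≤ Fintype.card V
  · exact cut_bound s hs q R hq hR hE Sp hS (fun z => (N z)ᶜ) (fun z hz => (hN' z hz).le) Y hY hc
  set T : Finset V := (Y ∪ Sp)ᶜ with hT
  have hTS : Disjoint T Sp := by
    rw [hT, Finset.disjoint_left]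
    intro x hx hx'
    exact (mem_compl.1 hx) (mem_union_right _ hx')
  have hTY : Disjoint T Y := by
    rw [hT, Finset.disjoint_left]
    intro x hx hx'
    exact (mem_compl.1 hx) (mem_union_left _ hx')
  have hcompl : Yᶜ = T ∪ Sp := by
    ext x
    simp only [hT, mem_compl, mem_union]
    constructor
    · intro h
      by_cases hx : x ∈ Sp
      · exact Or.inr hx
      · left
        rintro (h1 | h1)
        · exact h h1
        · exact hx h1
    · rintro (h | h) h1
      · exact h (Or.inl h1)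
      · exact (Finset.disjoint_left.1 hY) h1 h
  have hcard : 2 * T.card ≤ Fintype.card V := by
    have h1 : T.card + Y.card ≤ Fintype.card V := by
      rw [← card_union_of_disjoint hTY]
      exact card_le_univ _
    omega
  have h1 := cut_bound s hs q R hq hR hE Sp hS N (fun z hz => (hN z hz).le) T hTS hcard
  have h2 : ax s Y = ax s (T ∪ Sp) := by rw [← hcompl, ax_compl]
  have h3 := ed_add_ax s (T ∪ Sp)
  have h4 := ed_add_ax s T
  have h5 := ed_union s T Sp hTS
  have h6 : ed s Sp = 0 := by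
    have h7 := sum_dg s Sp
    have h8 : ∑ v ∈ Sp, dg s v Sp = 0 := sum_eq_zero (fun z hz => dg_Sp s R hR1 Sp hS hs z hz Sp (Subset.refl _))
    omega
  have h7 := dg_comm s T Sp
  have hcu : (T ∪ Sp).card = T.card + Sp.card := card_union_of_disjoint hTS
  have h8 : ∀ z ∈ Sp, dg s z T + dg s z ((N z)ᶜ ∩ Y) = dg s z (N z ∩ T) + 2 := by
    intro z hz
    have e1 : dg s z T = dg s z (N z ∩ T) + dg s z ((N z)ᶜ ∩ T) := by
      rw [← dg_union]
      · congr 1
        ext x
        simp only [mem_union, mem_inter, mem_compl]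
        tauto
      · rw [Finset.disjoint_left]
        intro x hx hx'
        exact (mem_compl.1 (mem_inter.1 hx').1) (mem_inter.1 hx).1
    have e2 : dg s z (N z)ᶜ = dg s z ((N z)ᶜ ∩ T) + dg s z ((N z)ᶜ ∩ Y) + dg s z ((N z)ᶜ ∩ Sp) := by
      rw [← dg_union, ← dg_union]
      · congr 1
        ext x
        have hx : x ∈ T ∨ x ∈ Y ∨ x ∈ Sp := by
          by_cases h : x ∈ Y ∪ Sp
          · exact Or.inr (mem_union.1 h)
          · exact Or.inl (mem_compl.2 h)
        simp only [mem_union, mem_inter, mem_compl]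
        tauto
      · rw [Finset.disjoint_left]
        intro x hx hx'
        have h9 := (mem_inter.1 hx').2
        rcases mem_union.1 hx with h | h
        · exact (Finset.disjoint_left.1 hTS) (mem_inter.1 h).2 h9
        · exact (Finset.disjoint_left.1 hY) (mem_inter.1 h).2 h9
      · rw [Finset.disjoint_left]
        intro x hx hx'
        exact (Finset.disjoint_left.1 hTY) (mem_inter.1 hx).2 (mem_inter.1 hx').2
    have e3 : dg s z ((N z)ᶜ ∩ Sp) = 0 := dg_Sp s R hR1 Sp hS hs z hz _ inter_subset_right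
    have e4 := hN' z hz
    omega
  have h9 : ∑ z ∈ Sp, dg s z T + ∑ z ∈ Sp, dg s z ((N z)ᶜ ∩ Y) = ∑ z ∈ Sp, dg s z (N z ∩ T) + 2 * Sp.card := by
    rw [← sum_add_distrib, sum_congr rfl h8, sum_add_distrib, sum_const, smul_eq_mul, mul_comm]
  omega
-- END cut_all

-- BEGIN hall_cond
/-- edges at `z` with the other end in `X` -/
private theorem hall_cond_inc (s : Bool → Equiv.Perm V) (z : V) (X : Finset V) :
    ((univ : Finset (V × Bool)).filter (fun e => (e.1 = z ∧ s e.2 e.1 ∈ X) ∨ (s e.2 e.1 = z ∧ e.1 ∈ X))).card ≤ dg s z X := by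
  have h1 : (univ : Finset (V × Bool)).filter (fun e => (e.1 = z ∧ s e.2 e.1 ∈ X) ∨ (s e.2 e.1 = z ∧ e.1 ∈ X)) ⊆
      ((univ : Finset Bool).filter (fun i => s i z ∈ X)).image (fun i => (z, i)) ∪
      ((univ : Finset Bool).filter (fun i => (s i).symm z ∈ X)).image (fun i => ((s i).symm z, i)) := by
    rintro ⟨u, i⟩ he
    rw [mem_union, mem_image, mem_image]
    rcases (mem_filter.1 he).2 with ⟨h2, h3⟩ | ⟨h2, h3⟩
    · left
      simp only at h2 h3
      subst h2
      exact ⟨i, mem_filter.2 ⟨mem_univ _, h3⟩, rfl⟩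
    · right
      simp only at h2 h3
      have h4 : (s i).symm z = u := by rw [← h2, Equiv.symm_apply_apply]
      refine ⟨i, mem_filter.2 ⟨mem_univ _, ?_⟩, ?_⟩
      · rw [h4]; exact h3
      · rw [h4]
  refine (card_le_card h1).trans ((card_union_le _ _).trans ?_)
  exact Nat.add_le_add card_image_le card_image_le

/-- H6. `Y₀ = Y \ Sp`, `Y₁ = Y ∩ Sp`. An edge `e` with `tl e ⊆ Y`: both ends not in `Sp`: it is inside `Y₀` (`ed s Y₀` edges); otherwise exactly one end `z` is in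
`Sp` (`no_adj`), with other end `w`: if `w ∈ N z` then `z ∈ Y₁` (at most `∑_{z ∈ Y₁} dg s z (N z) = 2|Y₁|` edges, as the edges `(z, i)` with `s i z ∈ N z` and the edges `((s i)⁻¹ z, i)` with `(s i)⁻¹ z ∈ N z`
number `dg s z (N z)`); if not then `w ∈ Y₀` (at most `∑_{z ∈ Sp} dg s z ((N z)ᶜ ∩ Y₀)` edges). `cut_all` for `Y₀` and `ed_add_ax`: `ed s Y₀ + ax s Y₀ = 2|Y₀|`. -/
theorem hall_cond (s : Bool → Equiv.Perm V) (hs : Ham s) (q R : ℕ) (hq : 1 ≤ q) (hR : 2 * q + 1 ≤ R) (hE : Expands s q)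
    (Sp : Finset V) (hS : Sep s R Sp) (N : V → Finset V) (hN : ∀ z ∈ Sp, dg s z (N z) = 2) (Y : Finset V) :
    ((univ : Finset (V × Bool)).filter (fun e => tl s Sp N e ⊆ Y)).card ≤ 2 * Y.card := by
  have hR1 : 1 ≤ R := by omega
  set Y0 : Finset V := Y \ Sp with hY0
  set Y1 : Finset V := Y ∩ Sp with hY1
  have hd : Disjoint Y0 Sp := by
    rw [Finset.disjoint_left]
    intro x hx hx'
    exact (mem_sdiff.1 hx).2 hx'
  have hcut := cut_all s hs q R hq hR hE Sp hS N hN Y0 hd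
  have hed := ed_add_ax s Y0
  have hcard : Y0.card + Y1.card = Y.card := card_sdiff_add_card_inter Y Sp
  set I : V → Finset V → Finset (V × Bool) := fun z X =>
    (univ : Finset (V × Bool)).filter (fun e => (e.1 = z ∧ s e.2 e.1 ∈ X) ∨ (s e.2 e.1 = z ∧ e.1 ∈ X)) with hI
  have hsub : (univ : Finset (V × Bool)).filter (fun e => tl s Sp N e ⊆ Y) ⊆
      ((Y0 ×ˢ (univ : Finset Bool)).filter (fun e => s e.2 e.1 ∈ Y0)) ∪
        (Y1.biUnion (fun z => I z (N z)) ∪ Sp.biUnion (fun z => I z ((N z)ᶜ ∩ Y0))) := by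
    rintro ⟨u, i⟩ he
    have h1 := (mem_filter.1 he).2
    rw [mem_union, mem_union]
    unfold tl at h1
    simp only at h1
    have hadj : adj s u (s i u) := ⟨i, Or.inl rfl⟩
    by_cases hu : u ∈ Sp
    · rw [if_pos hu] at h1
      have hw : s i u ∉ Sp := fun h => no_adj s R hR1 Sp hS hs u (s i u) hu h hadj
      right
      by_cases hn : s i u ∈ N u
      · rw [if_pos hn] at h1
        left
        have h2 : u ∈ Y := h1 (mem_singleton_self _)
        exact mem_biUnion.2 ⟨u, mem_inter.2 ⟨h2, hu⟩, mem_filter.2 ⟨mem_univ _, Or.inl ⟨rfl, hn⟩⟩⟩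
      · rw [if_neg hn] at h1
        right
        have h2 : s i u ∈ Y := h1 (mem_singleton_self _)
        exact mem_biUnion.2 ⟨u, hu, mem_filter.2 ⟨mem_univ _, Or.inl ⟨rfl,
          mem_inter.2 ⟨mem_compl.2 hn, mem_sdiff.2 ⟨h2, hw⟩⟩⟩⟩⟩
    · rw [if_neg hu] at h1
      by_cases hw : s i u ∈ Sp
      · rw [if_pos hw] at h1
        right
        by_cases hn : u ∈ N (s i u)
        · rw [if_pos hn] at h1
          left
          have h2 : s i u ∈ Y := h1 (mem_singleton_self _)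
          exact mem_biUnion.2 ⟨s i u, mem_inter.2 ⟨h2, hw⟩, mem_filter.2 ⟨mem_univ _, Or.inr ⟨rfl, hn⟩⟩⟩
        · rw [if_neg hn] at h1
          right
          have h2 : u ∈ Y := h1 (mem_singleton_self _)
          exact mem_biUnion.2 ⟨s i u, hw, mem_filter.2 ⟨mem_univ _, Or.inr ⟨rfl,
            mem_inter.2 ⟨mem_compl.2 hn, mem_sdiff.2 ⟨h2, hu⟩⟩⟩⟩⟩
      · rw [if_neg hw] at h1
        left
        have h2 : u ∈ Y := h1 (mem_insert_self _ _)
        have h3 : s i u ∈ Y := h1 (mem_insert_of_mem (mem_singleton_self _))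
        exact mem_filter.2 ⟨mem_product.2 ⟨mem_sdiff.2 ⟨h2, hu⟩, mem_univ _⟩, mem_sdiff.2 ⟨h3, hw⟩⟩
  have h1 := (card_le_card hsub).trans ((card_union_le _ _).trans
    (Nat.add_le_add_left (card_union_le _ _) _))
  have h2 : (Y1.biUnion (fun z => I z (N z))).card ≤ 2 * Y1.card := by
    refine card_biUnion_le.trans ?_
    refine (sum_le_sum (fun z hz => (hall_cond_inc s z (N z)).trans (hN z (mem_inter.1 hz).2).le)).trans ?_
    rw [sum_const, smul_eq_mul, mul_comm]
  have h3 : (Sp.biUnion (fun z => I z ((N z)ᶜ ∩ Y0))).card ≤ ∑ z ∈ Sp, dg s z ((N z)ᶜ ∩ Y0) :=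
    card_biUnion_le.trans (sum_le_sum (fun z _ => hall_cond_inc s z _))
  have h4 : ((Y0 ×ˢ (univ : Finset Bool)).filter (fun e => s e.2 e.1 ∈ Y0)).card = ed s Y0 := rfl
  omega
-- END hall_cond

-- BEGIN tails
/-- H7. `Finset.all_card_le_biUnion_card_iff_exists_injective` for `t e = tl s Sp N e ×ˢ (univ : Finset (Fin 2))` in `V × Fin 2`: for a finite set `F` of edges let `Y` be the union
of the `tl e`, `e ∈ F`; `F.biUnion t = Y ×ˢ univ` has `2|Y|` elements, `hall_cond`. `g e = (f e).1`; at most two edges have `g e = v`, since `f` is injective. -/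
theorem tails (s : Bool → Equiv.Perm V) (hs : Ham s) (q R : ℕ) (hq : 1 ≤ q) (hR : 2 * q + 1 ≤ R) (hE : Expands s q)
    (Sp : Finset V) (hS : Sep s R Sp) (N : V → Finset V) (hN : ∀ z ∈ Sp, dg s z (N z) = 2) :
    ∃ g : V × Bool → V, (∀ e, g e ∈ tl s Sp N e) ∧ ∀ v, ((univ : Finset (V × Bool)).filter (fun e => g e = v)).card ≤ 2 := by
  have hall : ∀ F : Finset (V × Bool),
      F.card ≤ (F.biUnion (fun e => tl s Sp N e ×ˢ (univ : Finset (Fin 2)))).card := by
    intro F
    have h1 : F.biUnion (fun e => tl s Sp N e ×ˢ (univ : Finset (Fin 2))) =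
        F.biUnion (fun e => tl s Sp N e) ×ˢ (univ : Finset (Fin 2)) := by
      ext x
      simp only [mem_biUnion, mem_product, mem_univ, and_true]
    rw [h1, card_product, card_univ, Fintype.card_fin, mul_comm]
    refine le_trans (card_le_card ?_)
      (hall_cond s hs q R hq hR hE Sp hS N hN (F.biUnion (fun e => tl s Sp N e)))
    intro e he
    rw [mem_filter]
    exact ⟨mem_univ e, subset_biUnion_of_mem (fun e => tl s Sp N e) he⟩
  obtain ⟨f, hf, hft⟩ := (Finset.all_card_le_biUnion_card_iff_exists_injective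
    (fun e : V × Bool => tl s Sp N e ×ˢ (univ : Finset (Fin 2)))).mp hall
  refine ⟨fun e => (f e).1, fun e => (mem_product.mp (hft e)).1, ?_⟩
  intro v
  have h2 : ((univ : Finset (V × Bool)).filter (fun e => (f e).1 = v)).card ≤
      (univ : Finset (Fin 2)).card := by
    apply card_le_card_of_injOn (fun e => (f e).2) (fun _ _ => mem_coe.mpr (mem_univ _))
    intro e he e' he' hee
    rw [mem_coe, mem_filter] at he he'
    exact hf (Prod.ext (he.2.trans he'.2.symm) hee)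
  rw [card_univ, Fintype.card_fin] at h2
  exact h2
-- END tails

-- BEGIN orient
/-- H8. `D u v` iff some edge `e` has `g e = u` and ends `u`, `v`: `∃ i, (g (u, i) = u ∧ s i u = v) ∨ (g (v, i) = u ∧ s i v = u)`. `tl e ⊆ {e.1, s e.2 e.1}` gives the first claim; the out-neighbours of `u`
are the other ends of the at most two edges with `g e = u` (`card_image_le`). Last claim: if `D v z` by the edge `e` with ends `v ≠ z`, `g e = v`, `z ∈ Sp`, then `v ∉ Sp` (`no_adj`), and `v ∈ N z` gives `tl e = {z}`: `g e = z`. -/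
theorem orient (s : Bool → Equiv.Perm V) (hs : Ham s) (q R : ℕ) (hq : 1 ≤ q) (hR : 2 * q + 1 ≤ R) (hE : Expands s q)
    (Sp : Finset V) (hS : Sep s R Sp) (N : V → Finset V) (hN : ∀ z ∈ Sp, dg s z (N z) = 2) :
    ∃ D : V → V → Prop, (∀ u v, adj s u v → D u v ∨ D v u) ∧ (∀ u v, D u v → adj s u v) ∧
      (∀ u, ∃ S : Finset V, S.card ≤ 2 ∧ ∀ v, D u v → v ∈ S) ∧ ∀ z ∈ Sp, ∀ v ∈ N z, ¬ D v z := by
  obtain ⟨g, hg, hc⟩ := tails s hs q R hq hR hE Sp hS N hN
  have hge : ∀ u i, g (u, i) = u ∨ g (u, i) = s i u := by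
    intro u i
    have h := hg (u, i)
    unfold tl at h
    dsimp only at h
    split_ifs at h with h1 h2 h3 h4
    · exact Or.inl (Finset.mem_singleton.1 h)
    · exact Or.inr (Finset.mem_singleton.1 h)
    · exact Or.inr (Finset.mem_singleton.1 h)
    · exact Or.inl (Finset.mem_singleton.1 h)
    · rcases Finset.mem_insert.1 h with h | h
      · exact Or.inl h
      · exact Or.inr (Finset.mem_singleton.1 h)
  refine ⟨fun u v => ∃ i : Bool, (g (u, i) = u ∧ s i u = v) ∨ (g (v, i) = u ∧ s i v = u), ?_, ?_, ?_, ?_⟩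
  · rintro u v ⟨i, h | h⟩
    · rcases hge u i with h1 | h1
      · exact Or.inl ⟨i, Or.inl ⟨h1, h⟩⟩
      · exact Or.inr ⟨i, Or.inr ⟨h1.trans h, h⟩⟩
    · rcases hge v i with h1 | h1
      · exact Or.inr ⟨i, Or.inl ⟨h1, h⟩⟩
      · exact Or.inl ⟨i, Or.inr ⟨h1.trans h, h⟩⟩
  · rintro u v ⟨i, h | h⟩
    · exact ⟨i, Or.inl h.2⟩
    · exact ⟨i, Or.inr h.2⟩
  · intro u
    refine ⟨((univ : Finset (V × Bool)).filter (fun e => g e = u)).image (fun e => if e.1 = u then s e.2 e.1 else e.1),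
      le_trans Finset.card_image_le (hc u), ?_⟩
    rintro v ⟨i, h | h⟩
    · exact Finset.mem_image.2 ⟨(u, i), Finset.mem_filter.2 ⟨Finset.mem_univ _, h.1⟩, by simpa using h.2⟩
    · refine Finset.mem_image.2 ⟨(v, i), Finset.mem_filter.2 ⟨Finset.mem_univ _, h.1⟩, ?_⟩
      have hvu : v ≠ u := fun e => hs.nofix i v (h.2.trans e.symm)
      simp [hvu]
  · rintro z hz v hv ⟨i, h | h⟩
    · have hvS : v ∉ Sp := fun hv' => no_adj s R (by omega) Sp hS hs v z hv' hz ⟨i, Or.inl h.2⟩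
      have h1 := hg (v, i)
      unfold tl at h1
      dsimp only at h1
      rw [if_neg hvS, h.2, if_pos hz, if_pos hv, Finset.mem_singleton, h.1] at h1
      exact hs.nofix i v (h.2.trans h1.symm)
    · have h1 := hg (z, i)
      unfold tl at h1
      dsimp only at h1
      rw [if_pos hz, h.2, if_pos hv, Finset.mem_singleton, h.1] at h1
      exact hs.nofix i z (h.2.trans h1)
-- END orient

end Hlc
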