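import Mathlib

/-!
# List colouring of the union of two random Hamiltonian cycles (MP_e6c83c_co): definitions
-/

set_option autoImplicit false

namespace Hlc

open Finset

/-! ## Definitions of the statement -/

/-- The union of two Hamiltonian cycles on `Fin n`: the images of the cycle `0, 1, …, n - 1` under the permutations `p.1` and
`p.2`. -/
def HG (n : ℕ) (p : Equiv.Perm (Fin n) × Equiv.Perm (Fin n)) : SimpleGraph (Fin n) :=
  SimpleGraph.fromRel (fun a b : Fin n =>
    b = p.1 (finRotate n (p.1.symm a)) ∨ b = p.2 (finRotate n (p.2.symm a)))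

/-- `G` has a proper colouring `c` with `c v ∈ L v` for all `v`. -/
def LCol {V : Type} (G : SimpleGraph V) (L : V → Finset ℕ) : Prop :=
  ∃ c : V → ℕ, (∀ v, c v ∈ L v) ∧ ∀ u v, G.Adj u v → c u ≠ c v

/-- The odd cycles of `G` through `v` all of whose vertices have the colour `c` in their lists, as closed walks from `v` (so
each cycle occurs twice, once for each direction). -/
def OddCyc {V : Type} (G : SimpleGraph V) (L : V → Finset ℕ) (c : ℕ) (v : V) : Set (G.Walk v v) :=
  {w | w.IsCycle ∧ Odd w.length ∧ ∀ u ∈ w.support, c ∈ L u}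

/-- The sequences `f` of `k` consecutive vertices, containing `v`, of odd cycles of `G` all of whose vertices have the colour `c`
in their lists: the first `k` vertices of such a cycle, as a closed walk from any of its vertices in either direction. -/
def OddPath {V : Type} (G : SimpleGraph V) (L : V → Finset ℕ) (c k : ℕ) (v : V) : Set (Fin k → V) :=
  {f | (∃ j, f j = v) ∧ ∃ (a : V) (w : G.Walk a a), w.IsCycle ∧ Odd w.length ∧ k ≤ w.length ∧
    (∀ u ∈ w.support, c ∈ L u) ∧ ∀ j : Fin k, f j = w.getVert j}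

/-- The growth condition: for some `k` between `k₀` and `γ log n` every vertex is in at most `(1 + ε)^k` of the sequences of `k`
consecutive vertices of odd cycles in each colour class. -/
def Growth (ε γ : ℝ) (k₀ n : ℕ) (G : SimpleGraph (Fin n)) (L : Fin n → Finset ℕ) : Prop :=
  ∃ k : ℕ, k₀ ≤ k ∧ (k : ℝ) ≤ γ * Real.log n ∧ ∀ c v, ((OddPath G L c k v).ncard : ℝ) ≤ (1 + ε) ^ k

/-! ## Auxiliary definitions -/

/-- the cyclic permutation `a ↦ τ (τ⁻¹ a + 1)` -/
def cy {n : ℕ} (τ : Equiv.Perm (Fin n)) : Equiv.Perm (Fin n) := (τ.symm.trans (finRotate n)).trans τ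

/-- the two cyclic permutations of `p` -/
def sp {n : ℕ} (p : Equiv.Perm (Fin n) × Equiv.Perm (Fin n)) : Bool → Equiv.Perm (Fin n) :=
  fun i => cond i (cy p.1) (cy p.2)

section

variable {V : Type} [Fintype V] [DecidableEq V] (s : Bool → Equiv.Perm V)

/-- The 4-regular multigraph with the edges `(u, i)`, joining `u` and `s i u`. -/
def adj (u v : V) : Prop := ∃ i : Bool, s i u = v ∨ s i v = u

/-- number of edges `(u, i)` with both ends in `X` -/
def ed (X : Finset V) : ℕ := ((X ×ˢ (univ : Finset Bool)).filter (fun e => s e.2 e.1 ∈ X)).card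

/-- number of edges `(u, i)` with `u ∈ X`, `s i u ∉ X` -/
def ax (X : Finset V) : ℕ := ((X ×ˢ (univ : Finset Bool)).filter (fun e => s e.2 e.1 ∉ X)).card

/-- number of edges from `v` to `X` -/
def dg (v : V) (X : Finset V) : ℕ :=
  ((univ : Finset Bool).filter (fun i => s i v ∈ X)).card + ((univ : Finset Bool).filter (fun i => (s i).symm v ∈ X)).card

/-- the four half-edges at `v` and their other ends: `(i, true)` is the edge `(v, i)`, `(i, false)` the edge `((s i)⁻¹ v, i)` -/
def hv (v : V) (h : Bool × Bool) : V := cond h.2 (s h.1 v) ((s h.1).symm v)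

/-- the neighbours of `u` -/
def nbr (u : V) : Finset V := univ.image (fun i : Bool => s i u) ∪ univ.image (fun i : Bool => (s i).symm u)

/-- balls -/
def Bl (v : V) : ℕ → Finset V
  | 0 => {v}
  | r + 1 => Bl v r ∪ (Bl v r).biUnion (nbr s)

/-- no loops, and both permutations have only one cycle -/
structure Ham : Prop where
  nofix : ∀ i u, s i u ≠ u
  tran : ∀ i (Y : Finset V), Y.Nonempty → (∀ u ∈ Y, s i u ∈ Y) → Y = univ

/-- expansion -/
def Expands (q : ℕ) : Prop := ∀ Y : Finset V, Y.Nonempty → 2 * Y.card ≤ Fintype.card V → Y.card ≤ q * ax s Y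

/-- small sets span at most as many edges as vertices -/
def Sparse (m : ℕ) : Prop := ∀ X : Finset V, X.Nonempty → X.card ≤ m → ed s X ≤ X.card

/-- the balls of radius `R` around the points of `Sp` are pairwise disjoint -/
def Sep (R : ℕ) (Sp : Finset V) : Prop := ∀ z ∈ Sp, ∀ z' ∈ Sp, z ≠ z' → Disjoint (Bl s z R) (Bl s z' R)

/-- the allowed tails of the edge `e`: `N z` is the set of heads of the special vertex `z` -/
def tl (Sp : Finset V) (N : V → Finset V) (e : V × Bool) : Finset V :=
  if e.1 ∈ Sp then (if s e.2 e.1 ∈ N e.1 then {e.1} else {s e.2 e.1})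
  else if s e.2 e.1 ∈ Sp then (if e.1 ∈ N (s e.2 e.1) then {s e.2 e.1} else {e.1})
  else {e.1, s e.2 e.1}

/-- the minimal sets `Z`, `2 ≤ |Z| ≤ K`, with at least `|Z|` edges -/
def Zs (K : ℕ) : Finset (Finset V) :=
  univ.filter (fun Z => 2 ≤ Z.card ∧ Z.card ≤ K ∧ Z.card ≤ ed s Z ∧ ∀ W ∈ Z.ssubsets, W.Nonempty → ed s W < W.card)

end

/-- directed walks in `W` for a relation `D`, with their length -/
inductive Dw {V : Type} (D : V → V → Prop) (W : Finset V) : ℕ → V → V → Prop
  | nil (u : V) (hu : u ∈ W) : Dw D W 0 u u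
  | cons {k : ℕ} {u v w : V} (hu : u ∈ W) (h : D u v) (hw : Dw D W k v w) : Dw D W (k + 1) u w

/-- exits of `X` for one cycle -/
def xs {n : ℕ} (τ : Equiv.Perm (Fin n)) (X : Finset (Fin n)) : ℕ := (X.filter (fun u => cy τ u ∉ X)).card

end Hlc
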