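import Pool.Agent.Hlc.Lng
import Pool.Agent.SparseOrd.Lll

/-!
# Hlc LLL: random special vertices
-/

set_option autoImplicit false

namespace Hlc

open Finset

/-- values of the random function: `w v` is active if its first coordinate is `0`, and then proposes two half-edges -/
abbrev Tg (m : ℕ) : Type := Fin m × ((Bool × Bool) × (Bool × Bool))

open Classical in
/-- probability for a uniform random function `V → T` -/
noncomputable def pb {V T : Type} [Fintype V] [Fintype T] (A : (V → T) → Prop) : ℝ :=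
  ((univ.filter (fun w => A w)).card : ℝ) / (Fintype.card (V → T) : ℝ)

/-- the event `A` depends only on the values at the points of `F` -/
def Dep {V T : Type} (A : (V → T) → Prop) (F : Finset V) : Prop := ∀ w w' : V → T, (∀ v ∈ F, w v = w' v) → (A w ↔ A w')

section

variable {V : Type} [Fintype V] [DecidableEq V]

/-- `x` is active and proposes the edges to `a` and to `b`, and no other vertex of the ball of radius `2R` is active -/
def GoodAt (s : Bool → Equiv.Perm V) (R m : ℕ) (w : V → Tg m) (a x b : V) : Prop :=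
  ((w x).1 : ℕ) = 0 ∧ hv s x (w x).2.1 = a ∧ hv s x (w x).2.2 = b ∧ ∀ u ∈ Bl s x (2 * R), u ≠ x → ((w u).1 : ℕ) ≠ 0

/-- some inner vertex of the path `f`, far from the short cycles, is good for its two neighbours on the path -/
def Hit (s : Bool → Equiv.Perm V) (R K m : ℕ) (zc : Finset V → V) (k : ℕ) (f : Fin k → V) (w : V → Tg m) : Prop :=
  ∃ (j : ℕ) (h : j + 2 < k), (∀ Z ∈ Zs s K, f ⟨j + 1, by omega⟩ ∉ Bl s (zc Z) (2 * R)) ∧
    GoodAt s R m w (f ⟨j, by omega⟩) (f ⟨j + 1, by omega⟩) (f ⟨j + 2, h⟩)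

end

-- BEGIN pb_basic
theorem pb_basic_eq {V T : Type} [Fintype V] [Fintype T] [DecidableEq V] (A : (V → T) → Prop) [DecidablePred A] :
    pb A = ((univ.filter (fun w => A w)).card : ℝ) / (Fintype.card (V → T) : ℝ) := by
  have h1 : ∀ (i1 i2 : Fintype (V → T)) (d1 d2 : DecidablePred (fun w : V → T => A w)),
      (@Finset.filter (V → T) (fun w => A w) d1 (@univ (V → T) i1)).card =
        (@Finset.filter (V → T) (fun w => A w) d2 (@univ (V → T) i2)).card := by
    intro i1 i2 d1 d2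
    rw [Subsingleton.elim i1 i2, Subsingleton.elim d1 d2]
  have h2 : ∀ i1 i2 : Fintype (V → T), @Fintype.card (V → T) i1 = @Fintype.card (V → T) i2 := by
    intro i1 i2
    rw [Subsingleton.elim i1 i2]
  unfold pb
  exact congrArg₂ (fun a b : ℕ => (a : ℝ) / (b : ℝ)) (h1 _ _ _ _) (h2 _ _)

/-- R1. -/
theorem pb_nonneg {V T : Type} [Fintype V] [Fintype T] (A : (V → T) → Prop) : 0 ≤ pb A := by
  unfold pb
  positivity

theorem pb_mono {V T : Type} [Fintype V] [Fintype T] (A B : (V → T) → Prop) (h : ∀ w, A w → B w) : pb A ≤ pb B := by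
  classical
  unfold pb
  apply div_le_div_of_nonneg_right _ (Nat.cast_nonneg _)
  exact_mod_cast Finset.card_le_card (fun w hw => by
    rw [Finset.mem_filter] at hw ⊢
    exact ⟨hw.1, h w hw.2⟩)

theorem pb_not {V T : Type} [Fintype V] [Fintype T] [Nonempty T] (A : (V → T) → Prop) : pb (fun w => ¬ A w) = 1 - pb A := by
  classical
  rw [pb_basic_eq, pb_basic_eq]
  have hN : (0 : ℝ) < (Fintype.card (V → T) : ℝ) := by exact_mod_cast Fintype.card_pos
  have h1 := Finset.card_filter_add_card_filter_not (s := (univ : Finset (V → T))) (fun w => A w)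
  have h2 : ((univ.filter (fun w : V → T => A w)).card : ℝ) + ((univ.filter (fun w : V → T => ¬ A w)).card : ℝ) = (Fintype.card (V → T) : ℝ) := by
    rw [← Finset.card_univ]
    exact_mod_cast h1
  rw [eq_sub_iff_add_eq, ← add_div, div_eq_one_iff_eq hN.ne', add_comm]
  exact h2

theorem pb_union {V T ι : Type} [Fintype V] [Fintype T] (J : Finset ι) (A : ι → (V → T) → Prop) :
    pb (fun w => ∃ j ∈ J, A j w) ≤ ∑ j ∈ J, pb (A j) := by
  classical
  simp only [pb_basic_eq]
  rw [← Finset.sum_div]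
  apply div_le_div_of_nonneg_right _ (Nat.cast_nonneg _)
  have h1 : (univ.filter (fun w : V → T => ∃ j ∈ J, A j w)) ⊆ J.biUnion (fun j => univ.filter (fun w : V → T => A j w)) := by
    intro w hw
    rw [Finset.mem_filter] at hw
    obtain ⟨j, hj, hjw⟩ := hw.2
    rw [Finset.mem_biUnion]
    exact ⟨j, hj, by rw [Finset.mem_filter]; exact ⟨Finset.mem_univ _, hjw⟩⟩
  have h2 := (Finset.card_le_card h1).trans Finset.card_biUnion_le
  exact_mod_cast h2
-- END pb_basic

-- BEGIN pb_indep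
/-- R2. `Pool.Agent.MP_e50225_co.LLLProduct.card_and_mul_card` with `T = F` (`B` depends only on the points outside `F`). -/
theorem pb_indep {V T : Type} [Fintype V] [DecidableEq V] [Fintype T] (A B : (V → T) → Prop) (F F' : Finset V)
    (hA : Dep A F) (hB : Dep B F') (h : Disjoint F F') : pb (fun w => A w ∧ B w) = pb A * pb B := by
  classical
  have key := Pool.Agent.MP_e50225_co.LLLProduct.card_and_mul_card F A B hA
    (fun w w' hw => hB w w' (fun v hv => hw v (fun hvF => Finset.disjoint_left.mp h hvF hv)))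
  rw [pb_basic_eq, pb_basic_eq, pb_basic_eq]
  have key2 : ((univ.filter (fun w : V → T => A w ∧ B w)).card) * Fintype.card (V → T) =
      (univ.filter (fun w : V → T => A w)).card * (univ.filter (fun w : V → T => B w)).card := by
    have h3 : ∀ (i1 i2 : Fintype (V → T)) (C : (V → T) → Prop) (d1 d2 : DecidablePred (fun w : V → T => C w)),
        (@Finset.filter (V → T) (fun w => C w) d1 (@univ (V → T) i1)).card =
          (@Finset.filter (V → T) (fun w => C w) d2 (@univ (V → T) i2)).card := by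
      intro i1 i2 C d1 d2
      rw [Subsingleton.elim i1 i2, Subsingleton.elim d1 d2]
    refine Eq.trans ?_ (key.trans ?_)
    · exact congrArg₂ (fun a b : ℕ => a * b) (h3 _ _ (fun w => A w ∧ B w) _ _) rfl
    · exact congrArg₂ (fun a b : ℕ => a * b) (h3 _ _ (fun w => A w) _ _) (h3 _ _ (fun w => B w) _ _)
  have key' : ((univ.filter (fun w : V → T => A w ∧ B w)).card : ℝ) * Fintype.card (V → T) =
      ((univ.filter (fun w : V → T => A w)).card : ℝ) * ((univ.filter (fun w : V → T => B w)).card : ℝ) := by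
    exact_mod_cast key2
  by_cases hN : Fintype.card (V → T) = 0
  · rw [hN]
    simp
  · have hN' : (Fintype.card (V → T) : ℝ) ≠ 0 := by exact_mod_cast hN
    rw [div_mul_div_comm, div_eq_div_iff hN' (mul_ne_zero hN' hN'), ← mul_assoc, key']
-- END pb_indep

-- BEGIN pb_many
private theorem pb_many_le_one {V T : Type} [Fintype V] [Fintype T] [Nonempty T] (A : (V → T) → Prop) :
    pb A ≤ 1 := by
  have h := pb_nonneg (fun w : V → T => ¬ A w)
  rw [pb_not] at h
  linarith

/-- R3. Induction on `J`: `pb_indep` for `¬ E j` and `∀ i ∈ J, ¬ E i` (which depends on the union of the `F i`), `pb_not`. -/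
theorem pb_many {V T ι : Type} [Fintype V] [DecidableEq V] [Fintype T] [Nonempty T] (J : Finset ι) (F : ι → Finset V)
    (E : ι → (V → T) → Prop) (hE : ∀ j ∈ J, Dep (E j) (F j)) (hF : ∀ i ∈ J, ∀ j ∈ J, i ≠ j → Disjoint (F i) (F j)) (p : ℝ)
    (hp0 : 0 ≤ p) (hp1 : p ≤ 1) (hp : ∀ j ∈ J, p ≤ pb (E j)) : pb (fun w => ∀ j ∈ J, ¬ E j w) ≤ (1 - p) ^ J.card := by
  classical
  induction J using Finset.induction_on with
  | empty =>
    rw [card_empty, pow_zero]
    exact pb_many_le_one _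
  | insert a J ha ih =>
    have h1 := ih (fun j hj => hE j (mem_insert_of_mem hj))
      (fun i hi j hj => hF i (mem_insert_of_mem hi) j (mem_insert_of_mem hj))
      (fun j hj => hp j (mem_insert_of_mem hj))
    have hDa : Dep (fun w => ¬ E a w) (F a) := fun w w' h => not_congr (hE a (mem_insert_self a J) w w' h)
    have hDJ : Dep (fun w => ∀ j ∈ J, ¬ E j w) (J.biUnion F) := by
      intro w w' h
      refine forall₂_congr (fun j hj => not_congr (hE j (mem_insert_of_mem hj) w w' ?_))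
      intro v hv
      exact h v (mem_biUnion.2 ⟨j, hj, hv⟩)
    have hdis : Disjoint (F a) (J.biUnion F) := by
      rw [disjoint_biUnion_right]
      intro j hj
      refine hF a (mem_insert_self a J) j (mem_insert_of_mem hj) ?_
      rintro rfl
      exact ha hj
    have h2 := pb_indep (fun w => ¬ E a w) (fun w => ∀ j ∈ J, ¬ E j w) (F a) (J.biUnion F) hDa hDJ hdis
    have h3 : pb (fun w => ∀ j ∈ insert a J, ¬ E j w) ≤ pb (fun w => ¬ E a w ∧ ∀ j ∈ J, ¬ E j w) :=
      pb_mono _ _ (fun w h => ⟨h a (mem_insert_self a J), fun j hj => h j (mem_insert_of_mem hj)⟩)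
    have h4 : pb (fun w => ¬ E a w) ≤ 1 - p := by
      rw [pb_not]
      have := hp a (mem_insert_self a J)
      linarith
    have h5 : 0 ≤ pb (fun w => ∀ j ∈ J, ¬ E j w) := pb_nonneg _
    rw [card_insert_of_notMem ha, pow_succ']
    calc pb (fun w => ∀ j ∈ insert a J, ¬ E j w) ≤ pb (fun w => ¬ E a w) * pb (fun w => ∀ j ∈ J, ¬ E j w) :=
          h3.trans (le_of_eq h2)
      _ ≤ (1 - p) * (1 - p) ^ J.card := mul_le_mul h4 h1 h5 (by linarith)
-- END pb_many

-- BEGIN pb_coord
/-- R4. The functions with `w v ∈ S`: `Fintype.piFinset`, or the bijection `(V → T) ≃ T × ({u // u ≠ v} → T)`; or: the numbers of `w` with `w v = t` are equal for all `t` and have sum `|V → T|`. -/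
theorem pb_coord {V T : Type} [Fintype V] [DecidableEq V] [Fintype T] [DecidableEq T] [Nonempty T] (v : V) (S : Finset T) :
    pb (fun w : V → T => w v ∈ S) = (S.card : ℝ) / (Fintype.card T : ℝ) := by
  classical
  rw [pb_basic_eq]
  have hT : (Fintype.card T : ℝ) ≠ 0 := by exact_mod_cast Fintype.card_ne_zero
  have hN : (Fintype.card (V → T) : ℝ) ≠ 0 := by exact_mod_cast Fintype.card_ne_zero
  have h1 : (univ.filter (fun w : V → T => w v ∈ S)) =
      Fintype.piFinset (fun u => if u = v then S else (univ : Finset T)) := by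
    ext w
    rw [Finset.mem_filter, Fintype.mem_piFinset]
    constructor
    · rintro ⟨-, hw⟩ u
      by_cases hu : u = v
      · subst hu
        rw [if_pos rfl]
        exact hw
      · rw [if_neg hu]
        exact Finset.mem_univ _
    · intro hw
      refine ⟨Finset.mem_univ _, ?_⟩
      have h2 := hw v
      rw [if_pos rfl] at h2
      exact h2
  have h2 : (univ.filter (fun w : V → T => w v ∈ S)).card * Fintype.card T = S.card * Fintype.card (V → T) := by
    rw [h1, Fintype.card_piFinset, Fintype.card_pi, ← Finset.mul_prod_erase univ _ (Finset.mem_univ v),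
      ← Finset.mul_prod_erase univ (fun _ : V => Fintype.card T) (Finset.mem_univ v), if_pos rfl]
    have h3 : ∏ u ∈ univ.erase v, (if u = v then S else (univ : Finset T)).card = ∏ u ∈ univ.erase v, Fintype.card T := by
      refine Finset.prod_congr rfl (fun u hu => ?_)
      rw [if_neg (Finset.ne_of_mem_erase hu)]
      rfl
    rw [h3]
    ring
  rw [div_eq_div_iff hN hT]
  exact_mod_cast h2
-- END pb_coord

variable {V : Type} [Fintype V] [DecidableEq V]

-- BEGIN good_prob
private theorem good_prob_aux (s : Bool → Equiv.Perm V) (R m : ℕ) (hm0 : 0 < m) (hm : 2 * 5 ^ (2 * R) ≤ m) (a x b : V)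
    (ha : adj s x a) (hb : adj s x b) : 1 / (32 * (m : ℝ)) ≤ pb (fun w : V → Tg m => GoodAt s R m w a x b) := by
  classical
  obtain ⟨α, hα⟩ := (hv_adj s x a).1 ha
  obtain ⟨β, hβ⟩ := (hv_adj s x b).1 hb
  have hne : Nonempty (Tg m) := ⟨(⟨0, hm0⟩, ((true, true), (true, true)))⟩
  have hmR : (0 : ℝ) < m := by exact_mod_cast hm0
  have hcT : (Fintype.card (Tg m) : ℝ) = 16 * m := by
    have h : Fintype.card (Tg m) = m * 16 := by
      rw [Fintype.card_prod, Fintype.card_fin, Fintype.card_prod, Fintype.card_prod, Fintype.card_bool]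
    rw [h]
    push_cast
    ring
  -- the event at `x`
  set t0 : Tg m := (⟨0, hm0⟩, (α, β)) with ht0
  have hA : pb (fun w : V → Tg m => w x ∈ ({t0} : Finset (Tg m))) = 1 / (16 * m) := by
    rw [pb_coord x {t0}, card_singleton, hcT]
    push_cast
    rfl
  -- the other points of the ball
  set S0 : Finset (Tg m) := univ.filter (fun t => (t.1 : ℕ) = 0) with hS0
  have hS0c : (S0.card : ℝ) ≤ 16 := by
    have h1 : S0 ⊆ ({⟨0, hm0⟩} : Finset (Fin m)) ×ˢ (univ : Finset ((Bool × Bool) × (Bool × Bool))) := by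
      intro t ht
      rw [hS0, mem_filter] at ht
      rw [mem_product, mem_singleton]
      exact ⟨Fin.ext ht.2, mem_univ _⟩
    have h2 := card_le_card h1
    rw [card_product, card_singleton, one_mul, card_univ, Fintype.card_prod, Fintype.card_prod,
      Fintype.card_bool] at h2
    exact_mod_cast h2
  have hu : ∀ u : V, pb (fun w : V → Tg m => w u ∈ S0) ≤ 1 / m := by
    intro u
    rw [pb_coord u S0, hcT, div_le_div_iff₀ (by positivity) hmR]
    nlinarith
  have hB : pb (fun w : V → Tg m => ∃ u ∈ (Bl s x (2 * R)).erase x, w u ∈ S0) ≤ 1 / 2 := by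
    refine (pb_union ((Bl s x (2 * R)).erase x) (fun u w => w u ∈ S0)).trans ?_
    refine (sum_le_sum (fun u _ => hu u)).trans ?_
    rw [sum_const, nsmul_eq_mul, mul_one_div, div_le_div_iff₀ hmR (by norm_num)]
    have h1 : ((Bl s x (2 * R)).erase x).card ≤ 5 ^ (2 * R) :=
      (card_le_card (erase_subset x _)).trans (ball_card s x (2 * R))
    have h2 : 2 * ((Bl s x (2 * R)).erase x).card ≤ m := by omega
    have h3 : 2 * (((Bl s x (2 * R)).erase x).card : ℝ) ≤ m := by exact_mod_cast h2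
    linarith
  have hDA : Dep (fun w : V → Tg m => w x ∈ ({t0} : Finset (Tg m))) {x} := by
    intro w w' h
    show w x ∈ ({t0} : Finset (Tg m)) ↔ w' x ∈ ({t0} : Finset (Tg m))
    rw [h x (mem_singleton_self x)]
  have hDB : Dep (fun w : V → Tg m => ¬ ∃ u ∈ (Bl s x (2 * R)).erase x, w u ∈ S0) ((Bl s x (2 * R)).erase x) := by
    intro w w' h
    refine not_congr (exists_congr (fun u => and_congr_right (fun hu' => ?_)))
    rw [h u hu']
  have hdis : Disjoint ({x} : Finset V) ((Bl s x (2 * R)).erase x) := by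
    rw [disjoint_singleton_left]
    exact notMem_erase x _
  have hAB := pb_indep _ _ _ _ hDA hDB hdis
  have hBn : 1 / 2 ≤ pb (fun w : V → Tg m => ¬ ∃ u ∈ (Bl s x (2 * R)).erase x, w u ∈ S0) := by
    rw [pb_not]
    linarith
  have hmono : pb (fun w : V → Tg m => w x ∈ ({t0} : Finset (Tg m)) ∧ ¬ ∃ u ∈ (Bl s x (2 * R)).erase x, w u ∈ S0) ≤
      pb (fun w : V → Tg m => GoodAt s R m w a x b) := by
    refine pb_mono _ _ (fun w h => ?_)
    obtain ⟨h1, h2⟩ := h
    rw [mem_singleton] at h1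
    refine ⟨?_, ?_, ?_, ?_⟩
    · rw [h1]
    · rw [h1]
      exact hα
    · rw [h1]
      exact hβ
    · intro u hu' hux h3
      apply h2
      refine ⟨u, mem_erase.2 ⟨hux, hu'⟩, ?_⟩
      rw [hS0, mem_filter]
      exact ⟨mem_univ _, h3⟩
  rw [hAB, hA] at hmono
  refine le_trans ?_ hmono
  have h1 : (0 : ℝ) ≤ 1 / (16 * m) := by positivity
  calc 1 / (32 * (m : ℝ)) = 1 / (16 * m) * (1 / 2) := by
        field_simp
        norm_num
    _ ≤ _ := mul_le_mul_of_nonneg_left hBn h1

/-- R5. `α`, `β` half-edges at `x` leading to `a`, `b` (`hv_adj`). `A w : w x = (0, (α, β))` has probability `1 / (16 m)` (`pb_coord`) and depends on `{x}`; `B w : ∀ u ∈ (Bl s x (2R)).erase x, (w u).1 ≠ 0` depends on the ball without `x`, and `¬ B` has probability at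
most `5^(2R) * (1/m) = 1/2` (`pb_union`, `pb_coord`, `ball_card`). `A ∧ B` implies `GoodAt` (`pb_mono`, `pb_indep`): at least `1 / (32 m) = 1 / (64 * 5^(2R))`. -/
theorem good_prob (s : Bool → Equiv.Perm V) (R : ℕ) (a x b : V) (ha : adj s x a) (hb : adj s x b) :
    1 / (64 * (5 : ℝ) ^ (2 * R)) ≤ pb (fun w : V → Tg (2 * 5 ^ (2 * R)) => GoodAt s R (2 * 5 ^ (2 * R)) w a x b) := by
  have h := good_prob_aux s R (2 * 5 ^ (2 * R)) (by positivity) le_rfl a x b ha hb
  refine le_trans (le_of_eq ?_) h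
  push_cast
  ring
-- END good_prob

-- BEGIN far_sub
/-- R6. Strong induction on `|A|`: for `v ∈ A` apply it to `A \ Bl s v r` (`ball_card`), and add `v` (`ball_symm`). -/
theorem far_sub (s : Bool → Equiv.Perm V) (r : ℕ) (A : Finset V) :
    ∃ J ⊆ A, A.card ≤ 5 ^ r * J.card ∧ ∀ u ∈ J, ∀ v ∈ J, u ≠ v → v ∉ Bl s u r := by
  induction A using Finset.strongInduction with
  | H A ih =>
    rcases A.eq_empty_or_nonempty with h0 | ⟨v, hv⟩
    · refine ⟨∅, empty_subset _, ?_, ?_⟩
      · rw [h0]; simp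
      · intro u hu
        exact absurd hu (notMem_empty _)
    · have hss : A \ Bl s v r ⊂ A := by
        refine (Finset.ssubset_iff_of_subset sdiff_subset).2 ⟨v, hv, ?_⟩
        rw [mem_sdiff]
        exact fun h => h.2 (mem_self s v r)
      obtain ⟨J, hJ, hc, hp⟩ := ih _ hss
      have hvJ : v ∉ J := fun h => (mem_sdiff.1 (hJ h)).2 (mem_self s v r)
      refine ⟨insert v J, ?_, ?_, ?_⟩
      · intro u hu
        rcases mem_insert.1 hu with rfl | hu
        · exact hv
        · exact (mem_sdiff.1 (hJ hu)).1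
      · rw [card_insert_of_notMem hvJ]
        have h1 : A.card ≤ (A \ Bl s v r).card + (Bl s v r).card := by
          have h2 : A ⊆ (A \ Bl s v r) ∪ Bl s v r := by
            intro x hx
            by_cases h : x ∈ Bl s v r
            · exact mem_union_right _ h
            · exact mem_union_left _ (mem_sdiff.2 ⟨hx, h⟩)
          exact (card_le_card h2).trans (card_union_le _ _)
        have h3 := ball_card s v r
        rw [Nat.mul_add, Nat.mul_one]
        omega
      · intro u hu w hw hne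
        rcases mem_insert.1 hu with h1 | h1
        · rcases mem_insert.1 hw with h2 | h2
          · exact absurd (h1.trans h2.symm) hne
          · rw [h1]
            exact (mem_sdiff.1 (hJ h2)).2
        · rcases mem_insert.1 hw with h2 | h2
          · rw [h2]
            intro h
            exact (mem_sdiff.1 (hJ h1)).2 (ball_symm s u v r h)
          · exact hp u h1 w h2 hne
-- END far_sub

-- BEGIN bad_prob
private theorem bad_prob_dep (s : Bool → Equiv.Perm V) (R m : ℕ) (a x b : V) :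
    Dep (fun w : V → Tg m => GoodAt s R m w a x b) (Bl s x (2 * R)) := by
  intro w w' h
  have hx : w x = w' x := h x (mem_self s x (2 * R))
  show GoodAt s R m w a x b ↔ GoodAt s R m w' a x b
  unfold GoodAt
  rw [hx]
  refine and_congr_right (fun _ => and_congr_right (fun _ => and_congr_right (fun _ => ?_)))
  refine forall₂_congr (fun u hu => ?_)
  rw [h u hu]

open Classical in
/-- R7. `S` from `hf.near`; `A` = the vertices `f (j + 1)`, `j + 2 < k`, not in `S`: at least `k - 2 - 5^(2R) ≥ t * 5^(4R)` of them (`hf.inj`), so `far_sub` with `r = 4R` gives `J` with at least `t` elements, pairwise `v ∉ Bl s u (4R)`, so the balls of radius `2R` are disjoint.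
For `x = f (j + 1) ∈ J` (choose `j`) let `E x w = GoodAt .. (f j) x (f (j + 2))`, which depends on `Bl s x (2R)` (contains `x`), `pb (E x) ≥ 1/(64 * 5^(2R))` (`good_prob`, `hf.adj`, `adj_symm`). `¬ Hit` implies `∀ x ∈ J, ¬ E x` (`x ∉ S`, so `x` is in no `Bl s (zc Z) (2R)`). `pb_mono`, `pb_many`,
`(1-p)^|J| ≤ (1-p)^t`. -/
theorem bad_prob (s : Bool → Equiv.Perm V) (R K : ℕ) (zc : Finset V → V) (k t : ℕ) (f : Fin k → V) (hf : Pth s R K zc k f)
    (ht : t * 5 ^ (4 * R) + 5 ^ (2 * R) + 2 ≤ k) :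
    pb (fun w : V → Tg (2 * 5 ^ (2 * R)) => ¬ Hit s R K (2 * 5 ^ (2 * R)) zc k f w) ≤ (1 - 1 / (64 * (5 : ℝ) ^ (2 * R))) ^ t := by
  obtain ⟨S, hSc, hS⟩ := hf.near
  have hmpos : 0 < 2 * 5 ^ (2 * R) := by positivity
  have hne : Nonempty (Tg (2 * 5 ^ (2 * R))) := ⟨(⟨0, hmpos⟩, ((true, true), (true, true)))⟩
  have hpp : (0 : ℝ) < 64 * 5 ^ (2 * R) := by positivity
  have h5 : (1 : ℝ) ≤ 5 ^ (2 * R) := one_le_pow₀ (by norm_num)
  have hp0 : (0 : ℝ) ≤ 1 / (64 * (5 : ℝ) ^ (2 * R)) := by positivity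
  have hp1 : 1 / (64 * (5 : ℝ) ^ (2 * R)) ≤ 1 := by
    rw [div_le_one hpp]
    linarith
  -- the inner vertices
  let g : Fin (k - 2) → V := fun j => f ⟨j + 1, by omega⟩
  have hg : Function.Injective g := by
    intro i j hij
    have h1 := hf.inj hij
    have h2 : (i : ℕ) + 1 = j + 1 := congrArg Fin.val h1
    exact Fin.ext (by omega)
  obtain ⟨J, hJA, hJc, hJf⟩ := far_sub s (4 * R) (univ.image g \ S)
  have htJ : t ≤ J.card := by
    have h1 : (univ.image g).card = k - 2 := by
      rw [card_image_of_injective _ hg, card_univ, Fintype.card_fin]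
    have h2 := le_card_sdiff S (univ.image g)
    rw [h1] at h2
    have h3 : t * 5 ^ (4 * R) ≤ 5 ^ (4 * R) * J.card := by omega
    rw [mul_comm] at h3
    exact Nat.le_of_mul_le_mul_left h3 (by positivity)
  have hch : ∀ x : V, ∃ ab : V × V, x ∈ J → adj s x ab.1 ∧ adj s x ab.2 ∧
      ∀ w : V → Tg (2 * 5 ^ (2 * R)), GoodAt s R (2 * 5 ^ (2 * R)) w ab.1 x ab.2 →
        Hit s R K (2 * 5 ^ (2 * R)) zc k f w := by
    intro x
    by_cases hx : x ∈ J
    · have h1 := hJA hx
      rw [mem_sdiff, mem_image] at h1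
      obtain ⟨⟨j, -, hj⟩, hxS⟩ := h1
      have hjk : (j : ℕ) + 2 < k := by omega
      refine ⟨(f ⟨j, by omega⟩, f ⟨j + 2, hjk⟩), fun _ => ⟨?_, ?_, ?_⟩⟩
      · rw [adj_symm, ← hj]
        exact hf.adj j (by omega)
      · rw [← hj]
        exact hf.adj (j + 1) hjk
      · intro w hw
        refine ⟨j, hjk, ?_, ?_⟩
        · intro Z hZ hmem
          apply hxS
          rw [← hj]
          exact hS _ Z hZ hmem
        · rw [← hj] at hw
          exact hw
    · exact ⟨(x, x), fun h => absurd h hx⟩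
  choose ab hab using hch
  have hmono : pb (fun w : V → Tg (2 * 5 ^ (2 * R)) => ¬ Hit s R K (2 * 5 ^ (2 * R)) zc k f w) ≤
      pb (fun w : V → Tg (2 * 5 ^ (2 * R)) => ∀ x ∈ J, ¬ GoodAt s R (2 * 5 ^ (2 * R)) w (ab x).1 x (ab x).2) :=
    pb_mono _ _ (fun w h x hx hgood => h ((hab x hx).2.2 w hgood))
  have hmany := pb_many J (fun x => Bl s x (2 * R))
    (fun x w => GoodAt s R (2 * 5 ^ (2 * R)) w (ab x).1 x (ab x).2)
    (fun x _ => bad_prob_dep s R _ _ _ _) ?_ (1 / (64 * (5 : ℝ) ^ (2 * R))) hp0 hp1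
    (fun x hx => good_prob s R _ _ _ (hab x hx).1 (hab x hx).2.1)
  · refine hmono.trans (hmany.trans ?_)
    exact pow_le_pow_of_le_one (by linarith) (by linarith) htJ
  · intro u hu v hv huv
    rw [disjoint_left]
    intro y hy1 hy2
    apply hJf u hu v hv huv
    have h1 := ball_trans s u y v (2 * R) (2 * R) hy1 (ball_symm s v y (2 * R) hy2)
    have h2 : 2 * R + 2 * R = 4 * R := by ring
    rw [h2] at h1
    exact h1
-- END bad_prob

-- BEGIN lll_sel
private theorem lll_sel_inst {Ω : Type} (i1 i2 : Fintype Ω) (A : Ω → Prop) (d1 d2 : DecidablePred A) :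
    (@Finset.filter Ω A d1 (@univ Ω i1)).card = (@Finset.filter Ω A d2 (@univ Ω i2)).card ∧
      @Fintype.card Ω i1 = @Fintype.card Ω i2 := by
  obtain rfl : i1 = i2 := Subsingleton.elim _ _
  obtain rfl : d1 = d2 := Subsingleton.elim _ _
  exact ⟨rfl, rfl⟩

private theorem lll_sel_pb {V T : Type} [Fintype V] [DecidableEq V] [Fintype T] [Nonempty T]
    (A : (V → T) → Prop) [DecidablePred A] (c : ℝ) (h : pb A ≤ c) :
    ((univ.filter A).card : ℝ) ≤ c * (Fintype.card (V → T) : ℝ) := by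
  have hN : ∀ i : Fintype (V → T), (0 : ℝ) < (@Fintype.card (V → T) i : ℝ) := fun i => by
    exact_mod_cast @Fintype.card_pos _ i inferInstance
  unfold pb at h
  rw [div_le_iff₀ (hN _)] at h
  refine le_trans (le_of_eq ?_) (h.trans (le_of_eq ?_))
  · exact congrArg Nat.cast (lll_sel_inst _ _ A _ _).1
  · exact congrArg (fun z : ℕ => c * (z : ℝ)) (lll_sel_inst _ _ A inferInstance inferInstance).2

private theorem lll_sel_dep (s : Bool → Equiv.Perm V) (R K m : ℕ) (zc : Finset V → V) (k : ℕ) (f : Fin k → V) :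
    Dep (fun w : V → Tg m => Hit s R K m zc k f w) ((univ : Finset (Fin k)).biUnion (fun j => Bl s (f j) (2 * R))) := by
  intro w w' h
  unfold Hit
  refine exists_congr (fun j => exists_congr (fun hj => and_congr_right (fun _ => ?_)))
  refine bad_prob_dep s R m _ _ _ w w' (fun v hv => h v ?_)
  exact mem_biUnion.2 ⟨_, mem_univ _, hv⟩

open Classical in
private theorem lll_sel_deg (s : Bool → Equiv.Perm V) (R k Q : ℕ) (Fm : Finset (Fin k → V))
    (hQ : ∀ v, (Fm.filter (fun f => ∃ j, f j = v)).card ≤ Q) (f : Fin k → V) :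
    (Fm.filter (fun f' => ¬ Disjoint ((univ : Finset (Fin k)).biUnion (fun j => Bl s (f j) (2 * R)))
      ((univ : Finset (Fin k)).biUnion (fun j => Bl s (f' j) (2 * R))))).card ≤ k * 5 ^ (4 * R) * Q := by
  have h1 : Fm.filter (fun f' => ¬ Disjoint ((univ : Finset (Fin k)).biUnion (fun j => Bl s (f j) (2 * R)))
      ((univ : Finset (Fin k)).biUnion (fun j => Bl s (f' j) (2 * R)))) ⊆
      ((univ : Finset (Fin k)).biUnion (fun j => Bl s (f j) (4 * R))).biUnion
        (fun v => Fm.filter (fun f' => ∃ j, f' j = v)) := by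
    intro f' hf'
    rw [mem_filter, not_disjoint_iff] at hf'
    obtain ⟨hF, y, hy1, hy2⟩ := hf'
    obtain ⟨i, -, hi⟩ := mem_biUnion.1 hy1
    obtain ⟨j, -, hj⟩ := mem_biUnion.1 hy2
    refine mem_biUnion.2 ⟨f' j, mem_biUnion.2 ⟨i, mem_univ i, ?_⟩, mem_filter.2 ⟨hF, j, rfl⟩⟩
    have h2 := ball_trans s (f i) y (f' j) (2 * R) (2 * R) hi (ball_symm s (f' j) y (2 * R) hj)
    have h3 : 2 * R + 2 * R = 4 * R := by ring
    rw [h3] at h2
    exact h2
  have h4 : ((univ : Finset (Fin k)).biUnion (fun j => Bl s (f j) (4 * R))).card ≤ k * 5 ^ (4 * R) := by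
    refine (card_biUnion_le_card_mul _ _ (5 ^ (4 * R)) (fun j _ => ball_card s (f j) (4 * R))).trans ?_
    rw [card_univ, Fintype.card_fin]
  refine (card_le_card h1).trans ((card_biUnion_le_card_mul _ _ Q (fun v _ => hQ v)).trans ?_)
  exact Nat.mul_le_mul_right Q h4

open Classical in
/-- R8. `Pool.Agent.SparseOrd.lll` for the index type `{f // f ∈ Fm}` (`Fm` a finite set of paths), `E f w = ¬ Hit f w`, `F f` = the union of the balls `Bl s (f j) (2R)` (`Hit` depends only on them). `F f ∩ F f' ≠ ∅` gives `j`, `j'` with `f' j' ∈ Bl s (f j) (4R)`: at most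
`d = k * 5^(4R) * Q` such `f'` (`hQ`; `ball_card`). `bad_prob` and `hp` (`1 ≤ d`: `1 ≤ Q`, `1 ≤ k` by `ht`). -/
theorem lll_sel (s : Bool → Equiv.Perm V) (R K : ℕ) (zc : Finset V → V) (k t Q : ℕ) (Fm : Finset (Fin k → V))
    (hf : ∀ f ∈ Fm, Pth s R K zc k f) (hQ1 : 1 ≤ Q) (hQ : ∀ v, (Fm.filter (fun f => ∃ j, f j = v)).card ≤ Q)
    (ht : t * 5 ^ (4 * R) + 5 ^ (2 * R) + 2 ≤ k)
    (hp : 4 * ((k : ℝ) * 5 ^ (4 * R) * Q) * (1 - 1 / (64 * (5 : ℝ) ^ (2 * R))) ^ t ≤ 1) :
    ∃ w : V → Tg (2 * 5 ^ (2 * R)), ∀ f ∈ Fm, Hit s R K (2 * 5 ^ (2 * R)) zc k f w := by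
  have hmpos : 0 < 2 * 5 ^ (2 * R) := by positivity
  have hne : Nonempty (Tg (2 * 5 ^ (2 * R))) := ⟨(⟨0, hmpos⟩, ((true, true), (true, true)))⟩
  have hk1 : 1 ≤ k := by omega
  have hd1 : 1 ≤ k * 5 ^ (4 * R) * Q :=
    Nat.mul_pos (Nat.mul_pos hk1 (by positivity)) hQ1
  have hdeg : ∀ f : {f : Fin k → V // f ∈ Fm},
      ((univ : Finset {f : Fin k → V // f ∈ Fm}).filter (fun f' =>
        ¬ Disjoint ((univ : Finset (Fin k)).biUnion (fun j => Bl s (f.1 j) (2 * R)))
          ((univ : Finset (Fin k)).biUnion (fun j => Bl s (f'.1 j) (2 * R))))).card ≤ k * 5 ^ (4 * R) * Q := by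
    intro f
    refine le_trans ?_ (lll_sel_deg s R k Q Fm hQ f.1)
    refine card_le_card_of_injOn Subtype.val ?_ (fun a _ b _ h => Subtype.ext h)
    intro f' hf'
    have h1 := (mem_filter.1 (mem_coe.1 hf')).2
    exact mem_coe.2 (mem_filter.2 ⟨f'.2, h1⟩)
  have key := Pool.Agent.SparseOrd.lll (ι := {f : Fin k → V // f ∈ Fm}) (T := Tg (2 * 5 ^ (2 * R)))
    (fun f => (univ : Finset (Fin k)).biUnion (fun j => Bl s (f.1 j) (2 * R)))
    (fun f w => ¬ Hit s R K (2 * 5 ^ (2 * R)) zc k f.1 w)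
    (fun f w w' h => not_congr (lll_sel_dep s R K _ zc k f.1 w w' h)) (k * 5 ^ (4 * R) * Q) hd1 hdeg
    (by
      intro f
      have h1 := lll_sel_pb _ _ (bad_prob s R K zc k t f.1 (hf f.1 f.2) ht)
      have hN : (0 : ℝ) ≤ Fintype.card (V → Tg (2 * 5 ^ (2 * R))) := Nat.cast_nonneg _
      have hd0 : (0 : ℝ) ≤ 4 * ((k : ℝ) * 5 ^ (4 * R) * Q) := by positivity
      have h2 := mul_le_mul_of_nonneg_left h1 hd0
      have h3 := mul_le_mul_of_nonneg_right hp hN
      rw [one_mul] at h3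
      have h4 := h2.trans ((le_of_eq (mul_assoc _ _ _).symm).trans h3)
      have h5 : ((4 * (k * 5 ^ (4 * R) * Q) *
          (univ.filter (fun w : V → Tg (2 * 5 ^ (2 * R)) => ¬ Hit s R K (2 * 5 ^ (2 * R)) zc k f.1 w)).card : ℕ) : ℝ) ≤
          (Fintype.card (V → Tg (2 * 5 ^ (2 * R))) : ℝ) := by
        push_cast
        exact h4
      have h6 : 4 * (k * 5 ^ (4 * R) * Q) *
          (univ.filter (fun w : V → Tg (2 * 5 ^ (2 * R)) => ¬ Hit s R K (2 * 5 ^ (2 * R)) zc k f.1 w)).card ≤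
          Fintype.card (V → Tg (2 * 5 ^ (2 * R))) := by exact_mod_cast h5
      exact le_trans (le_of_eq (congrArg (fun z : ℕ => 4 * (k * 5 ^ (4 * R) * Q) * z)
        (lll_sel_inst _ _ _ _ _).1)) h6)
  obtain ⟨w, hw⟩ := key
  exact ⟨w, fun f hF => not_not.1 (hw ⟨f, hF⟩)⟩
-- END lll_sel

-- BEGIN specials
private theorem specials_sep (s : Bool → Equiv.Perm V) (R : ℕ) (z z' : V) (h : z' ∉ Bl s z (2 * R)) :
    Disjoint (Bl s z R) (Bl s z' R) := by
  rw [Finset.disjoint_left]
  intro x hx hx'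
  apply h
  have h1 := ball_trans s z x z' R R hx (ball_symm s z' x R hx')
  rwa [← two_mul] at h1

open Classical in
/-- R9. `zc Z` = some element of `Z`. `Fm` = the `f` with `f j = w.getVert j` for an odd cycle `w` with a common colour and `K < w.length` (`cyc_path`; `k ≤ w.length`); at most `3Q` of them contain `v` (`fam_cov`); `lll_sel` with `3Q + 1` gives `w₀`. `Sp` = the `zc Z`, `Z ∈ Zs s K`, and the `x` with `x ∉ Bl s (zc Z) (2R)` for
all `Z ∈ Zs s K`, `(w₀ x).1 = 0`, `(w₀ u).1 ≠ 0` for all `u ≠ x` in `Bl s x (2R)`, `(w₀ x).2.1 ≠ (w₀ x).2.2`. Pairwise `z' ∉ Bl s z (2R)` (`zs_far` with `2R ≤ K`), so the balls of radius `R` are disjoint (`ball_symm`, `ball_trans`). `N z = Z` if `z = zc Z` (`zs_dg`; `Z` is determined by `z`: `zs_disj`), otherwise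
`N x = {hv s x (w₀ x).2.1, hv s x (w₀ x).2.2}` (`hv_inj`, `hv_dg`: `dg = 2`). Odd cycle `w` with a common colour: if its length is at most `K`, its vertex set `Z` is in `Zs s K` (`cyc_mem`), `z = zc Z` (`nb_two`: its neighbours on `w` are in `Z`); otherwise `Hit` gives `x = w.getVert (j + 1)` and its neighbours on `w` are
`w.getVert j`, `w.getVert (j + 2)` (`cyc_nb`), which are different, so the two half-edges are different. -/
theorem specials (s : Bool → Equiv.Perm V) (hs : Ham s) (G : SimpleGraph V) (hG : ∀ u v, G.Adj u v ↔ adj s u v)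
    (L : V → Finset ℕ) (hL : ∀ v, (L v).card = 3) (K R k t Q : ℕ) (hS : Sparse s (3 * K)) (hR : 1 ≤ R) (hK : 8 * R ≤ K)
    (hk : k ≤ K / 2) (hQ : ∀ c v, (OddPath G L c k v).ncard ≤ Q) (ht : t * 5 ^ (4 * R) + 5 ^ (2 * R) + 2 ≤ k)
    (hp : 4 * ((k : ℝ) * 5 ^ (4 * R) * (3 * Q + 1)) * (1 - 1 / (64 * (5 : ℝ) ^ (2 * R))) ^ t ≤ 1) :
    ∃ (Sp : Finset V) (N : V → Finset V), Sep s R Sp ∧ (∀ z ∈ Sp, dg s z (N z) = 2) ∧
      ∀ (c : ℕ) (v : V) (w : G.Walk v v), w.IsCycle → Odd w.length → (∀ u ∈ w.support, c ∈ L u) →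
        ∃ z ∈ Sp, z ∈ w.support ∧ ∀ x, s(x, z) ∈ w.edges → x ∈ N z := by
  rcases isEmpty_or_nonempty V with hemp | hne
  · refine ⟨∅, fun _ => ∅, ?_, ?_, ?_⟩
    · intro z hz
      exact absurd hz (Finset.notMem_empty z)
    · intro z hz
      exact absurd hz (Finset.notMem_empty z)
    · intro c v
      exact hemp.elim v
  have hK2 : 2 ≤ K := by omega
  have hR1 : 2 * R ≤ K := by omega
  obtain ⟨zc, hz⟩ : ∃ zc : Finset V → V, ∀ Z ∈ Zs s K, zc Z ∈ Z := by
    refine ⟨fun Z => if h : Z.Nonempty then h.choose else Classical.arbitrary V, fun Z hZ => ?_⟩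
    have hne : Z.Nonempty := card_pos.1 (by have := ((zs_mem s K Z).1 hZ).1; omega)
    simp only [dif_pos hne]
    exact hne.choose_spec
  set Fm : Finset (Fin k → V) := univ.filter (fun f => ∃ (c : ℕ) (a : V) (w : G.Walk a a), w.IsCycle ∧
    Odd w.length ∧ K < w.length ∧ (∀ u ∈ w.support, c ∈ L u) ∧ ∀ j : Fin k, f j = w.getVert j) with hFm
  have hf : ∀ f ∈ Fm, Pth s R K zc k f := by
    intro f hf
    obtain ⟨c, a, w, hw, -, hl, -, hj⟩ := (mem_filter.1 hf).2
    have h1 : f = fun j : Fin k => w.getVert j := funext hj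
    rw [h1]
    exact cyc_path s hs G hG K R k hS hK hk zc hz a w hw hl
  have hcov : ∀ v, (Fm.filter (fun f => ∃ j, f j = v)).card ≤ 3 * Q + 1 := by
    intro v
    refine (card_le_card ?_).trans ((fam_cov G L hL k Q hQ v).trans (by omega))
    intro f hf'
    obtain ⟨h1, h2⟩ := mem_filter.1 hf'
    obtain ⟨c, a, w, hw, ho, hl, hc, hj⟩ := (mem_filter.1 h1).2
    exact mem_filter.2 ⟨mem_univ _, c, h2, a, w, hw, ho, by omega, hc, hj⟩
  obtain ⟨w₀, hw₀⟩ := lll_sel s R K zc k t (3 * Q + 1) Fm hf (by omega) hcov ht (by push_cast; exact hp)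
  set spc : V → Prop := fun x => (∀ Z ∈ Zs s K, x ∉ Bl s (zc Z) (2 * R)) ∧ ((w₀ x).1 : ℕ) = 0 ∧
    (∀ u ∈ Bl s x (2 * R), u ≠ x → ((w₀ u).1 : ℕ) ≠ 0) ∧ (w₀ x).2.1 ≠ (w₀ x).2.2 with hspc
  set Sp : Finset V := univ.filter (fun x => (∃ Z ∈ Zs s K, zc Z = x) ∨ spc x) with hSp
  set N : V → Finset V := fun x => if h : ∃ Z ∈ Zs s K, zc Z = x then h.choose else
    {hv s x (w₀ x).2.1, hv s x (w₀ x).2.2} with hN
  have hNz : ∀ Z ∈ Zs s K, N (zc Z) = Z := by
    intro Z hZ
    have h : ∃ Z' ∈ Zs s K, zc Z' = zc Z := ⟨Z, hZ, rfl⟩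
    have h1 : N (zc Z) = h.choose := by
      simp only [hN]
      rw [dif_pos h]
    rw [h1]
    obtain ⟨h2, h3⟩ := h.choose_spec
    by_contra hcon
    have h4 := zs_disj s K hS _ _ h2 hZ hcon
    have h5 := hz _ h2
    rw [h3] at h5
    exact (Finset.disjoint_left.1 h4) h5 (hz Z hZ)
  have hNx : ∀ x, spc x → N x = {hv s x (w₀ x).2.1, hv s x (w₀ x).2.2} := by
    intro x hx
    have h : ¬ ∃ Z ∈ Zs s K, zc Z = x := by
      rintro ⟨Z, hZ, rfl⟩
      exact hx.1 Z hZ (mem_self s _ _)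
    simp only [hN]
    rw [dif_neg h]
  refine ⟨Sp, N, ?_, ?_, ?_⟩
  · intro z hzS z' hzS' hne'
    rcases (mem_filter.1 hzS).2 with ⟨Z, hZ, rfl⟩ | h1
    · rcases (mem_filter.1 hzS').2 with ⟨Z', hZ', rfl⟩ | h2
      · apply specials_sep
        intro h3
        have h4 : Z ≠ Z' := fun h => hne' (by rw [h])
        exact zs_far s hs K hS Z Z' hZ hZ' h4 _ _ (hz Z hZ) (hz Z' hZ') (ball_mono s _ _ _ hR1 h3)
      · exact specials_sep s R _ _ (h2.1 Z hZ)
    · rcases (mem_filter.1 hzS').2 with ⟨Z', hZ', rfl⟩ | h2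
      · exact (specials_sep s R _ _ (h1.1 Z' hZ')).symm
      · apply specials_sep
        intro h3
        exact h1.2.2.1 z' h3 (Ne.symm hne') h2.2.1
  · intro z hzS
    rcases (mem_filter.1 hzS).2 with ⟨Z, hZ, rfl⟩ | h1
    · rw [hNz Z hZ]
      exact zs_dg s hs K hS Z hZ _ (hz Z hZ)
    · rw [hNx z h1, hv_dg]
      have hinj := hv_inj s hs K R hK2 hR zc hz z h1.1
      have h2 : (univ : Finset (Bool × Bool)).filter (fun h => hv s z h ∈
          ({hv s z (w₀ z).2.1, hv s z (w₀ z).2.2} : Finset V)) = {(w₀ z).2.1, (w₀ z).2.2} := by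
        ext h
        simp only [mem_filter, mem_univ, true_and, mem_insert, mem_singleton]
        constructor
        · rintro (h3 | h3)
          · exact Or.inl (hinj h3)
          · exact Or.inr (hinj h3)
        · rintro (h3 | h3)
          · exact Or.inl (by rw [h3])
          · exact Or.inr (by rw [h3])
      rw [h2, card_pair h1.2.2.2]
  · intro c v w hw ho hc
    by_cases hl : w.length ≤ K
    · have hZ := cyc_mem s hs G hG K hS v w hw hl
      refine ⟨zc w.support.toFinset, mem_filter.2 ⟨mem_univ _, Or.inl ⟨_, hZ, rfl⟩⟩, ?_, ?_⟩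
      · exact List.mem_toFinset.1 (hz _ hZ)
      · intro x hx
        rw [hNz _ hZ, List.mem_toFinset]
        exact ((nb_two G v w hw _ (List.mem_toFinset.1 (hz _ hZ))).2 x hx).2
    · push Not at hl
      have hfm : (fun j : Fin k => w.getVert j) ∈ Fm :=
        mem_filter.2 ⟨mem_univ _, c, v, w, hw, ho, hl, hc, fun j => rfl⟩
      obtain ⟨j, hj, hfar, hact, ha, hb, hiso⟩ := hw₀ _ hfm
      simp only at hfar hact ha hb hiso
      have hjl : j + 2 < w.length := by omega
      have hinj := (hf _ hfm).inj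
      have hab : w.getVert j ≠ w.getVert (j + 2) := by
        intro h
        have h1 : (⟨j, by omega⟩ : Fin k) = ⟨j + 2, hj⟩ := hinj h
        rw [Fin.mk.injEq] at h1
        omega
      have hne2 : (w₀ (w.getVert (j + 1))).2.1 ≠ (w₀ (w.getVert (j + 1))).2.2 := by
        intro h
        rw [h] at ha
        exact hab (ha.symm.trans hb)
      have hsp : spc (w.getVert (j + 1)) := ⟨hfar, hact, hiso, hne2⟩
      refine ⟨w.getVert (j + 1), mem_filter.2 ⟨mem_univ _, Or.inr hsp⟩, w.getVert_mem_support _, ?_⟩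
      intro x hx
      rw [hNx _ hsp, ha, hb, mem_insert, mem_singleton]
      exact cyc_nb G v w hw j hjl x hx
-- END specials

end Hlc
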