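import Pool.Agent.Hlc.Ker
import Pool.Agent.Hlc.Cut
import Pool.Agent.Hlc.Lll

/-!
# Hlc DET: the deterministic theorem
-/

set_option autoImplicit false

namespace Hlc

open Finset

variable {V : Type} [Fintype V] [DecidableEq V]

-- BEGIN det3
/-- D1. `specials`, `orient` (`D`), `bbs`: a set of at most `2 < 3` out-neighbours; `hk` by `richardson`: an odd closed walk in `W` gives (`odd_cycle`, `G.Adj` from `adj`) an odd cycle with the common colour `c`, so a vertex `z ∈ Sp` on it all of whose
neighbours on the cycle are in `N z`, and `y ∈ N z` with `D y z`: contradiction. -/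
theorem det3 (s : Bool → Equiv.Perm V) (hs : Ham s) (G : SimpleGraph V) (hG : ∀ u v, G.Adj u v ↔ adj s u v)
    (L : V → Finset ℕ) (hL : ∀ v, (L v).card = 3) (q K R k t Q : ℕ) (hq : 1 ≤ q) (hR : 2 * q + 1 ≤ R) (hE : Expands s q)
    (hS : Sparse s (3 * K)) (hK : 8 * R ≤ K)
    (hk : k ≤ K / 2) (hQ : ∀ c v, (OddPath G L c k v).ncard ≤ Q) (ht : t * 5 ^ (4 * R) + 5 ^ (2 * R) + 2 ≤ k)
    (hp : 4 * ((k : ℝ) * 5 ^ (4 * R) * (3 * Q + 1)) * (1 - 1 / (64 * (5 : ℝ) ^ (2 * R))) ^ t ≤ 1) : LCol G L := by
  obtain ⟨Sp, N, hsep, hN, hcyc⟩ := specials s hs G hG L hL K R k t Q hS (by omega) hK hk hQ ht hp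
  obtain ⟨D, hD1, hD2, hD3, hD4⟩ := orient s hs q R hq hR hE Sp hsep N hN
  refine bbs G D L (fun u v huv => hD1 u v ((hG u v).1 huv)) ?_ ?_
  · intro u
    obtain ⟨S, hS1, hS2⟩ := hD3 u
    refine ⟨S, ?_, hS2⟩
    rw [hL u]
    omega
  · intro c W hW
    apply richardson
    intro l u hl hw
    obtain ⟨v, w, hwc, hwo, hws, hwd⟩ := odd_cycle G D (fun u v huv => (hG u v).2 (hD2 u v huv)) W l u hl hw
    obtain ⟨z, hz, hzw, hzN⟩ := hcyc c v w hwc hwo (fun x hx => hW x (hws x hx))
    obtain ⟨y, hy1, hy2⟩ := hwd z hzw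
    exact hD4 z hz y (hzN y hy1) hy2
-- END det3

-- BEGIN det
/-- D2. Choose `L' v ⊆ L v` with three elements (`exists_subset_card_eq`); `OddPath G L' c k v ⊆ OddPath G L c k v` (`Set.ncard_le_ncard`, `Set.toFinite`); `det3` for `L'`. -/
theorem det (s : Bool → Equiv.Perm V) (hs : Ham s) (G : SimpleGraph V) (hG : ∀ u v, G.Adj u v ↔ adj s u v)
    (L : V → Finset ℕ) (hL : ∀ v, 3 ≤ (L v).card) (q K R k t Q : ℕ) (hq : 1 ≤ q) (hR : 2 * q + 1 ≤ R) (hE : Expands s q)
    (hS : Sparse s (3 * K)) (hK : 8 * R ≤ K)
    (hk : k ≤ K / 2) (hQ : ∀ c v, (OddPath G L c k v).ncard ≤ Q) (ht : t * 5 ^ (4 * R) + 5 ^ (2 * R) + 2 ≤ k)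
    (hp : 4 * ((k : ℝ) * 5 ^ (4 * R) * (3 * Q + 1)) * (1 - 1 / (64 * (5 : ℝ) ^ (2 * R))) ^ t ≤ 1) : LCol G L := by
  have h1 : ∀ v, ∃ S ⊆ L v, S.card = 3 := fun v => Finset.exists_subset_card_eq (hL v)
  choose L' hL1 hL2 using h1
  have h2 : LCol G L' := by
    refine det3 s hs G hG L' hL2 q K R k t Q hq hR hE hS hK hk ?_ ht hp
    intro c v
    refine (Set.ncard_le_ncard ?_ (Set.toFinite _)).trans (hQ c v)
    rintro f ⟨hj, a, w, hw, ho, hl, hc, hf⟩
    exact ⟨hj, a, w, hw, ho, hl, fun u hu => hL1 u (hc u hu), hf⟩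
  obtain ⟨c, hc1, hc2⟩ := h2
  exact ⟨c, fun v => hL1 v (hc1 v), hc2⟩
-- END det

-- BEGIN cyc_fin
/-- D3. The length is at most `|V|` (`cyc_card`); walks of given length are finite (`SimpleGraph.fintypeSetWalkLength`, a finite union). -/
theorem cyc_fin (G : SimpleGraph V) (v : V) : {w : G.Walk v v | w.IsCycle}.Finite := by
  classical
  have h : {w : G.Walk v v | w.IsCycle} ⊆ ⋃ n ∈ (Finset.range (Fintype.card V + 1) : Set ℕ), {w : G.Walk v v | w.length = n} := by
    intro w hw
    have h1 : w.length ≤ Fintype.card V := by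
      have h2 : w.IsCycle := hw
      have h3 := h2.support_nodup.length_le_card
      rw [List.length_tail, SimpleGraph.Walk.length_support] at h3
      omega
    simp only [Set.mem_iUnion]
    exact ⟨w.length, by simpa using Nat.lt_succ_of_le h1, rfl⟩
  apply Set.Finite.subset _ h
  apply Set.Finite.biUnion (Finset.finite_toSet _)
  intro n _
  exact Set.toFinite _
-- END cyc_fin

-- BEGIN path_cyc
/-- D4. Let `f ∈ OddPath G L c k v`, `f j = v`, with the cycle `w`; `w' = w.rotate` at `v` is in `OddCyc G L c v` (`IsCycle.rotate`, `support_rotate`, `length_rotate`), and `f i = w'.getVert ((i + (w'.length - j)) % w'.length)` (`j` is the first index with `w.getVert j = v`: `getVert_injOn'`; `rotate` is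
`dropUntil` followed by `takeUntil`). So the set is contained in the image of `Fin k × OddCyc G L c v` (finite: `cyc_fin`) under `(j, w') ↦ (fun i => w'.getVert ((i + (w'.length - j)) % w'.length))`. -/
theorem path_cyc (G : SimpleGraph V) (L : V → Finset ℕ) (c k : ℕ) (v : V) :
    (OddPath G L c k v).ncard ≤ k * (OddCyc G L c v).ncard := by
  have hfin : (OddCyc G L c v).Finite := (cyc_fin G v).subset (fun w hw => hw.1)
  set Φ : Fin k × G.Walk v v → (Fin k → V) := fun x i => x.2.getVert ((i + (x.2.length - x.1)) % x.2.length) with hΦ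
  have hsub : OddPath G L c k v ⊆ Φ '' ((Set.univ : Set (Fin k)) ×ˢ OddCyc G L c v) := by
    rintro f ⟨⟨j, hj⟩, a, w, hw, ho, hl, hc, hf⟩
    have hjk : (j : ℕ) < k := j.2
    have hjv : w.getVert j = v := by rw [← hf j]; exact hj
    have hv : v ∈ w.support := by rw [← hjv]; exact w.getVert_mem_support _
    have h3 := hw.three_le_length
    -- the first occurrence of `v` is at `j`
    have htl : (w.takeUntil v hv).length = j := by
      have h1 := w.getVert_length_takeUntil hv
      have h2 : ¬ (j : ℕ) < (w.takeUntil v hv).length := fun h => w.getVert_lt_length_takeUntil_ne hv h hjv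
      by_cases h4 : (w.takeUntil v hv).length = w.length
      · exfalso
        omega
      · have h5 : (w.takeUntil v hv).length ≤ w.length := w.length_takeUntil_le_length hv
        exact hw.getVert_injOn' (by simp only [Set.mem_ofPred_eq]; omega) (by simp only [Set.mem_ofPred_eq]; omega)
          (h1.trans hjv.symm)
    have hdl : (w.dropUntil v hv).length = w.length - j := by
      have h1 := congrArg SimpleGraph.Walk.length (w.take_spec hv)
      rw [SimpleGraph.Walk.length_append] at h1
      omega
    have hdrop : ∀ i, (w.dropUntil v hv).getVert i = w.getVert (j + i) := by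
      intro i
      have h1 := congrArg (fun p => p.getVert ((w.takeUntil v hv).length + i)) (w.take_spec hv)
      simp only [SimpleGraph.Walk.getVert_append] at h1
      rw [if_neg (by omega), Nat.add_sub_cancel_left, htl] at h1
      exact h1
    refine ⟨(j, w.rotate v hv), ⟨Set.mem_univ _, ?_, ?_, ?_⟩, ?_⟩
    · exact hw.rotate hv
    · rw [SimpleGraph.Walk.length_rotate]
      exact ho
    · intro u hu
      rw [SimpleGraph.Walk.mem_support_rotate_iff] at hu
      exact hc u hu
    · funext i
      simp only [hΦ]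
      rw [SimpleGraph.Walk.length_rotate, hf i]
      unfold SimpleGraph.Walk.rotate
      rw [SimpleGraph.Walk.getVert_append, hdl]
      have hi : (i : ℕ) < k := i.2
      by_cases hij : (j : ℕ) ≤ i
      · have h1 : ((i : ℕ) + (w.length - j)) % w.length = i - j := by
          have h2 : (i : ℕ) + (w.length - j) = (i - j) + w.length := by omega
          rw [h2, Nat.add_mod_right, Nat.mod_eq_of_lt (by omega)]
        rw [h1, if_pos (by omega), hdrop]
        congr 1
        omega
      · have h1 : ((i : ℕ) + (w.length - j)) % w.length = i + (w.length - j) := Nat.mod_eq_of_lt (by omega)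
        rw [h1, if_neg (by omega)]
        have h2 : (i : ℕ) + (w.length - j) - (w.length - j) = i := by omega
        rw [h2, SimpleGraph.Walk.getVert_takeUntil hv (by omega)]
  have hfin2 : ((Set.univ : Set (Fin k)) ×ˢ OddCyc G L c v).Finite := Set.finite_univ.prod hfin
  calc (OddPath G L c k v).ncard ≤ (Φ '' ((Set.univ : Set (Fin k)) ×ˢ OddCyc G L c v)).ncard :=
        Set.ncard_le_ncard hsub (hfin2.image Φ)
    _ ≤ ((Set.univ : Set (Fin k)) ×ˢ OddCyc G L c v).ncard := Set.ncard_image_le hfin2
    _ = k * (OddCyc G L c v).ncard := by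
        rw [Set.ncard_prod, Set.ncard_univ, Nat.card_eq_fintype_card, Fintype.card_fin]
-- END path_cyc

-- BEGIN reed_step
/-- D5. In `C = {x : c ∈ L x}` every vertex has at most two `G`-neighbours in `C`. Two paths `p`, `p'` in `C` from `x` to `v`, both not through `y`, `y ∈ C` adjacent to `x`, are equal: induction on `p` for all `x`, `y`: if `x = v` both are `nil`; otherwise
both start with the neighbour of `x` in `C` different from `y` (the next vertices `x₁`, `x₁'` are in `C`, different from `y`, so equal as `{y, x₁, x₁'}` has at most two elements), and the rests do not contain `x`. -/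
theorem reed_step (G : SimpleGraph V) (L : V → Finset ℕ) (c : ℕ)
    (h : ∀ v, c ∈ L v → {u | G.Adj v u ∧ c ∈ L u}.ncard ≤ 2) (v : V) :
    ∀ (x y : V) (p p' : G.Walk x v), p.IsPath → p'.IsPath → (∀ z ∈ p.support, c ∈ L z) → (∀ z ∈ p'.support, c ∈ L z) →
      G.Adj x y → c ∈ L y → y ∉ p.support → y ∉ p'.support → p = p' := by
  intro x y p
  induction p generalizing y with
  | nil =>
    intro p' _ hp' _ _ _ _ _ _
    exact (SimpleGraph.Walk.isPath_iff_nil.1 hp').eq_nil.symm
  | @cons a b w h1 q ih =>
    intro p' hp hp' hs hs' hxy hy hyp hyp'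
    cases p' with
    | nil => exact absurd (SimpleGraph.Walk.isPath_iff_nil.1 hp) SimpleGraph.Walk.not_nil_cons
    | @cons _ b' _ h2 q' =>
      have hb : b ∈ (SimpleGraph.Walk.cons h1 q).support := by simp
      have hb' : b' ∈ (SimpleGraph.Walk.cons h2 q').support := by simp
      have ha : a ∈ (SimpleGraph.Walk.cons h1 q).support := by simp
      have e : b = b' := by
        by_contra hne
        have h3 : ({y, b, b'} : Set V) ⊆ {u | G.Adj a u ∧ c ∈ L u} := by
          intro z hz
          rcases hz with rfl | rfl | rfl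
          · exact ⟨hxy, hy⟩
          · exact ⟨h1, hs _ hb⟩
          · exact ⟨h2, hs' _ hb'⟩
        have h4 : ({y, b, b'} : Set V).ncard = 3 :=
          Set.ncard_eq_three.2 ⟨y, b, b', fun e => hyp (e ▸ hb), fun e => hyp' (e ▸ hb'), hne, rfl⟩
        have h5 := Set.ncard_le_ncard h3 (Set.toFinite _)
        have h6 := h a (hs a ha)
        omega
      subst e
      have hq := (SimpleGraph.Walk.cons_isPath_iff h1 q).1 hp
      have hq' := (SimpleGraph.Walk.cons_isPath_iff h2 q').1 hp'
      have := ih a q' hq.1 hq'.1 (fun z hz => hs z (by simp [hz])) (fun z hz => hs' z (by simp [hz])) h1.symm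
        (hs a ha) hq.2 hq'.2
      rw [this]
-- END reed_step

-- BEGIN reed_two
theorem reed_two_three (G : SimpleGraph V) (L : V → Finset ℕ) (c : ℕ) (x a b d : V)
    (h : {u | G.Adj x u ∧ c ∈ L u}.ncard ≤ 2) (ha : G.Adj x a ∧ c ∈ L a) (hb : G.Adj x b ∧ c ∈ L b) (hd : G.Adj x d ∧ c ∈ L d)
    (hab : a ≠ b) (had : a ≠ d) : b = d := by
  by_contra hbd
  have h1 : ({a, b, d} : Set V) ⊆ {u | G.Adj x u ∧ c ∈ L u} := by
    intro u hu
    rw [Set.mem_insert_iff, Set.mem_insert_iff, Set.mem_singleton_iff] at hu
    rcases hu with rfl | rfl | rfl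
    · exact ha
    · exact hb
    · exact hd
  have h2 := Set.ncard_le_ncard h1 (Set.toFinite _)
  have h3 : ({a, b, d} : Set V).ncard = 3 := Set.ncard_eq_three.2 ⟨a, b, d, hab, had, hbd, rfl⟩
  omega

/-- D6. A cycle `w` from `v` is `cons h p`, `h : G.Adj v x`, `p` a path from `x` to `v`, `s(v, x) ∉ p.edges` (`cons_isCycle_iff`). `w ↦ x` is injective on `OddCyc G L c v`: let `cons h p`, `cons h p'` have the same `x`; `p = cons g r`, `p' = cons g' r'` (`x ≠ v`),
with second vertices `x₁, x₁' ≠ v` (otherwise the edge `s(v, x)` is used), so `x₁ = x₁'` as above, and `r`, `r'` are paths from `x₁` to `v` which do not contain `x`: `reed_step` with `y = x`. The image is contained in the neighbours `u` of `v` with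
`c ∈ L u`: at most `2` (if `c ∉ L v` there is no such walk). -/
theorem reed_two (G : SimpleGraph V) (L : V → Finset ℕ) (h : ∀ v, ∀ c ∈ L v, {u | G.Adj v u ∧ c ∈ L u}.ncard ≤ 2)
    (c : ℕ) (v : V) : (OddCyc G L c v).ncard ≤ 2 := by
  by_cases hcv : c ∈ L v
  · refine le_trans (Set.ncard_le_ncard_of_injOn (fun w : G.Walk v v => w.snd) ?_ ?_ (Set.toFinite _)) (h v c hcv)
    · rintro w ⟨hw, _, hs⟩
      cases w with
      | nil => exact absurd rfl hw.ne_nil
      | cons g p =>
        show G.Adj v (SimpleGraph.Walk.cons g p).snd ∧ c ∈ L (SimpleGraph.Walk.cons g p).snd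
        rw [SimpleGraph.Walk.snd_cons]
        exact ⟨g, hs _ (by simp)⟩
    · rintro w ⟨hw, _, hs⟩ w' ⟨hw', _, hs'⟩ heq
      cases w with
      | nil => exact absurd rfl hw.ne_nil
      | @cons _ x _ g p =>
        cases w' with
        | nil => exact absurd rfl hw'.ne_nil
        | @cons _ x' _ g' p' =>
          have hx : x = x' := by
            have h0 : (SimpleGraph.Walk.cons g p).snd = (SimpleGraph.Walk.cons g' p').snd := heq
            rw [SimpleGraph.Walk.snd_cons, SimpleGraph.Walk.snd_cons] at h0
            exact h0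
          subst hx
          rw [SimpleGraph.Walk.cons_isCycle_iff] at hw hw'
          obtain ⟨hp, he⟩ := hw
          obtain ⟨hp', he'⟩ := hw'
          cases p with
          | nil => exact absurd g (G.loopless.irrefl _)
          | @cons _ x₁ _ g₁ r =>
            cases p' with
            | nil => exact absurd g (G.loopless.irrefl _)
            | @cons _ x₂ _ g₂ r' =>
              rw [SimpleGraph.Walk.cons_isPath_iff] at hp hp'
              have hcx : c ∈ L x := hs x (by simp)
              have hc1 : c ∈ L x₁ := hs x₁ (by simp)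
              have hc2 : c ∈ L x₂ := hs' x₂ (by simp)
              have hv1 : v ≠ x₁ := by
                rintro rfl
                apply he
                rw [SimpleGraph.Walk.edges_cons, Sym2.eq_swap]
                exact List.mem_cons_self
              have hv2 : v ≠ x₂ := by
                rintro rfl
                apply he'
                rw [SimpleGraph.Walk.edges_cons, Sym2.eq_swap]
                exact List.mem_cons_self
              have h12 : x₁ = x₂ := reed_two_three G L c x v x₁ x₂ (h x c hcx) ⟨g.symm, hcv⟩ ⟨g₁, hc1⟩ ⟨g₂, hc2⟩ hv1 hv2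
              subst h12
              have hr := reed_step G L c (fun v hv => h v c hv) v x₁ x r r' hp.1 hp'.1
                (fun z hz => hs z (by
                  rw [SimpleGraph.Walk.support_cons, SimpleGraph.Walk.support_cons]
                  exact List.mem_cons_of_mem _ (List.mem_cons_of_mem _ hz)))
                (fun z hz => hs' z (by
                  rw [SimpleGraph.Walk.support_cons, SimpleGraph.Walk.support_cons]
                  exact List.mem_cons_of_mem _ (List.mem_cons_of_mem _ hz))) g₁.symm hcx hp.2 hp'.2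
              rw [hr]
  · have : OddCyc G L c v = ∅ := by
      rw [Set.eq_empty_iff_forall_notMem]
      rintro w ⟨_, _, hs⟩
      exact hcv (hs v w.start_mem_support)
    rw [this, Set.ncard_empty]
    exact Nat.zero_le _
-- END reed_two

end Hlc
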