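import Pool.Agent.Hlc.Gr

/-!
# Hlc PRB: the two random facts
-/

set_option autoImplicit false

namespace Hlc

open Finset Filter Topology

/-- the number of ends of `W` on the cycle `0, 1, …, n - 1` -/
def en {n : ℕ} (W : Finset (Fin n)) : ℕ := (W.filter (fun u => finRotate n u ∉ W)).card

-- BEGIN ham_sp
private theorem ham_sp_cy (n : ℕ) (hn : 2 ≤ n) (τ : Equiv.Perm (Fin n)) : (∀ u, cy τ u ≠ u) ∧
    ∀ Y : Finset (Fin n), Y.Nonempty → (∀ u ∈ Y, cy τ u ∈ Y) → Y = univ := by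
  obtain ⟨m, rfl⟩ : ∃ m, n = m + 2 := ⟨n - 2, by omega⟩
  have hcy : ∀ u, cy τ u = τ (τ.symm u + 1) := by
    intro u
    unfold cy
    simp only [Equiv.trans_apply, finRotate_succ_apply]
  refine ⟨?_, ?_⟩
  · intro u h
    rw [hcy] at h
    have h1 : τ.symm u + 1 = τ.symm u := by
      have h2 := congrArg τ.symm h
      rwa [Equiv.symm_apply_apply] at h2
    have h3 : (1 : Fin (m + 2)) = 0 := by
      have h4 : τ.symm u + 1 = τ.symm u + 0 := by rw [h1, add_zero]
      exact add_left_cancel h4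
    exact absurd h3 (by simp)
  · intro Y hY hc
    obtain ⟨a, ha⟩ := hY
    have h1 : ∀ k : ℕ, ∀ h : k < m + 2, τ (τ.symm a + ⟨k, h⟩) ∈ Y := by
      intro k
      induction k with
      | zero =>
        intro h
        have h0 : (⟨0, h⟩ : Fin (m + 2)) = 0 := rfl
        rw [h0, add_zero, Equiv.apply_symm_apply]
        exact ha
      | succ k ih =>
        intro h
        have h2 := hc _ (ih (by omega))
        rw [hcy, Equiv.symm_apply_apply] at h2
        have h3 : (⟨k + 1, h⟩ : Fin (m + 2)) = ⟨k, by omega⟩ + 1 := by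
          ext
          rw [Fin.val_add, Fin.val_one, Nat.mod_eq_of_lt h]
        rw [h3, ← add_assoc]
        exact h2
    rw [eq_univ_iff_forall]
    intro b
    have h2 := h1 _ (τ.symm b - τ.symm a).isLt
    rw [Fin.eta, add_sub_cancel, Equiv.apply_symm_apply] at h2
    exact h2

/-- P1. `finRotate n u ≠ u` for `n ≥ 2`; if `Y` is nonempty and closed under `cy τ` then `τ⁻¹ Y` is closed under `finRotate n`, so it is everything (`finRotate` adds `1`: induction; or `isCycle_finRotate`). -/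
theorem ham_sp (n : ℕ) (hn : 2 ≤ n) (p : Equiv.Perm (Fin n) × Equiv.Perm (Fin n)) : Ham (sp p) := by
  refine ⟨?_, ?_⟩
  · intro i u
    cases i
    · exact (ham_sp_cy n hn p.2).1 u
    · exact (ham_sp_cy n hn p.1).1 u
  · intro i Y hY hc
    cases i
    · exact (ham_sp_cy n hn p.2).2 Y hY hc
    · exact (ham_sp_cy n hn p.1).2 Y hY hc
-- END ham_sp

-- BEGIN hg_adj
/-- P2. unfolding; `u ≠ v` by `ham_sp`. -/
theorem hg_adj (n : ℕ) (hn : 2 ≤ n) (p : Equiv.Perm (Fin n) × Equiv.Perm (Fin n)) (u v : Fin n) :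
    (HG n p).Adj u v ↔ adj (sp p) u v := by
  unfold HG
  rw [SimpleGraph.fromRel_adj]
  constructor
  · rintro ⟨_, (h | h) | (h | h)⟩
    · exact ⟨true, Or.inl h.symm⟩
    · exact ⟨false, Or.inl h.symm⟩
    · exact ⟨true, Or.inr h.symm⟩
    · exact ⟨false, Or.inr h.symm⟩
  · intro h
    refine ⟨adj_ne (sp p) (ham_sp n hn p) u v h, ?_⟩
    obtain ⟨i, h | h⟩ := h
    · cases i
      · exact Or.inl (Or.inr h.symm)
      · exact Or.inl (Or.inl h.symm)
    · cases i
      · exact Or.inr (Or.inr h.symm)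
      · exact Or.inr (Or.inl h.symm)
-- END hg_adj

-- BEGIN ax_sp
/-- P3. split the pairs `(u, i)` by `i`. -/
theorem ax_sp (n : ℕ) (p : Equiv.Perm (Fin n) × Equiv.Perm (Fin n)) (X : Finset (Fin n)) :
    ax (sp p) X = xs p.1 X + xs p.2 X := by
  unfold ax xs
  rw [card_filter, sum_product_right, Fintype.sum_bool, card_filter, card_filter]
  rfl

theorem xs_en (n : ℕ) (τ : Equiv.Perm (Fin n)) (X : Finset (Fin n)) : xs τ X = en (X.map τ.symm.toEmbedding) := by
  have hm : ∀ w : Fin n, w ∈ X.map τ.symm.toEmbedding ↔ τ w ∈ X := by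
    intro w
    rw [mem_map_equiv, Equiv.symm_symm]
  unfold xs en
  refine card_bij (fun u _ => τ.symm u) ?_ ?_ ?_
  · intro u hu
    rw [mem_filter] at hu
    rw [mem_filter, hm, hm, Equiv.apply_symm_apply]
    exact hu
  · intro u _ u' _ h
    exact τ.symm.injective h
  · intro w hw
    rw [mem_filter, hm, hm] at hw
    refine ⟨τ w, ?_, by rw [Equiv.symm_apply_apply]⟩
    rw [mem_filter]
    refine ⟨hw.1, ?_⟩
    unfold cy
    simp only [Equiv.trans_apply, Equiv.symm_apply_apply]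
    exact hw.2
-- END ax_sp

-- BEGIN perm_count
private theorem perm_count_mem {n : ℕ} (X W : Finset (Fin n)) (τ : Equiv.Perm (Fin n)) :
    X.map τ.symm.toEmbedding = W ↔ ∀ u, τ u ∈ X ↔ u ∈ W := by
  constructor
  · rintro rfl u
    simp only [mem_map_equiv, Equiv.symm_symm]
  · intro h
    ext u
    rw [mem_map_equiv, Equiv.symm_symm]
    exact h u

private theorem perm_count_stab {n : ℕ} (W : Finset (Fin n)) :
    ((univ : Finset (Equiv.Perm (Fin n))).filter (fun σ => ∀ u, σ u ∈ W ↔ u ∈ W)).card =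
      W.card.factorial * (n - W.card).factorial := by
  classical
  have h := DomMulAct.stabilizer_card (fun u : Fin n => decide (u ∈ W))
  rw [Fintype.card_subtype] at h
  have e1 : ((univ : Finset (Equiv.Perm (Fin n))).filter (fun σ => ∀ u, σ u ∈ W ↔ u ∈ W)) =
      (univ : Finset (Equiv.Perm (Fin n))).filter (fun σ : Equiv.Perm (Fin n) => (fun u : Fin n => decide (u ∈ W)) ∘ (⇑σ) = fun u : Fin n => decide (u ∈ W)) := by
    refine Finset.filter_congr fun σ _ => ?_
    constructor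
    · intro hs
      funext u
      simp only [Function.comp]
      rw [decide_eq_decide]
      exact hs u
    · intro hs u
      have := congrFun hs u
      simp only [Function.comp] at this
      rwa [decide_eq_decide] at this
  rw [e1, h, Fintype.prod_bool]
  have c1 : Fintype.card {a : Fin n // decide (a ∈ W) = true} = W.card := by
    rw [Fintype.card_subtype]
    congr 1
    ext a; simp
  have c2 : Fintype.card {a : Fin n // decide (a ∈ W) = false} = n - W.card := by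
    rw [Fintype.card_subtype]
    have e2 : (univ : Finset (Fin n)).filter (fun a => decide (a ∈ W) = false) = Wᶜ := by
      ext a; simp
    rw [e2, Finset.card_compl, Fintype.card_fin]
  rw [c1, c2]

private theorem perm_count_fib {n : ℕ} (X W : Finset (Fin n)) (h : W.card = X.card) :
    ((univ : Finset (Equiv.Perm (Fin n))).filter (fun τ => X.map τ.symm.toEmbedding = W)).card =
      X.card.factorial * (n - X.card).factorial := by
  classical
  rw [← h, ← perm_count_stab W]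
  let e : {x // x ∈ W} ≃ {x // x ∈ X} := Finset.equivOfCardEq h
  have h0 : ∀ u, e.extendSubtype u ∈ X ↔ u ∈ W := by
    intro u
    constructor
    · intro hu
      by_contra hW
      exact Equiv.extendSubtype_not_mem e u hW hu
    · intro hu
      exact Equiv.extendSubtype_mem e u hu
  refine Finset.card_bij' (fun τ _ => τ.trans e.extendSubtype.symm) (fun σ _ => σ.trans e.extendSubtype) ?_ ?_ ?_ ?_
  · intro τ hτ
    rw [mem_filter, perm_count_mem] at hτ
    rw [mem_filter]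
    refine ⟨mem_univ _, fun u => ?_⟩
    rw [← hτ.2 u, ← h0]
    simp
  · intro σ hσ
    rw [mem_filter] at hσ
    rw [mem_filter, perm_count_mem]
    refine ⟨mem_univ _, fun u => ?_⟩
    rw [Equiv.trans_apply, h0]
    exact hσ.2 u
  · intro τ _
    ext u; simp
  · intro σ _
    ext u; simp

theorem perm_count (n : ℕ) (X : Finset (Fin n)) (f : Finset (Fin n) → ℝ) :
    ∑ τ : Equiv.Perm (Fin n), f (X.map τ.symm.toEmbedding) =
      (X.card.factorial : ℝ) * ((n - X.card).factorial : ℝ) * ∑ W ∈ powersetCard X.card (univ : Finset (Fin n)), f W := by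
  classical
  have hm : ∀ τ ∈ (univ : Finset (Equiv.Perm (Fin n))), X.map τ.symm.toEmbedding ∈ powersetCard X.card (univ : Finset (Fin n)) := by
    intro τ _
    rw [mem_powersetCard]
    exact ⟨subset_univ _, by rw [card_map]⟩
  rw [← Finset.sum_fiberwise_of_maps_to hm (fun τ => f (X.map τ.symm.toEmbedding)), Finset.mul_sum]
  refine Finset.sum_congr rfl fun W hW => ?_
  rw [mem_powersetCard] at hW
  rw [Finset.sum_congr rfl (g := fun _ => f W) (by
    intro τ hτ
    rw [mem_filter] at hτ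
    rw [hτ.2])]
  rw [Finset.sum_const, perm_count_fib X W hW.2, nsmul_eq_mul]
  push_cast
  ring
-- END perm_count

-- BEGIN transfer
private noncomputable def transferM (x y : ℝ) (b c : Bool) : ℝ := (if c then x else 1) * (if b = true ∧ c = false then y else 1)

private noncomputable def transferT (x y : ℝ) : ℕ → Bool → Bool → ℝ
  | 0, b, c => if b = c then 1 else 0
  | m + 1, b, c => ∑ d : Bool, transferM x y b d * transferT x y m d c

private noncomputable def transferP (x y : ℝ) : (m : ℕ) → Bool → (Fin m → Bool) → Bool → ℝ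
  | 0, b, _, c => transferM x y b c
  | m + 1, b, g, c => transferM x y b (g 0) * transferP x y m (g 0) (Fin.tail g) c

private theorem transfer_sum (x y : ℝ) : ∀ (m : ℕ) (b c : Bool),
    ∑ g : Fin m → Bool, transferP x y m b g c = transferT x y (m + 1) b c
  | 0, b, c => by
    simp [transferP, transferT]
  | m + 1, b, c => by
    rw [← Fintype.sum_equiv (Fin.consEquiv (fun _ : Fin (m + 1) => Bool))
      (fun q : Bool × (Fin m → Bool) => transferM x y b q.1 * transferP x y m q.1 q.2 c) _ (by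
        intro q
        simp [transferP, Fin.consEquiv])]
    rw [Fintype.sum_prod_type]
    rw [transferT]
    refine Finset.sum_congr rfl fun d _ => ?_
    rw [← transfer_sum x y m d c, Finset.mul_sum]

private theorem transfer_prod (x y : ℝ) : ∀ (m : ℕ) (b c : Bool) (g : Fin m → Bool),
    transferP x y m b g c = ∏ i : Fin (m + 1), transferM x y ((Fin.cons b g : Fin (m + 1) → Bool) i) ((Fin.snoc g c : Fin (m + 1) → Bool) i)
  | 0, b, c, g => by
    simp [transferP, Fin.snoc]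
  | m + 1, b, c, g => by
    rw [transferP, transfer_prod x y m, Fin.prod_univ_succ (n := m + 1)]
    congr 1
    refine Finset.prod_congr rfl fun i _ => ?_
    rw [Fin.cons_self_tail, Fin.cons_succ]
    congr 1
    refine Fin.lastCases ?_ (fun j => ?_) i
    · rw [Fin.snoc_last, Fin.succ_last, Fin.snoc_last]
    · rw [Fin.snoc_castSucc, Fin.succ_castSucc, Fin.snoc_castSucc]; rfl

private theorem transfer_bd (x y a : ℝ) (hx0 : 0 < x) (hy : 0 < y) (ha : 0 < a) (e2 : y + x * a = a) (c : Bool) :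
    ∀ (m : ℕ) (b : Bool), transferT x y m b c * (if c then a else 1) ≤ (1 + x * a) ^ m * (if b then a else 1)
  | 0, b => by
    cases b <;> cases c <;> simp [transferT] <;> linarith
  | m + 1, b => by
    have hT := transfer_bd x y a hx0 hy ha e2 c m true
    have hF := transfer_bd x y a hx0 hy ha e2 c m false
    have hl : 0 < (1 + x * a) ^ m := by positivity
    rw [transferT, Fintype.sum_bool, pow_succ]
    generalize transferT x y m true c = p at *
    generalize transferT x y m false c = q at *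
    generalize (1 + x * a) ^ m = l at *
    generalize (if c then a else (1 : ℝ)) = U at *
    simp only [if_true, Bool.false_eq_true, if_false, mul_one] at hT hF
    have hxa : 0 ≤ x * a := by positivity
    have h3 := mul_le_mul_of_nonneg_left hT hx0.le
    cases b
    · have e3 : transferM x y false true = x := by simp [transferM]
      have e4 : transferM x y false false = 1 := by simp [transferM]
      rw [e3, e4]
      simp only [Bool.false_eq_true, if_false, mul_one]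
      linarith
    · have e3 : transferM x y true true = x := by simp [transferM]
      have e4 : transferM x y true false = y := by simp [transferM]
      rw [e3, e4]
      simp only [if_true]
      have h4 := mul_le_mul_of_nonneg_left hF hy.le
      have h5 : 0 ≤ l * a * (x * a) := by positivity
      have h6 : l * (y + x * a) = l * a := by rw [e2]
      linarith

theorem transfer (n : ℕ) (hn : 1 ≤ n) (x y : ℝ) (hx0 : 0 < x) (hx1 : x < 1) (hy : 0 < y) :
    ∑ W : Finset (Fin n), x ^ W.card * y ^ en W ≤ 2 * (1 + x * y / (1 - x)) ^ n := by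
  obtain ⟨m, rfl⟩ : ∃ m, n = m + 1 := ⟨n - 1, by omega⟩
  have h1 : 0 < 1 - x := by linarith
  have h2 : 0 < y / (1 - x) := div_pos hy h1
  have key : ∀ f : Fin (m + 1) → Bool,
      x ^ (univ.filter (fun u => f u = true)).card * y ^ en (univ.filter (fun u => f u = true)) =
        transferP x y m (f 0) (Fin.tail f) (f 0) := by
    intro f
    rw [transfer_prod]
    simp only [transferM]
    rw [Finset.prod_mul_distrib]
    have hr : ∀ i : Fin (m + 1), (Fin.snoc (Fin.tail f) (f 0) : Fin (m + 1) → Bool) i = f (finRotate (m + 1) i) := by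
      intro i
      refine Fin.lastCases ?_ (fun j => ?_) i
      · rw [Fin.snoc_last, finRotate_last]
      · rw [Fin.snoc_castSucc, finRotate_of_lt]
        · rfl
        · exact j.isLt
    congr 1
    · rw [Finset.prod_congr rfl (fun i _ => by rw [hr i])]
      rw [Equiv.prod_comp (finRotate (m + 1)) (fun i => if f i = true then x else 1)]
      rw [Finset.prod_ite, Finset.prod_const, Finset.prod_const_one, mul_one]
    · rw [Finset.prod_congr rfl (fun i _ => by rw [hr i, Fin.cons_self_tail])]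
      rw [Finset.prod_ite, Finset.prod_const, Finset.prod_const_one, mul_one, en]
      congr 2
      ext u
      simp
  have hs : ∑ W : Finset (Fin (m + 1)), x ^ W.card * y ^ en W =
      ∑ f : Fin (m + 1) → Bool, transferP x y m (f 0) (Fin.tail f) (f 0) := by
    refine Finset.sum_nbij' (fun W u => decide (u ∈ W)) (fun f => univ.filter (fun u => f u = true)) ?_ ?_ ?_ ?_ ?_
    · intro W _; exact Finset.mem_univ _
    · intro f _; exact Finset.mem_univ _
    · intro W _; ext u; simp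
    · intro f _; funext u; simp
    · intro W _
      rw [← key (fun u => decide (u ∈ W))]
      simp
  rw [hs]
  rw [← Fintype.sum_equiv (Fin.consEquiv (fun _ : Fin (m + 1) => Bool))
      (fun q : Bool × (Fin m → Bool) => transferP x y m q.1 q.2 q.1) _ (by
        intro q
        simp [Fin.consEquiv])]
  rw [Fintype.sum_prod_type, Fintype.sum_bool, transfer_sum, transfer_sum]
  have e2 : y + x * (y / (1 - x)) = y / (1 - x) := by field_simp; ring
  have hT := transfer_bd x y (y / (1 - x)) hx0 hy h2 e2 true (m + 1) true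
  have hF := transfer_bd x y (y / (1 - x)) hx0 hy h2 e2 false (m + 1) false
  rw [← mul_div_assoc] at hT hF
  simp only [if_true, Bool.false_eq_true, if_false, mul_one] at hT hF
  have hT' := le_of_mul_le_mul_right hT h2
  linarith
-- END transfer

-- BEGIN sum_y
theorem sum_y (n : ℕ) (hn : 1 ≤ n) (x y : ℝ) (hx0 : 0 < x) (hx1 : x < 1) (hy : 0 < y) (X : Finset (Fin n)) :
    ∑ τ : Equiv.Perm (Fin n), y ^ xs τ X ≤
      (X.card.factorial : ℝ) * ((n - X.card).factorial : ℝ) * (2 * (1 + x * y / (1 - x)) ^ n / x ^ X.card) := by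
  have h1 : ∑ τ : Equiv.Perm (Fin n), y ^ xs τ X = ∑ τ : Equiv.Perm (Fin n), y ^ en (X.map τ.symm.toEmbedding) :=
    Finset.sum_congr rfl fun τ _ => by rw [xs_en]
  rw [h1, perm_count n X (fun W => y ^ en W)]
  refine mul_le_mul_of_nonneg_left ?_ (by positivity)
  have hxp : 0 < x ^ X.card := by positivity
  rw [le_div_iff₀ hxp, Finset.sum_mul]
  refine le_trans ?_ (transfer n hn x y hx0 hx1 hy)
  have h2 : ∑ W ∈ powersetCard X.card (univ : Finset (Fin n)), y ^ en W * x ^ X.card =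
      ∑ W ∈ powersetCard X.card (univ : Finset (Fin n)), x ^ W.card * y ^ en W := by
    refine Finset.sum_congr rfl fun W hW => ?_
    rw [mem_powersetCard] at hW
    rw [hW.2, mul_comm]
  rw [h2]
  refine Finset.sum_le_sum_of_subset_of_nonneg (Finset.subset_univ _) fun W _ _ => by positivity
-- END sum_y

-- BEGIN union_count
open Classical in
private theorem union_count_one (n s t : ℕ) (hn : 1 ≤ n) (x y : ℝ) (hx0 : 0 < x) (hx1 : x < 1) (hy : 0 < y) (hy1 : y ≤ 1)
    (X : Finset (Fin n)) (hX : X.card = s) :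
    ((univ.filter (fun p : Equiv.Perm (Fin n) × Equiv.Perm (Fin n) => ax (sp p) X ≤ t)).card : ℝ) ≤
      ((s.factorial : ℝ) * ((n - s).factorial : ℝ)) ^ 2 * (4 * ((1 + x * y / (1 - x)) ^ n) ^ 2 / (x ^ (2 * s) * y ^ t)) := by
  have hsum := sum_y n hn x y hx0 hx1 hy X
  rw [hX] at hsum
  have hS0 : 0 ≤ ∑ τ : Equiv.Perm (Fin n), y ^ xs τ X := Finset.sum_nonneg fun τ _ => by positivity
  have hprod : ∑ p : Equiv.Perm (Fin n) × Equiv.Perm (Fin n), y ^ ax (sp p) X =
      (∑ τ : Equiv.Perm (Fin n), y ^ xs τ X) ^ 2 := by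
    rw [Fintype.sum_prod_type, sq, Finset.sum_mul_sum]
    refine Finset.sum_congr rfl fun τ _ => Finset.sum_congr rfl fun τ' _ => ?_
    rw [ax_sp, pow_add]
  have hyt : 0 < y ^ t := by positivity
  have hle : ((univ.filter (fun p : Equiv.Perm (Fin n) × Equiv.Perm (Fin n) => ax (sp p) X ≤ t)).card : ℝ) * y ^ t ≤
      ∑ p : Equiv.Perm (Fin n) × Equiv.Perm (Fin n), y ^ ax (sp p) X := by
    rw [← nsmul_eq_mul, ← Finset.sum_const]
    refine le_trans (Finset.sum_le_sum (g := fun p => y ^ ax (sp p) X) ?_) ?_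
    · intro p hp
      rw [mem_filter] at hp
      exact pow_le_pow_of_le_one hy.le hy1 hp.2
    · exact Finset.sum_le_sum_of_subset_of_nonneg (Finset.subset_univ _) fun p _ _ => by positivity
  rw [hprod] at hle
  have h2 := pow_le_pow_left₀ hS0 hsum 2
  have h3 := hle.trans h2
  rw [← le_div_iff₀ hyt] at h3
  refine h3.trans (le_of_eq ?_)
  have hxs : x ^ s ≠ 0 := by positivity
  have hyt' : y ^ t ≠ 0 := hyt.ne'
  have hx2 : x ^ (2 * s) = (x ^ s) ^ 2 := by rw [← pow_mul, mul_comm]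
  rw [hx2]
  field_simp
  ring

open Classical in
theorem union_count (n s t : ℕ) (hs : s ≤ n) (hn : 1 ≤ n) (x y : ℝ) (hx0 : 0 < x) (hx1 : x < 1) (hy : 0 < y) (hy1 : y ≤ 1) :
    ((univ.filter (fun p : Equiv.Perm (Fin n) × Equiv.Perm (Fin n) =>
      ∃ X : Finset (Fin n), X.card = s ∧ ax (sp p) X ≤ t)).card : ℝ) ≤
      (n.factorial : ℝ) ^ 2 * (4 * ((1 + x * y / (1 - x)) ^ n) ^ 2 / (x ^ (2 * s) * y ^ t * (n.choose s : ℝ))) := by
  have hsub : (univ.filter (fun p : Equiv.Perm (Fin n) × Equiv.Perm (Fin n) =>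
      ∃ X : Finset (Fin n), X.card = s ∧ ax (sp p) X ≤ t)) ⊆
      (powersetCard s (univ : Finset (Fin n))).biUnion
        (fun X => univ.filter (fun p : Equiv.Perm (Fin n) × Equiv.Perm (Fin n) => ax (sp p) X ≤ t)) := by
    intro p hp
    rw [mem_filter] at hp
    obtain ⟨_, X, hX, hax⟩ := hp
    rw [mem_biUnion]
    exact ⟨X, mem_powersetCard.2 ⟨subset_univ _, hX⟩, mem_filter.2 ⟨mem_univ _, hax⟩⟩
  have h1 : ((univ.filter (fun p : Equiv.Perm (Fin n) × Equiv.Perm (Fin n) =>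
      ∃ X : Finset (Fin n), X.card = s ∧ ax (sp p) X ≤ t)).card : ℝ) ≤
      ∑ X ∈ powersetCard s (univ : Finset (Fin n)),
        ((univ.filter (fun p : Equiv.Perm (Fin n) × Equiv.Perm (Fin n) => ax (sp p) X ≤ t)).card : ℝ) := by
    have := (Finset.card_le_card hsub).trans Finset.card_biUnion_le
    exact_mod_cast this
  refine h1.trans ?_
  refine (Finset.sum_le_sum fun X hX => union_count_one n s t hn x y hx0 hx1 hy hy1 X (mem_powersetCard.1 hX).2).trans ?_
  rw [Finset.sum_const, card_powersetCard, card_univ, Fintype.card_fin, nsmul_eq_mul]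
  have hc : (n.choose s : ℝ) * (s.factorial : ℝ) * ((n - s).factorial : ℝ) = (n.factorial : ℝ) := by
    exact_mod_cast Nat.choose_mul_factorial_mul_factorial hs
  have hc0 : (0 : ℝ) < n.choose s := by exact_mod_cast Nat.choose_pos hs
  rw [← hc]
  refine le_of_eq ?_
  have hx' : x ^ (2 * s) ≠ 0 := by positivity
  have hy' : y ^ t ≠ 0 := by positivity
  have hc' : (n.choose s : ℝ) ≠ 0 := hc0.ne'
  generalize ((1 + x * y / (1 - x)) ^ n) ^ 2 = L
  field_simp
-- END union_count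

-- BEGIN choose_ge
/-- P8. Induction on `s` for all `n`: `n.choose s = n / s * (n-1).choose (s-1)` (`Nat.succ_mul_choose_eq`), `(n-1)/(s-1) ≥ n/s`. Or Mathlib. -/
theorem choose_ge (n s : ℕ) (hs : 1 ≤ s) (hn : s ≤ n) : ((n : ℝ) / s) ^ s ≤ (n.choose s : ℝ) := by
  induction s generalizing n with
  | zero => omega
  | succ s ih =>
    obtain ⟨m, rfl⟩ : ∃ m, n = m + 1 := ⟨n - 1, by omega⟩
    have hid : ((m + 1).choose (s + 1) : ℝ) * ((s : ℝ) + 1) = ((m : ℝ) + 1) * (m.choose s : ℝ) := by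
      have := Nat.add_one_mul_choose_eq m s
      have h2 : (((m + 1) * m.choose s : ℕ) : ℝ) = (((m + 1).choose (s + 1) * (s + 1) : ℕ) : ℝ) := by rw [this]
      push_cast at h2
      linarith
    have hs1 : (0 : ℝ) < (s : ℝ) + 1 := by positivity
    have hm1 : (0 : ℝ) < (m : ℝ) + 1 := by positivity
    push_cast
    rw [pow_succ]
    have hstep : (((m : ℝ) + 1) / ((s : ℝ) + 1)) ^ s ≤ (m.choose s : ℝ) := by
      rcases Nat.eq_zero_or_pos s with h0 | h0
      · subst h0; simp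
      · refine le_trans ?_ (ih m h0 (by omega))
        have hsp : (0 : ℝ) < s := by exact_mod_cast h0
        apply pow_le_pow_left₀ (by positivity)
        rw [div_le_div_iff₀ hs1 hsp]
        have : (s : ℝ) ≤ m := by exact_mod_cast (by omega : s ≤ m)
        nlinarith
    have h3 : ((m + 1).choose (s + 1) : ℝ) = (m.choose s : ℝ) * (((m : ℝ) + 1) / ((s : ℝ) + 1)) := by
      field_simp
      linarith
    rw [h3]
    exact mul_le_mul_of_nonneg_right hstep (by positivity)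
-- END choose_ge

-- BEGIN sparse_term
private theorem sparse_term_exp : Real.exp (1 / 2) ≤ 27 / 16 := by
  have h1 : Real.exp (1 / 2) * Real.exp (1 / 2) = Real.exp 1 := by rw [← Real.exp_add]; norm_num
  have h2 := Real.exp_one_lt_d9
  nlinarith [Real.exp_pos (1 / 2)]

private theorem sparse_term_real (n m : ℕ) (hn : m + 1 ≤ n) (C : ℝ) (hC : ((n : ℝ) / (m + 1 : ℕ)) ^ (m + 1) ≤ C) :
    4 * ((1 + 1 / 2 * (((m + 1 : ℕ) : ℝ) / n / 4) / (1 - 1 / 2)) ^ n) ^ 2 /
      ((1 / 2 : ℝ) ^ (2 * (m + 1)) * (((m + 1 : ℕ) : ℝ) / n / 4) ^ m * C) ≤ 54 ^ (m + 1) / n := by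
  have hn0 : (0 : ℝ) < n := by exact_mod_cast (by omega : 0 < n)
  have hs0 : (0 : ℝ) < ((m + 1 : ℕ) : ℝ) := by positivity
  have hL : ((1 + 1 / 2 * (((m + 1 : ℕ) : ℝ) / n / 4) / (1 - 1 / 2)) ^ n) ^ 2 ≤ (27 / 16 : ℝ) ^ (m + 1) := by
    have e1 : (1 : ℝ) + 1 / 2 * (((m + 1 : ℕ) : ℝ) / n / 4) / (1 - 1 / 2) = ((m + 1 : ℕ) : ℝ) / n / 4 + 1 := by
      norm_num; ring
    rw [e1]
    have h1 : ((m + 1 : ℕ) : ℝ) / n / 4 + 1 ≤ Real.exp (((m + 1 : ℕ) : ℝ) / n / 4) := Real.add_one_le_exp _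
    have h0 : (0 : ℝ) ≤ ((m + 1 : ℕ) : ℝ) / n / 4 + 1 := by positivity
    have h2 : (((m + 1 : ℕ) : ℝ) / n / 4 + 1) ^ (n * 2) ≤ Real.exp (((m + 1 : ℕ) : ℝ) / n / 4) ^ (n * 2) :=
      pow_le_pow_left₀ h0 h1 _
    rw [← pow_mul]
    refine h2.trans ?_
    have h3 : Real.exp (((m + 1 : ℕ) : ℝ) / n / 4) ^ (n * 2) = Real.exp (1 / 2) ^ (m + 1) := by
      rw [← Real.exp_nat_mul, ← Real.exp_nat_mul]
      congr 1
      push_cast
      field_simp
      ring
    rw [h3]
    exact pow_le_pow_left₀ (Real.exp_pos _).le sparse_term_exp _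
  have hD : (1 / 4 : ℝ) ^ (2 * m + 1) * ((n : ℝ) / (m + 1 : ℕ)) ≤
      (1 / 2 : ℝ) ^ (2 * (m + 1)) * (((m + 1 : ℕ) : ℝ) / n / 4) ^ m * C := by
    have hP : (0 : ℝ) ≤ (1 / 2 : ℝ) ^ (2 * (m + 1)) * (((m + 1 : ℕ) : ℝ) / n / 4) ^ m := by positivity
    refine le_trans (le_of_eq ?_) (mul_le_mul_of_nonneg_left hC hP)
    have e2 : (1 / 2 : ℝ) ^ (2 * (m + 1)) = (1 / 4) ^ (m + 1) := by rw [pow_mul]; norm_num
    have key : ∀ q r r' : ℝ, r * r' = 1 → q ^ (2 * m + 1) * r' = q ^ (m + 1) * (r * q) ^ m * r' ^ (m + 1) := by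
      intro q r r' h
      have h1 : (r * r') ^ m = 1 := by rw [h, one_pow]
      have h2 : q ^ (m + 1) * (r * q) ^ m * r' ^ (m + 1) = q ^ (m + 1) * q ^ m * (r * r') ^ m * r' := by
        rw [mul_pow, mul_pow, pow_succ r' m]; ring
      rw [h2, h1, mul_one, ← pow_add]
      congr 2
      omega
    rw [e2, key (1 / 4) (((m + 1 : ℕ) : ℝ) / n) ((n : ℝ) / (m + 1 : ℕ)) (by field_simp)]
    congr 3
    ring
  have hD0 : (0 : ℝ) < (1 / 4 : ℝ) ^ (2 * m + 1) * ((n : ℝ) / (m + 1 : ℕ)) := by positivity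
  have h4 : 4 * ((1 + 1 / 2 * (((m + 1 : ℕ) : ℝ) / n / 4) / (1 - 1 / 2)) ^ n) ^ 2 /
      ((1 / 2 : ℝ) ^ (2 * (m + 1)) * (((m + 1 : ℕ) : ℝ) / n / 4) ^ m * C) ≤
      4 * (27 / 16 : ℝ) ^ (m + 1) / ((1 / 4 : ℝ) ^ (2 * m + 1) * ((n : ℝ) / (m + 1 : ℕ))) :=
    div_le_div₀ (by positivity) (by linarith) hD0 hD
  refine h4.trans ?_
  have hs2 : ((m + 1 : ℕ) : ℝ) ≤ 2 ^ (m + 1) := by exact_mod_cast (Nat.lt_two_pow_self (n := m + 1)).le
  have h5 : 4 * (27 / 16 : ℝ) ^ (m + 1) / ((1 / 4 : ℝ) ^ (2 * m + 1) * ((n : ℝ) / (m + 1 : ℕ))) =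
      27 ^ (m + 1) * ((m + 1 : ℕ) : ℝ) / n := by
    have e4 : (1 / 4 : ℝ) ^ (2 * m + 1) = 4 / 16 ^ (m + 1) := by
      have e5 : (16 : ℝ) ^ (m + 1) = 4 ^ (2 * m + 1) * 4 := by
        rw [← pow_succ, (by norm_num : (16 : ℝ) = 4 ^ 2), ← pow_mul]
        congr 1
      rw [e5, one_div, inv_pow]
      field_simp
    rw [e4, div_pow]
    field_simp
  rw [h5]
  refine div_le_div_of_nonneg_right ?_ hn0.le
  calc (27 : ℝ) ^ (m + 1) * ((m + 1 : ℕ) : ℝ) ≤ 27 ^ (m + 1) * 2 ^ (m + 1) := mul_le_mul_of_nonneg_left hs2 (by positivity)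
    _ = 54 ^ (m + 1) := by rw [← mul_pow]; norm_num

open Classical in
theorem sparse_term (n s : ℕ) (hs : 1 ≤ s) (hn : s ≤ n) :
    ((univ.filter (fun p : Equiv.Perm (Fin n) × Equiv.Perm (Fin n) =>
      ∃ X : Finset (Fin n), X.card = s ∧ s + 1 ≤ ed (sp p) X)).card : ℝ) ≤ (n.factorial : ℝ) ^ 2 * (54 ^ s / n) := by
  obtain ⟨m, rfl⟩ : ∃ m, s = m + 1 := ⟨s - 1, by omega⟩
  have hn0 : (0 : ℝ) < n := by exact_mod_cast (by omega : 0 < n)
  have hr1 : ((m + 1 : ℕ) : ℝ) / n ≤ 1 := by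
    rw [div_le_one hn0]
    exact_mod_cast hn
  have hr0 : (0 : ℝ) < ((m + 1 : ℕ) : ℝ) / n := by positivity
  have h1 := union_count n (m + 1) m hn (by omega) (1 / 2) (((m + 1 : ℕ) : ℝ) / n / 4) (by norm_num) (by norm_num)
    (by positivity) (by linarith)
  have hsub : (univ.filter (fun p : Equiv.Perm (Fin n) × Equiv.Perm (Fin n) =>
      ∃ X : Finset (Fin n), X.card = m + 1 ∧ m + 1 + 1 ≤ ed (sp p) X)).card ≤
      (univ.filter (fun p : Equiv.Perm (Fin n) × Equiv.Perm (Fin n) =>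
      ∃ X : Finset (Fin n), X.card = m + 1 ∧ ax (sp p) X ≤ m)).card := by
    refine Finset.card_le_card fun p hp => ?_
    rw [mem_filter] at hp ⊢
    obtain ⟨_, X, hX, he⟩ := hp
    refine ⟨mem_univ _, X, hX, ?_⟩
    have := ed_add_ax (sp p) X
    omega
  have h2 : ((univ.filter (fun p : Equiv.Perm (Fin n) × Equiv.Perm (Fin n) =>
      ∃ X : Finset (Fin n), X.card = m + 1 ∧ m + 1 + 1 ≤ ed (sp p) X)).card : ℝ) ≤
      ((univ.filter (fun p : Equiv.Perm (Fin n) × Equiv.Perm (Fin n) =>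
      ∃ X : Finset (Fin n), X.card = m + 1 ∧ ax (sp p) X ≤ m)).card : ℝ) := by exact_mod_cast hsub
  refine h2.trans (h1.trans ?_)
  refine mul_le_mul_of_nonneg_left ?_ (by positivity)
  exact sparse_term_real n m hn _ (choose_ge n (m + 1) (by omega) hn)
-- END sparse_term

-- BEGIN sparse_lim
private theorem sparse_lim_log (n : ℕ) (hn : 1 ≤ n) : 2 ^ (20 * (Nat.log 2 n / 20)) ≤ n := by
  have h1 : 20 * (Nat.log 2 n / 20) ≤ Nat.log 2 n := Nat.mul_div_le _ _
  exact (Nat.pow_le_pow_right (by norm_num) h1).trans (Nat.pow_log_le_self 2 (by omega))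

private theorem sparse_lim_num (n : ℕ) (hn : 1 ≤ n) :
    ((3 * (Nat.log 2 n / 20) : ℕ) : ℝ) * (54 ^ (3 * (Nat.log 2 n / 20)) / n) ≤
      3 * (1 / 2) ^ (Nat.log 2 n / 20) := by
  have hlog := sparse_lim_log n hn
  generalize Nat.log 2 n / 20 = K at hlog
  have hK : K ≤ 2 ^ K := Nat.lt_two_pow_self.le
  have h1 : 3 * K * 54 ^ (3 * K) * 2 ^ K ≤ 3 * n := by
    calc 3 * K * 54 ^ (3 * K) * 2 ^ K ≤ 3 * 2 ^ K * 64 ^ (3 * K) * 2 ^ K := by
          gcongr
          norm_num
      _ = 3 * 2 ^ (20 * K) := by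
          have h64 : (64 : ℕ) = 2 ^ 6 := by norm_num
          rw [h64, ← pow_mul]
          have : 20 * K = K + 6 * (3 * K) + K := by ring
          rw [this, pow_add, pow_add]
          ring
      _ ≤ 3 * n := Nat.mul_le_mul_left 3 hlog
  have h2 : ((3 * K : ℕ) : ℝ) * 54 ^ (3 * K) * 2 ^ K ≤ 3 * (n : ℝ) := by exact_mod_cast h1
  have hn0 : (0 : ℝ) < n := by exact_mod_cast hn
  have h2K : (0 : ℝ) < 2 ^ K := by positivity
  rw [← mul_div_assoc, div_le_iff₀ hn0, one_div, inv_pow, ← div_eq_mul_inv, div_mul_eq_mul_div,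
    le_div_iff₀ h2K]
  exact h2

open Classical in
private theorem sparse_lim_count (n : ℕ) (hn : 1 ≤ n) :
    ((univ.filter (fun p : Equiv.Perm (Fin n) × Equiv.Perm (Fin n) =>
      ¬ Sparse (sp p) (3 * (Nat.log 2 n / 20)))).card : ℝ) ≤
      ((3 * (Nat.log 2 n / 20) : ℕ) : ℝ) *
        ((n.factorial : ℝ) ^ 2 * (54 ^ (3 * (Nat.log 2 n / 20)) / n)) := by
  have hmn : 3 * (Nat.log 2 n / 20) ≤ n := by
    have h1 : Nat.log 2 n ≤ n := Nat.log_le_self 2 n
    omega
  generalize 3 * (Nat.log 2 n / 20) = m at hmn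
  have hsub : (univ.filter (fun p : Equiv.Perm (Fin n) × Equiv.Perm (Fin n) =>
      ¬ Sparse (sp p) m)) ⊆ (Finset.Icc 1 m).biUnion (fun s =>
        univ.filter (fun p : Equiv.Perm (Fin n) × Equiv.Perm (Fin n) =>
          ∃ X : Finset (Fin n), X.card = s ∧ s + 1 ≤ ed (sp p) X)) := by
    intro p hp
    have h1 := (mem_filter.1 hp).2
    unfold Sparse at h1
    push Not at h1
    obtain ⟨X, hX, hXm, hed⟩ := h1
    rw [mem_biUnion]
    refine ⟨X.card, mem_Icc.2 ⟨hX.card_pos, hXm⟩, mem_filter.2 ⟨mem_univ _, X, rfl, hed⟩⟩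
  have h2 : (univ.filter (fun p : Equiv.Perm (Fin n) × Equiv.Perm (Fin n) =>
      ¬ Sparse (sp p) m)).card ≤ ∑ s ∈ Finset.Icc 1 m,
        (univ.filter (fun p : Equiv.Perm (Fin n) × Equiv.Perm (Fin n) =>
          ∃ X : Finset (Fin n), X.card = s ∧ s + 1 ≤ ed (sp p) X)).card :=
    (card_le_card hsub).trans card_biUnion_le
  have h3 : ((univ.filter (fun p : Equiv.Perm (Fin n) × Equiv.Perm (Fin n) =>
      ¬ Sparse (sp p) m)).card : ℝ) ≤ ∑ s ∈ Finset.Icc 1 m,
        ((univ.filter (fun p : Equiv.Perm (Fin n) × Equiv.Perm (Fin n) =>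
          ∃ X : Finset (Fin n), X.card = s ∧ s + 1 ≤ ed (sp p) X)).card : ℝ) := by
    exact_mod_cast h2
  refine h3.trans ?_
  have h4 : ∀ s ∈ Finset.Icc 1 m,
      ((univ.filter (fun p : Equiv.Perm (Fin n) × Equiv.Perm (Fin n) =>
          ∃ X : Finset (Fin n), X.card = s ∧ s + 1 ≤ ed (sp p) X)).card : ℝ) ≤
        (n.factorial : ℝ) ^ 2 * (54 ^ m / n) := by
    intro s hs
    obtain ⟨hs1, hs2⟩ := mem_Icc.1 hs
    refine (sparse_term n s hs1 (hs2.trans hmn)).trans ?_
    gcongr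
    norm_num
  refine (Finset.sum_le_sum h4).trans ?_
  rw [Finset.sum_const, nsmul_eq_mul, Nat.card_Icc]
  simp

open Classical in
/-- P10. `K = Nat.log 2 n / 20`: the fraction is at most `∑_{s=1}^{3K} 54^s / n ≤ 3K * 54^(3K) / n` and `54^(3K) ≤ 64^(3K) = 2^(18K)`, `(2^(18K))^10 ≤ (2^(Nat.log 2 n))^9 ≤ n^9`: at most `3 log₂ n * n^(-1/10)`. -/
theorem sparse_lim : Tendsto (fun n : ℕ => ((univ.filter (fun p : Equiv.Perm (Fin n) × Equiv.Perm (Fin n) =>
    ¬ Sparse (sp p) (3 * (Nat.log 2 n / 20)))).card : ℝ) / (n.factorial : ℝ) ^ 2) atTop (𝓝 0) := by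
  have hK : Tendsto (fun n : ℕ => Nat.log 2 n / 20) atTop atTop := by
    refine tendsto_atTop_atTop.2 fun b => ⟨2 ^ (20 * b), fun n hn => ?_⟩
    have h1 : 20 * b ≤ Nat.log 2 n := Nat.le_log_of_pow_le (by norm_num) hn
    omega
  have hlim : Tendsto (fun n : ℕ => 3 * ((1 : ℝ) / 2) ^ (Nat.log 2 n / 20)) atTop (𝓝 0) := by
    have h1 := (tendsto_pow_atTop_nhds_zero_of_lt_one (r := (1 : ℝ) / 2) (by norm_num)
      (by norm_num)).comp hK
    have h2 := h1.const_mul 3
    rw [mul_zero] at h2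
    exact h2
  refine squeeze_zero' (Eventually.of_forall fun n => by positivity) ?_ hlim
  filter_upwards [eventually_ge_atTop 1] with n hn
  have hf : (0 : ℝ) < (n.factorial : ℝ) ^ 2 := by
    have : (0 : ℝ) < n.factorial := by exact_mod_cast n.factorial_pos
    positivity
  rw [div_le_iff₀ hf]
  refine (sparse_lim_count n hn).trans ?_
  have h5 := mul_le_mul_of_nonneg_left (sparse_lim_num n hn) hf.le
  calc ((3 * (Nat.log 2 n / 20) : ℕ) : ℝ) *
        ((n.factorial : ℝ) ^ 2 * (54 ^ (3 * (Nat.log 2 n / 20)) / n))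
      = (n.factorial : ℝ) ^ 2 * (((3 * (Nat.log 2 n / 20) : ℕ) : ℝ) *
        (54 ^ (3 * (Nat.log 2 n / 20)) / n)) := by ring
    _ ≤ (n.factorial : ℝ) ^ 2 * (3 * (1 / 2) ^ (Nat.log 2 n / 20)) := h5
    _ = 3 * (1 / 2) ^ (Nat.log 2 n / 20) * (n.factorial : ℝ) ^ 2 := by ring
-- END sparse_lim

-- BEGIN exp_term
private theorem exp_term_num (s t k : ℕ) (hs : 129 ≤ s) (ht : 64 * t < s) (hk : s = k + t + 2) :
    ((128 : ℝ) / 113) ^ s ≤ (9 / 10) ^ s * ((15 / 16) ^ (2 * s) * ((2 : ℝ) ^ k / 256 ^ t)) := by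
  have h1 : (2 : ℝ) ^ (9 * t + 2) ≤ (45765 / 32768) ^ s := by
    calc (2 : ℝ) ^ (9 * t + 2) ≤ ((4 / 3) ^ 3) ^ (9 * t + 2) := by
          apply pow_le_pow_left₀ (by norm_num) (by norm_num)
      _ = (4 / 3) ^ (3 * (9 * t + 2)) := by rw [← pow_mul]
      _ ≤ (4 / 3) ^ s := pow_le_pow_right₀ (by norm_num) (by omega)
      _ ≤ (45765 / 32768) ^ s := pow_le_pow_left₀ (by norm_num) (by norm_num) s
  have h2 : ((9 : ℝ) / 10) ^ s * ((15 / 16) ^ (2 * s) * ((2 : ℝ) ^ k / 256 ^ t)) =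
      (405 / 256) ^ s / 2 ^ (9 * t + 2) := by
    have h3 : (2 : ℝ) ^ s = 2 ^ k * 2 ^ (t + 2) := by rw [hk, ← pow_add]; congr 1
    have h4 : (2 : ℝ) ^ (9 * t + 2) = 256 ^ t * 2 ^ (t + 2) := by
      have : (256 : ℝ) = 2 ^ 8 := by norm_num
      rw [this, ← pow_mul, ← pow_add]
      congr 1
      omega
    have h5 : ((405 : ℝ) / 256) ^ s = (9 / 10) ^ s * (15 / 16) ^ (2 * s) * 2 ^ s := by
      rw [pow_mul, ← mul_pow, ← mul_pow]
      norm_num
    have h6 : (0 : ℝ) < 256 ^ t := by positivity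
    have h7 : (0 : ℝ) < 2 ^ (t + 2) := by positivity
    rw [h5, h4, h3]
    field_simp
  rw [h2, le_div_iff₀ (by positivity)]
  calc ((128 : ℝ) / 113) ^ s * 2 ^ (9 * t + 2) ≤ (128 / 113) ^ s * (45765 / 32768) ^ s :=
        mul_le_mul_of_nonneg_left h1 (by positivity)
    _ = (405 / 256) ^ s := by
        rw [← mul_pow]
        norm_num

private theorem exp_term_exp (n s : ℕ) (hn : 0 < n) :
    ((1 + 15 * ((s : ℝ) / (256 * n))) ^ n) ^ 2 ≤ ((128 : ℝ) / 113) ^ s := by
  have hn0 : (0 : ℝ) < n := by exact_mod_cast hn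
  have hy : (0 : ℝ) ≤ 15 * ((s : ℝ) / (256 * n)) := by positivity
  have h1 : (1 + 15 * ((s : ℝ) / (256 * n))) ^ n ≤ Real.exp (15 * s / 256) := by
    have h2 : 1 + 15 * ((s : ℝ) / (256 * n)) ≤ Real.exp (15 * ((s : ℝ) / (256 * n))) := by
      rw [add_comm]
      exact Real.add_one_le_exp _
    have h3 := pow_le_pow_left₀ (by positivity) h2 n
    rw [← Real.exp_nat_mul] at h3
    have h4 : (n : ℝ) * (15 * ((s : ℝ) / (256 * n))) = 15 * s / 256 := by
      field_simp
    rw [h4] at h3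
    exact h3
  have h5 : ((1 + 15 * ((s : ℝ) / (256 * n))) ^ n) ^ 2 ≤ Real.exp (15 * s / 256) ^ 2 :=
    pow_le_pow_left₀ (by positivity) h1 2
  have h6 : Real.exp (15 * s / 256) ^ 2 = Real.exp (15 / 128) ^ s := by
    rw [← Real.exp_nat_mul, ← Real.exp_nat_mul]
    congr 1
    push_cast
    ring
  have h7 : Real.exp (15 / 128) ≤ 128 / 113 := by
    have h8 := Real.add_one_le_exp (-(15 / 128) : ℝ)
    rw [Real.exp_neg] at h8
    have h9 : (0 : ℝ) < Real.exp (15 / 128) := Real.exp_pos _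
    have h10 : (113 / 128 : ℝ) * Real.exp (15 / 128) ≤ 1 := by
      have h11 := mul_le_mul_of_nonneg_right h8 h9.le
      rw [inv_mul_cancel₀ h9.ne'] at h11
      linarith
    linarith
  rw [h6] at h5
  exact h5.trans (pow_le_pow_left₀ (Real.exp_pos _).le h7 s)

open Classical in
/-- P11. `union_count` with `x = 15/16`, `y = s / (256 n)`: with `ρ = n/s ≥ 2`: `λ = 1 + 15 y`, `λ^(2n) ≤ e^(30 n y) = e^(30 s/256)`, `x^(-2s) = (16/15)^(2s) ≤ e^(0.1291 s)`, `y^(-t) = (256 ρ)^t ≤ (256 ρ)^(s/64)`, `1/choose ≤ ρ^(-s)`. The exponent of the bracket / 4 is at most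
`s (0.1291 + 0.1172 + 0.0867 - (63/64) log ρ) ≤ s (log 0.9 - (2/s) log ρ)`, because `0.3330 + 0.1054 ≤ (63/64 - 2/129) log 2 ≤ (63/64 - 2/s) log ρ`. -/
theorem exp_term (n s t : ℕ) (hs : 129 ≤ s) (hn : 2 * s ≤ n) (ht : 64 * t < s) :
    ((univ.filter (fun p : Equiv.Perm (Fin n) × Equiv.Perm (Fin n) =>
      ∃ X : Finset (Fin n), X.card = s ∧ ax (sp p) X ≤ t)).card : ℝ) ≤
      (n.factorial : ℝ) ^ 2 * (4 * (9 / 10) ^ s * ((s : ℝ) / n) ^ 2) := by
  have hs0 : (0 : ℝ) < s := by exact_mod_cast (by omega : 0 < s)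
  have hn0 : (0 : ℝ) < n := by exact_mod_cast (by omega : 0 < n)
  have hsn : 2 * (s : ℝ) ≤ n := by exact_mod_cast hn
  have hy0 : (0 : ℝ) < (s : ℝ) / (256 * n) := by positivity
  have hy1 : (s : ℝ) / (256 * n) ≤ 1 := by
    rw [div_le_one (by positivity)]
    linarith
  have h0 := union_count n s t (by omega) (by omega) (15 / 16) ((s : ℝ) / (256 * n)) (by norm_num)
    (by norm_num) hy0 hy1
  refine h0.trans (mul_le_mul_of_nonneg_left ?_ (by positivity))
  obtain ⟨k, hk⟩ : ∃ k, s = k + t + 2 := ⟨s - t - 2, by omega⟩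
  have hC := choose_ge n s (by omega) (by omega)
  have hC0 : (0 : ℝ) < (n.choose s : ℝ) := lt_of_lt_of_le (by positivity) hC
  rw [div_le_iff₀ (by positivity)]
  have h1 : (1 + 15 / 16 * ((s : ℝ) / (256 * n)) / (1 - 15 / 16)) = 1 + 15 * ((s : ℝ) / (256 * n)) := by
    ring
  rw [h1]
  have h2 : (2 : ℝ) ^ k / 256 ^ t ≤
      ((s : ℝ) / n) ^ 2 * (((s : ℝ) / (256 * n)) ^ t * (n.choose s : ℝ)) := by
    have h3 : ((s : ℝ) / n) ^ 2 * (((s : ℝ) / (256 * n)) ^ t * ((n : ℝ) / s) ^ s) =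
        ((n : ℝ) / s) ^ k / 256 ^ t := by
      have h4 : ((n : ℝ) / s) ^ s = ((n : ℝ) / s) ^ k * ((n : ℝ) / s) ^ t * ((n : ℝ) / s) ^ 2 := by
        rw [← pow_add, ← pow_add, ← hk]
      have h5 : (s : ℝ) / (256 * n) = (s / n) / 256 := by
        field_simp
      have h6 : ((s : ℝ) / n) ^ t * ((n : ℝ) / s) ^ t = 1 := by
        rw [← mul_pow]
        have : (s : ℝ) / n * (n / s) = 1 := by field_simp
        rw [this, one_pow]
      have h7 : ((s : ℝ) / n) ^ 2 * ((n : ℝ) / s) ^ 2 = 1 := by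
        rw [← mul_pow]
        have : (s : ℝ) / n * (n / s) = 1 := by field_simp
        rw [this, one_pow]
      rw [h4, h5, div_pow (s / n : ℝ) 256 t]
      calc ((s : ℝ) / n) ^ 2 * (((s : ℝ) / n) ^ t / 256 ^ t *
            (((n : ℝ) / s) ^ k * ((n : ℝ) / s) ^ t * ((n : ℝ) / s) ^ 2)) =
            (((s : ℝ) / n) ^ 2 * ((n : ℝ) / s) ^ 2) * (((s : ℝ) / n) ^ t * ((n : ℝ) / s) ^ t) *
              (((n : ℝ) / s) ^ k / 256 ^ t) := by ring
        _ = ((n : ℝ) / s) ^ k / 256 ^ t := by rw [h6, h7]; ring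
    calc (2 : ℝ) ^ k / 256 ^ t ≤ ((n : ℝ) / s) ^ k / 256 ^ t := by
          apply div_le_div_of_nonneg_right _ (by positivity)
          apply pow_le_pow_left₀ (by norm_num)
          rw [le_div_iff₀ hs0]
          exact hsn
      _ = ((s : ℝ) / n) ^ 2 * (((s : ℝ) / (256 * n)) ^ t * ((n : ℝ) / s) ^ s) := h3.symm
      _ ≤ _ := by
          apply mul_le_mul_of_nonneg_left _ (by positivity)
          exact mul_le_mul_of_nonneg_left hC (by positivity)
  have h8 := exp_term_exp n s (by omega)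
  have h9 := exp_term_num s t k hs ht hk
  calc 4 * ((1 + 15 * ((s : ℝ) / (256 * n))) ^ n) ^ 2 ≤
        4 * ((9 / 10) ^ s * ((15 / 16) ^ (2 * s) * ((2 : ℝ) ^ k / 256 ^ t))) :=
        mul_le_mul_of_nonneg_left (h8.trans h9) (by norm_num)
    _ ≤ 4 * ((9 / 10) ^ s * ((15 / 16) ^ (2 * s) *
        (((s : ℝ) / n) ^ 2 * (((s : ℝ) / (256 * n)) ^ t * (n.choose s : ℝ))))) := by
        apply mul_le_mul_of_nonneg_left _ (by norm_num)
        apply mul_le_mul_of_nonneg_left _ (by positivity)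
        exact mul_le_mul_of_nonneg_left h2 (by positivity)
    _ = 4 * (9 / 10) ^ s * ((s : ℝ) / n) ^ 2 *
        ((15 / 16) ^ (2 * s) * ((s : ℝ) / (256 * n)) ^ t * (n.choose s : ℝ)) := by ring
-- END exp_term

-- BEGIN exp_lim
open Classical in
theorem exp_lim_bound (n : ℕ) (hn : 2 ≤ n) :
    ((univ.filter (fun p : Equiv.Perm (Fin n) × Equiv.Perm (Fin n) => ¬ Expands (sp p) 64)).card : ℝ) ≤
      (n.factorial : ℝ) ^ 2 * (4 * (∑' s : ℕ, (s : ℝ) ^ 2 * (9 / 10 : ℝ) ^ s) / (n : ℝ) ^ 2) := by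
  have hsub : univ.filter (fun p : Equiv.Perm (Fin n) × Equiv.Perm (Fin n) => ¬ Expands (sp p) 64) ⊆
      ((range (n + 1)).filter (fun s => 129 ≤ s ∧ 2 * s ≤ n)).biUnion
        (fun s => univ.filter (fun p : Equiv.Perm (Fin n) × Equiv.Perm (Fin n) =>
          ∃ X : Finset (Fin n), X.card = s ∧ ax (sp p) X ≤ (s - 1) / 64)) := by
    intro p hp
    rw [mem_filter, Expands] at hp
    push Not at hp
    obtain ⟨_, X, hX, hX2, hX3⟩ := hp
    rw [Fintype.card_fin] at hX2
    have hne : X ≠ univ := by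
      intro h
      rw [h, card_univ, Fintype.card_fin] at hX2
      omega
    have h2 := ax_two (sp p) (ham_sp n hn p) X hX hne
    rw [mem_biUnion]
    refine ⟨X.card, ?_, ?_⟩
    · rw [mem_filter, mem_range]
      refine ⟨by omega, by omega, hX2⟩
    · rw [mem_filter]
      refine ⟨mem_univ _, X, rfl, ?_⟩
      rw [Nat.le_div_iff_mul_le (by norm_num)]
      omega
  have hn0 : (0 : ℝ) < n := by
    have : 0 < n := by omega
    exact_mod_cast this
  have hsum : Summable (fun s : ℕ => (s : ℝ) ^ 2 * (9 / 10 : ℝ) ^ s) :=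
    summable_pow_mul_geometric_of_norm_lt_one 2 (by rw [Real.norm_of_nonneg (by norm_num)]; norm_num)
  have hle : ∑ s ∈ (range (n + 1)).filter (fun s => 129 ≤ s ∧ 2 * s ≤ n), (s : ℝ) ^ 2 * (9 / 10 : ℝ) ^ s ≤
      ∑' s : ℕ, (s : ℝ) ^ 2 * (9 / 10 : ℝ) ^ s :=
    hsum.sum_le_tsum _ (fun s _ => by positivity)
  calc ((univ.filter (fun p : Equiv.Perm (Fin n) × Equiv.Perm (Fin n) => ¬ Expands (sp p) 64)).card : ℝ)
      ≤ ((((range (n + 1)).filter (fun s => 129 ≤ s ∧ 2 * s ≤ n)).biUnion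
        (fun s => univ.filter (fun p : Equiv.Perm (Fin n) × Equiv.Perm (Fin n) =>
          ∃ X : Finset (Fin n), X.card = s ∧ ax (sp p) X ≤ (s - 1) / 64))).card : ℝ) := by
        exact_mod_cast card_le_card hsub
    _ ≤ ((∑ s ∈ (range (n + 1)).filter (fun s => 129 ≤ s ∧ 2 * s ≤ n),
        (univ.filter (fun p : Equiv.Perm (Fin n) × Equiv.Perm (Fin n) =>
          ∃ X : Finset (Fin n), X.card = s ∧ ax (sp p) X ≤ (s - 1) / 64)).card : ℕ) : ℝ) := by
        exact_mod_cast card_biUnion_le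
    _ = ∑ s ∈ (range (n + 1)).filter (fun s => 129 ≤ s ∧ 2 * s ≤ n),
        ((univ.filter (fun p : Equiv.Perm (Fin n) × Equiv.Perm (Fin n) =>
          ∃ X : Finset (Fin n), X.card = s ∧ ax (sp p) X ≤ (s - 1) / 64)).card : ℝ) := by
        push_cast
        rfl
    _ ≤ ∑ s ∈ (range (n + 1)).filter (fun s => 129 ≤ s ∧ 2 * s ≤ n),
        (n.factorial : ℝ) ^ 2 * (4 / (n : ℝ) ^ 2 * ((s : ℝ) ^ 2 * (9 / 10 : ℝ) ^ s)) := by
        refine sum_le_sum fun s hs => ?_
        rw [mem_filter] at hs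
        have h1 := exp_term n s ((s - 1) / 64) hs.2.1 hs.2.2 (by
          have := Nat.div_mul_le_self (s - 1) 64
          omega)
        refine h1.trans (le_of_eq ?_)
        rw [div_pow]
        ring
    _ = (n.factorial : ℝ) ^ 2 * (4 / (n : ℝ) ^ 2 * ∑ s ∈ (range (n + 1)).filter (fun s => 129 ≤ s ∧ 2 * s ≤ n),
        ((s : ℝ) ^ 2 * (9 / 10 : ℝ) ^ s)) := by
        rw [mul_sum, mul_sum]
    _ ≤ (n.factorial : ℝ) ^ 2 * (4 / (n : ℝ) ^ 2 * ∑' s : ℕ, (s : ℝ) ^ 2 * (9 / 10 : ℝ) ^ s) := by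
        gcongr
    _ = _ := by ring

open Classical in
/-- P12. If `Expands (sp p) 64` fails there is `X` with `s = |X|`, `2s ≤ n`, `64 * ax (sp p) X < s`; `ax ≥ 2` (`ax_two`, `ham_sp`; `X ≠ univ` as `2s ≤ n`), so `s ≥ 129`. `exp_term` with `t = (s - 1) / 64`; the sum over `s ≤ n` of `4 (9/10)^s s²/n²` is at most `C / n²`
(`summable_pow_mul_geometric_of_norm_lt_one`). -/
theorem exp_lim : Tendsto (fun n : ℕ => ((univ.filter (fun p : Equiv.Perm (Fin n) × Equiv.Perm (Fin n) =>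
    ¬ Expands (sp p) 64)).card : ℝ) / (n.factorial : ℝ) ^ 2) atTop (𝓝 0) := by
  have h0 : Tendsto (fun n : ℕ => 4 * (∑' s : ℕ, (s : ℝ) ^ 2 * (9 / 10 : ℝ) ^ s) / (n : ℝ) ^ 2) atTop (𝓝 0) :=
    (tendsto_const_div_pow (4 * (∑' s : ℕ, (s : ℝ) ^ 2 * (9 / 10 : ℝ) ^ s)) 2 two_ne_zero).comp
      tendsto_natCast_atTop_atTop
  refine squeeze_zero' (Eventually.of_forall fun n => by positivity) ?_ h0
  filter_upwards [eventually_ge_atTop 2] with n hn
  rw [div_le_iff₀ (by positivity), mul_comm]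
  exact exp_lim_bound n hn
-- END exp_lim

end Hlc
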