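import Pool.Agent.Hlc.Det
import Pool.Agent.Hlc.Prb

/-!
# Hlc FIN: the theorem
-/

set_option autoImplicit false

namespace Hlc

open Finset Filter Topology

-- BEGIN lim_gen
open Classical in
/-- F1. `1 - (fraction of `¬ Sparse`) - (fraction of `¬ Expands`) ≤` the fraction of `P n` (`≤ 1`) for `n ≥ n₀`: `|Perm × Perm| = (n!)²`; squeeze (`sparse_lim`, `exp_lim`). -/
theorem lim_gen (P : (n : ℕ) → Equiv.Perm (Fin n) × Equiv.Perm (Fin n) → Prop) (n₀ : ℕ)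
    (h : ∀ n p, n₀ ≤ n → Sparse (sp p) (3 * (Nat.log 2 n / 20)) → Expands (sp p) 64 → P n p) :
    Tendsto (fun n : ℕ => (Nat.card {p : Equiv.Perm (Fin n) × Equiv.Perm (Fin n) // P n p} : ℝ) / (n.factorial : ℝ) ^ 2)
      atTop (𝓝 1) := by
  have hlow : Tendsto (fun n : ℕ => (1 : ℝ) -
      ((univ.filter (fun p : Equiv.Perm (Fin n) × Equiv.Perm (Fin n) =>
        ¬ Sparse (sp p) (3 * (Nat.log 2 n / 20)))).card : ℝ) / (n.factorial : ℝ) ^ 2 -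
      ((univ.filter (fun p : Equiv.Perm (Fin n) × Equiv.Perm (Fin n) =>
        ¬ Expands (sp p) 64)).card : ℝ) / (n.factorial : ℝ) ^ 2) atTop (𝓝 1) := by
    have h1 := (tendsto_const_nhds (x := (1 : ℝ))).sub sparse_lim
    have h2 := h1.sub exp_lim
    simpa using h2
  have hcardP : ∀ n : ℕ, Nat.card {p : Equiv.Perm (Fin n) × Equiv.Perm (Fin n) // P n p} =
      (univ.filter (fun p : Equiv.Perm (Fin n) × Equiv.Perm (Fin n) => P n p)).card := by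
    intro n
    rw [Nat.card_eq_fintype_card, Fintype.card_subtype]
  have htot : ∀ n : ℕ, ((univ : Finset (Equiv.Perm (Fin n) × Equiv.Perm (Fin n))).card : ℝ) = (n.factorial : ℝ) ^ 2 := by
    intro n
    rw [card_univ, Fintype.card_prod, Fintype.card_perm, Fintype.card_fin]
    push_cast
    ring
  refine tendsto_of_tendsto_of_tendsto_of_le_of_le' hlow (tendsto_const_nhds (x := (1 : ℝ))) ?_ ?_
  · filter_upwards [eventually_ge_atTop n₀] with n hn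
    have hpos : (0 : ℝ) < (n.factorial : ℝ) ^ 2 := by positivity
    set A := univ.filter (fun p : Equiv.Perm (Fin n) × Equiv.Perm (Fin n) => ¬ Sparse (sp p) (3 * (Nat.log 2 n / 20))) with hA
    set B := univ.filter (fun p : Equiv.Perm (Fin n) × Equiv.Perm (Fin n) => ¬ Expands (sp p) 64) with hB
    set C := univ.filter (fun p : Equiv.Perm (Fin n) × Equiv.Perm (Fin n) => P n p) with hC
    have h1 : (univ : Finset (Equiv.Perm (Fin n) × Equiv.Perm (Fin n))) ⊆ A ∪ (B ∪ C) := by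
      intro p _
      by_cases h2 : Sparse (sp p) (3 * (Nat.log 2 n / 20))
      · by_cases h3 : Expands (sp p) 64
        · exact mem_union_right _ (mem_union_right _ (mem_filter.2 ⟨mem_univ _, h n p hn h2 h3⟩))
        · exact mem_union_right _ (mem_union_left _ (mem_filter.2 ⟨mem_univ _, h3⟩))
      · exact mem_union_left _ (mem_filter.2 ⟨mem_univ _, h2⟩)
    have h2 := (card_le_card h1).trans ((card_union_le _ _).trans (Nat.add_le_add_left (card_union_le _ _) _))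
    have h3 : (n.factorial : ℝ) ^ 2 ≤ (A.card : ℝ) + ((B.card : ℝ) + (C.card : ℝ)) := by
      rw [← htot n]
      exact_mod_cast h2
    rw [hcardP n]
    have h4 : (1 : ℝ) = (n.factorial : ℝ) ^ 2 / (n.factorial : ℝ) ^ 2 := (div_self hpos.ne').symm
    rw [h4, ← sub_div, ← sub_div]
    exact div_le_div_of_nonneg_right (by linarith) hpos.le
  · refine Eventually.of_forall (fun n => ?_)
    have hpos : (0 : ℝ) < (n.factorial : ℝ) ^ 2 := by positivity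
    rw [hcardP n, div_le_one hpos, ← htot n]
    exact_mod_cast card_le_card (filter_subset _ _)
-- END lim_gen

-- BEGIN consts_k
private theorem consts_k_real (A η : ℝ) (hA : 1 ≤ A) (hη : 0 < η) (hη1 : η < 1) : ∃ k₀ : ℕ, ∀ k : ℕ, k₀ ≤ k →
    ∀ (t : ℕ), (k : ℝ) / (2 * A) ≤ t → ∀ Q : ℝ, 0 ≤ Q → Q ≤ Real.exp (η / (8 * A)) ^ k →
      4 * ((k : ℝ) * A * (3 * Q + 1)) * (1 - η) ^ t ≤ 1 := by
  have hA0 : 0 < A := by linarith
  set a : ℝ := η / (8 * A) with ha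
  have ha0 : 0 < a := by positivity
  obtain ⟨k₀, hk₀⟩ := exists_nat_ge (32 * A / (9 * a ^ 2))
  refine ⟨k₀ + 1, fun k hk t ht Q hQ0 hQ => ?_⟩
  have hkr : (k₀ : ℝ) + 1 ≤ k := by exact_mod_cast hk
  have hk0 : (0 : ℝ) < k := by
    have : (0 : ℝ) ≤ k₀ := Nat.cast_nonneg _
    linarith
  have h1 : (1 - η) ^ t ≤ Real.exp (-(4 * a * k)) := by
    have e1 : 1 - η ≤ Real.exp (-η) := by
      have := Real.add_one_le_exp (-η)
      linarith
    calc (1 - η) ^ t ≤ Real.exp (-η) ^ t := pow_le_pow_left₀ (by linarith) e1 t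
      _ = Real.exp (t * (-η)) := by rw [← Real.exp_nat_mul]
      _ ≤ Real.exp (-(4 * a * k)) := by
          apply Real.exp_le_exp.2
          have e2 : 4 * a * k = η * (k / (2 * A)) := by
            rw [ha]
            field_simp
            ring
          rw [e2]
          nlinarith
  have h2 : Real.exp a ^ k = Real.exp (a * k) := by
    rw [← Real.exp_nat_mul]
    congr 1
    ring
  rw [h2] at hQ
  have h3 : 3 * Q + 1 ≤ 4 * Real.exp (a * k) := by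
    have : 1 ≤ Real.exp (a * k) := Real.one_le_exp (by positivity)
    linarith
  have hexp : Real.exp (a * k) * Real.exp (-(4 * a * k)) = Real.exp (-(3 * a * k)) := by
    rw [← Real.exp_add]
    congr 1
    ring
  have h4 : 4 * ((k : ℝ) * A * (3 * Q + 1)) * (1 - η) ^ t ≤
      16 * A * (k * Real.exp (-(3 * a * k))) := by
    calc 4 * ((k : ℝ) * A * (3 * Q + 1)) * (1 - η) ^ t
        ≤ 4 * ((k : ℝ) * A * (4 * Real.exp (a * k))) * Real.exp (-(4 * a * k)) := by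
          apply mul_le_mul _ h1 (pow_nonneg (by linarith) _) (by positivity)
          apply mul_le_mul_of_nonneg_left _ (by norm_num)
          exact mul_le_mul_of_nonneg_left h3 (by positivity)
      _ = 16 * A * (k * (Real.exp (a * k) * Real.exp (-(4 * a * k)))) := by ring
      _ = 16 * A * (k * Real.exp (-(3 * a * k))) := by rw [hexp]
  refine h4.trans ?_
  have h5 : (3 * a * k) ^ 2 / 2 ≤ Real.exp (3 * a * k) := by
    have := Real.quadratic_le_exp_of_nonneg (show 0 ≤ 3 * a * k by positivity)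
    have h0 : 0 ≤ 3 * a * k := by positivity
    linarith
  have h6 : 32 * A / (9 * a ^ 2) ≤ k := by linarith
  rw [div_le_iff₀ (by positivity)] at h6
  rw [Real.exp_neg, ← div_eq_mul_inv, ← mul_div_assoc, div_le_one (Real.exp_pos _)]
  refine le_trans ?_ h5
  have h7 : 16 * A * k ≤ (k * (9 * a ^ 2)) / 2 * k := by
    apply mul_le_mul_of_nonneg_right _ hk0.le
    linarith
  calc 16 * A * k ≤ (k * (9 * a ^ 2)) / 2 * k := h7
    _ = (3 * a * k) ^ 2 / 2 := by ring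

/-- F2. `A = 5^(4R)`, `η = 1/(64 * 5^(2R))`, `t = (k - 2 - 5^(2R)) / A` (natural numbers), `t ≥ k / (2A)` for large `k`; `(1 - η)^t ≤ exp (-η t)`; `ε` with `1 + ε = exp (η / (8A))` or smaller: the left side is at most `4 k A (3 exp(η k/(8A)) + 1) exp (-η k/(2A)) → 0`. -/
theorem consts_k (R : ℕ) : ∃ ε : ℝ, 0 < ε ∧ ∃ k₀ : ℕ, ∀ k : ℕ, k₀ ≤ k → ∃ t : ℕ,
    t * 5 ^ (4 * R) + 5 ^ (2 * R) + 2 ≤ k ∧ ∀ Q : ℕ, (Q : ℝ) ≤ (1 + ε) ^ k →
      4 * ((k : ℝ) * 5 ^ (4 * R) * (3 * Q + 1)) * (1 - 1 / (64 * (5 : ℝ) ^ (2 * R))) ^ t ≤ 1 := by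
  have hA : (1 : ℝ) ≤ 5 ^ (4 * R) := one_le_pow₀ (by norm_num)
  have hB : (1 : ℝ) ≤ 5 ^ (2 * R) := one_le_pow₀ (by norm_num)
  have hη : (0 : ℝ) < 1 / (64 * (5 : ℝ) ^ (2 * R)) := by positivity
  have hη1 : 1 / (64 * (5 : ℝ) ^ (2 * R)) < 1 := by
    rw [div_lt_one (by positivity)]
    linarith
  obtain ⟨k₁, hk₁⟩ := consts_k_real (5 ^ (4 * R)) (1 / (64 * (5 : ℝ) ^ (2 * R))) hA hη hη1
  refine ⟨Real.exp (1 / (64 * (5 : ℝ) ^ (2 * R)) / (8 * 5 ^ (4 * R))) - 1, ?_,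
    k₁ + 2 * (2 + 5 ^ (2 * R) + 5 ^ (4 * R)), fun k hk => ?_⟩
  · rw [sub_pos]
    exact Real.one_lt_exp_iff.2 (by positivity)
  · have q1 : 1 ≤ 5 ^ (2 * R) := Nat.one_le_pow _ _ (by norm_num)
    have q2 : 1 ≤ 5 ^ (4 * R) := Nat.one_le_pow _ _ (by norm_num)
    refine ⟨(k - 2 - 5 ^ (2 * R)) / 5 ^ (4 * R), ?_, fun Q hQ => ?_⟩
    · have := Nat.div_mul_le_self (k - 2 - 5 ^ (2 * R)) (5 ^ (4 * R))
      omega
    · refine hk₁ k (by omega) _ ?_ Q (Nat.cast_nonneg _) ?_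
      · have h1 := Nat.lt_div_mul_add (show 0 < 5 ^ (4 * R) by positivity) (a := k - 2 - 5 ^ (2 * R))
        have h2 : k < (k - 2 - 5 ^ (2 * R)) / 5 ^ (4 * R) * 5 ^ (4 * R) + 5 ^ (4 * R) + 2 + 5 ^ (2 * R) := by
          omega
        have h3 : (k : ℝ) < ((k - 2 - 5 ^ (2 * R)) / 5 ^ (4 * R) : ℕ) * 5 ^ (4 * R) + 5 ^ (4 * R) + 2 + 5 ^ (2 * R) := by
          exact_mod_cast h2
        have h4 : (2 : ℝ) * (2 + 5 ^ (2 * R) + 5 ^ (4 * R)) ≤ k := by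
          have : 2 * (2 + 5 ^ (2 * R) + 5 ^ (4 * R)) ≤ k := by omega
          exact_mod_cast this
        rw [div_le_iff₀ (by positivity)]
        nlinarith
      · rwa [add_sub_cancel] at hQ
-- END consts_k

-- BEGIN consts_n
theorem consts_n (R : ℕ) : ∃ n₀ : ℕ, ∀ n : ℕ, n₀ ≤ n → 8 * R ≤ Nat.log 2 n / 20 ∧
    ∀ k : ℕ, (k : ℝ) ≤ 1 / 80 * Real.log n → k ≤ Nat.log 2 n / 20 / 2 := by
  refine ⟨2 ^ (160 * R + 1), fun n hn => ?_⟩
  have hl : 160 * R + 1 ≤ Nat.log 2 n := Nat.le_log_of_pow_le (by norm_num) hn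
  refine ⟨by omega, fun k hk => ?_⟩
  have hn0 : 0 < n := lt_of_lt_of_le (by positivity) hn
  have h1 : n < 2 ^ (Nat.log 2 n + 1) := Nat.lt_pow_succ_log_self (by norm_num) n
  have h2 : Real.log n ≤ ((Nat.log 2 n + 1 : ℕ) : ℝ) * Real.log 2 := by
    rw [← Real.log_pow]
    refine Real.log_le_log (by exact_mod_cast hn0) ?_
    exact_mod_cast h1.le
  have h3 := Real.log_two_lt_d9
  have h4 : (0 : ℝ) ≤ ((Nat.log 2 n + 1 : ℕ) : ℝ) := by positivity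
  have h5 : (k : ℝ) * 80 ≤ ((Nat.log 2 n + 1 : ℕ) : ℝ) := by nlinarith
  have h6 : k * 80 ≤ Nat.log 2 n + 1 := by exact_mod_cast h5
  omega
-- END consts_n

-- BEGIN consts_d
theorem consts_d (ε γ : ℝ) (hε : 0 < ε) (hγ : 0 < γ) (k₀ : ℕ) : ∃ δ : ℝ, 0 < δ ∧ ∃ n₀ : ℕ, ∀ n : ℕ, n₀ ≤ n →
    2 ≤ (n : ℝ) ^ δ ∧ ∃ k : ℕ, k₀ ≤ k ∧ (k : ℝ) ≤ γ * Real.log n ∧ (k : ℝ) * (n : ℝ) ^ δ ≤ (1 + ε) ^ k := by
  have hle : 0 < Real.log (1 + ε) := Real.log_pos (by linarith)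
  have hδ : 0 < γ * Real.log (1 + ε) / 2 := by positivity
  refine ⟨γ * Real.log (1 + ε) / 2, hδ, ?_⟩
  generalize hδe : γ * Real.log (1 + ε) / 2 = δ at *
  have hcast : Tendsto (fun n : ℕ => (n : ℝ)) atTop atTop := tendsto_natCast_atTop_atTop
  have e1 : ∀ᶠ n : ℕ in atTop, (2 : ℝ) ≤ (n : ℝ) ^ δ :=
    ((tendsto_rpow_atTop hδ).comp hcast).eventually_ge_atTop 2
  have e2 : ∀ᶠ n : ℕ in atTop, (k₀ : ℝ) + 1 ≤ γ * Real.log n :=
    ((Real.tendsto_log_atTop.comp hcast).const_mul_atTop hγ).eventually_ge_atTop _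
  have e3 : ∀ᶠ n : ℕ in atTop, ‖Real.log n‖ ≤ 1 / ((1 + ε) * γ) * ‖(n : ℝ) ^ δ‖ := by
    have := (isLittleO_log_rpow_atTop hδ).def (c := 1 / ((1 + ε) * γ)) (by positivity)
    exact hcast.eventually this
  have e4 : ∀ᶠ n : ℕ in atTop, 1 ≤ n := eventually_ge_atTop 1
  obtain ⟨n₀, h⟩ := eventually_atTop.1 (e1.and (e2.and (e3.and e4)))
  refine ⟨n₀, fun n hn => ?_⟩
  obtain ⟨h1, h2, h3, h4⟩ := h n hn
  refine ⟨h1, ⌊γ * Real.log n⌋₊, ?_, ?_, ?_⟩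
  · exact Nat.le_floor (by linarith)
  · exact Nat.floor_le (by linarith [Nat.cast_nonneg (α := ℝ) k₀])
  · have hn0 : (0 : ℝ) < n := by exact_mod_cast h4
    have hg0 : 0 ≤ γ * Real.log n := by linarith [Nat.cast_nonneg (α := ℝ) k₀]
    have hpd : 0 < (n : ℝ) ^ δ := Real.rpow_pos_of_pos hn0 _
    have hk1 : ((⌊γ * Real.log n⌋₊ : ℕ) : ℝ) ≤ γ * Real.log n := Nat.floor_le hg0
    have hk2 : γ * Real.log n - 1 ≤ ((⌊γ * Real.log n⌋₊ : ℕ) : ℝ) := by linarith [Nat.lt_floor_add_one (γ * Real.log n)]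
    have h5 : (1 + ε) ^ (γ * Real.log n - 1) ≤ (1 + ε) ^ (⌊γ * Real.log n⌋₊ : ℕ) := by
      rw [← Real.rpow_natCast]
      exact Real.rpow_le_rpow_of_exponent_le (by linarith) hk2
    have h6 : (1 + ε) ^ (γ * Real.log n - 1) = (n : ℝ) ^ δ * (n : ℝ) ^ δ / (1 + ε) := by
      rw [Real.rpow_sub_one (by linarith), ← Real.rpow_add hn0]
      congr 1
      rw [Real.rpow_def_of_pos (by linarith), Real.rpow_def_of_pos hn0]
      congr 1
      rw [← hδe]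
      ring
    have h7 : γ * Real.log n ≤ (n : ℝ) ^ δ / (1 + ε) := by
      have h8 : Real.log n ≤ 1 / ((1 + ε) * γ) * (n : ℝ) ^ δ := by
        have := (le_abs_self (Real.log n)).trans h3
        rwa [Real.norm_of_nonneg hpd.le] at this
      have h9 := mul_le_mul_of_nonneg_left h8 hγ.le
      refine h9.trans (le_of_eq ?_)
      field_simp
    calc ((⌊γ * Real.log n⌋₊ : ℕ) : ℝ) * (n : ℝ) ^ δ ≤ ((n : ℝ) ^ δ / (1 + ε)) * (n : ℝ) ^ δ :=
          mul_le_mul_of_nonneg_right (hk1.trans h7) hpd.le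
      _ = (n : ℝ) ^ δ * (n : ℝ) ^ δ / (1 + ε) := by ring
      _ = (1 + ε) ^ (γ * Real.log n - 1) := h6.symm
      _ ≤ _ := h5
-- END consts_d

-- BEGIN growth_col
/-- F5. `q = 64`, `R = 129`, `ε`, `k₀` from `consts_k`, `γ = 1/80`, `n₀` from `consts_n` (and `n₀ ≥ 2`): `ham_sp`, `hg_adj`, `det` with `Q = ⌊(1 + ε)^k⌋₊`. -/
theorem growth_col : ∃ ε γ : ℝ, 0 < ε ∧ 0 < γ ∧ ∃ k₀ n₀ : ℕ, ∀ (n : ℕ) (p : Equiv.Perm (Fin n) × Equiv.Perm (Fin n)), n₀ ≤ n →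
    Sparse (sp p) (3 * (Nat.log 2 n / 20)) → Expands (sp p) 64 → ∀ L : Fin n → Finset ℕ, (∀ v, 3 ≤ (L v).card) →
      Growth ε γ k₀ n (HG n p) L → LCol (HG n p) L := by
  obtain ⟨R, hR⟩ : ∃ R : ℕ, 2 * 64 + 1 ≤ R := ⟨_, le_rfl⟩
  obtain ⟨ε, hε, k₀, hk₀⟩ := consts_k R
  obtain ⟨n₀, hn₀⟩ := consts_n R
  refine ⟨ε, 1 / 80, hε, by norm_num, k₀, max n₀ 2, ?_⟩
  intro n p hn hS hE L hL hGr
  have hn1 : n₀ ≤ n := le_trans (le_max_left _ _) hn
  have hn2 : 2 ≤ n := le_trans (le_max_right _ _) hn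
  obtain ⟨k, hk1, hk2, hk3⟩ := hGr
  obtain ⟨t, ht1, ht2⟩ := hk₀ k hk1
  obtain ⟨h8, hkK⟩ := hn₀ n hn1
  have hpos : (0 : ℝ) ≤ (1 + ε) ^ k := by positivity
  exact det (sp p) (ham_sp n hn2 p) (HG n p) (fun u v => hg_adj n hn2 p u v) L hL 64 (Nat.log 2 n / 20) R k t
    ⌊(1 + ε) ^ k⌋₊ (by norm_num) hR hE hS h8 (hkK k hk2) (fun c v => Nat.le_floor (hk3 c v)) ht1
    (ht2 _ (Nat.floor_le hpos))
-- END growth_col

-- BEGIN main
/-- F6. `growth_col` and `lim_gen`; for the second part `consts_d`, `path_cyc`; for the third also `reed_two` (`2 ≤ n^δ`). -/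
theorem main :
    (∃ ε γ : ℝ, 0 < ε ∧ 0 < γ ∧ ∃ k₀ : ℕ, Tendsto (fun n : ℕ => (Nat.card {p : Equiv.Perm (Fin n) × Equiv.Perm (Fin n) //
      ∀ L : Fin n → Finset ℕ, (∀ v, 3 ≤ (L v).card) → Growth ε γ k₀ n (HG n p) L → LCol (HG n p) L} : ℝ) /
        (n.factorial : ℝ) ^ 2) atTop (𝓝 1)) ∧
    (∃ δ : ℝ, 0 < δ ∧ Tendsto (fun n : ℕ => (Nat.card {p : Equiv.Perm (Fin n) × Equiv.Perm (Fin n) //
      ∀ L : Fin n → Finset ℕ, (∀ v, 3 ≤ (L v).card) →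
        (∀ c v, ((OddCyc (HG n p) L c v).ncard : ℝ) ≤ (n : ℝ) ^ δ) → LCol (HG n p) L} : ℝ) / (n.factorial : ℝ) ^ 2)
      atTop (𝓝 1)) ∧
    Tendsto (fun n : ℕ => (Nat.card {p : Equiv.Perm (Fin n) × Equiv.Perm (Fin n) //
      ∀ L : Fin n → Finset ℕ, (∀ v, 3 ≤ (L v).card) →
        (∀ v, ∀ c ∈ L v, {u | (HG n p).Adj v u ∧ c ∈ L u}.ncard ≤ 2) → LCol (HG n p) L} : ℝ) / (n.factorial : ℝ) ^ 2)
      atTop (𝓝 1) := by
  obtain ⟨ε, γ, hε, hγ, k₀, n₀, hmain⟩ := growth_col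
  obtain ⟨δ, hδ, n₁, hn₁⟩ := consts_d ε γ hε hγ k₀
  have hcyc : ∀ (n : ℕ) (p : Equiv.Perm (Fin n) × Equiv.Perm (Fin n)), max n₀ n₁ ≤ n →
      Sparse (sp p) (3 * (Nat.log 2 n / 20)) → Expands (sp p) 64 → ∀ L : Fin n → Finset ℕ, (∀ v, 3 ≤ (L v).card) →
        (∀ c v, ((OddCyc (HG n p) L c v).ncard : ℝ) ≤ (n : ℝ) ^ δ) → LCol (HG n p) L := by
    intro n p hn hS hE L hL hc
    obtain ⟨-, k, hk1, hk2, hk3⟩ := hn₁ n (le_trans (le_max_right _ _) hn)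
    refine hmain n p (le_trans (le_max_left _ _) hn) hS hE L hL ⟨k, hk1, hk2, ?_⟩
    intro c v
    have h1 : ((OddPath (HG n p) L c k v).ncard : ℝ) ≤ (k : ℝ) * ((OddCyc (HG n p) L c v).ncard : ℝ) := by
      exact_mod_cast path_cyc (HG n p) L c k v
    exact h1.trans ((mul_le_mul_of_nonneg_left (hc c v) (Nat.cast_nonneg k)).trans hk3)
  refine ⟨⟨ε, γ, hε, hγ, k₀, ?_⟩, ⟨δ, hδ, ?_⟩, ?_⟩
  · exact lim_gen (fun n p => ∀ L : Fin n → Finset ℕ, (∀ v, 3 ≤ (L v).card) → Growth ε γ k₀ n (HG n p) L → LCol (HG n p) L)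
      n₀ (fun n p hn hS hE L hL hg => hmain n p hn hS hE L hL hg)
  · exact lim_gen (fun n p => ∀ L : Fin n → Finset ℕ, (∀ v, 3 ≤ (L v).card) →
        (∀ c v, ((OddCyc (HG n p) L c v).ncard : ℝ) ≤ (n : ℝ) ^ δ) → LCol (HG n p) L)
      (max n₀ n₁) (fun n p hn hS hE L hL hc => hcyc n p hn hS hE L hL hc)
  · refine lim_gen (fun n p => ∀ L : Fin n → Finset ℕ, (∀ v, 3 ≤ (L v).card) →
        (∀ v, ∀ c ∈ L v, {u | (HG n p).Adj v u ∧ c ∈ L u}.ncard ≤ 2) → LCol (HG n p) L)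
      (max n₀ n₁) (fun n p hn hS hE L hL hc => hcyc n p hn hS hE L hL ?_)
    intro c v
    have h1 : ((OddCyc (HG n p) L c v).ncard : ℝ) ≤ 2 := by
      exact_mod_cast reed_two (HG n p) L hc c v
    exact h1.trans (hn₁ n (le_trans (le_max_right _ _) hn)).1
-- END main

end Hlc
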