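import Pool.Agent.Hlc.Defs

/-!
# Hlc GR: counting edges, balls
-/

set_option autoImplicit false

namespace Hlc

open Finset

variable {V : Type} [Fintype V] [DecidableEq V]

-- BEGIN ed_ax
/-- G1. `filter_card_add_filter_neg_card_eq_card`, `|X × Bool| = 2|X|`. -/
theorem ed_add_ax (s : Bool → Equiv.Perm V) (X : Finset V) : ed s X + ax s X = 2 * X.card := by
  unfold ed ax
  rw [Finset.card_filter_add_card_filter_not, card_product, card_univ, Fintype.card_bool, mul_comm]
-- END ed_ax

-- BEGIN ax_two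
/-- G2. For each `i` some `u ∈ X` has `s i u ∉ X` (`hs.tran i X`): the pairs `(u, true)`, `(u', false)`. -/
theorem ax_two (s : Bool → Equiv.Perm V) (hs : Ham s) (X : Finset V) (h1 : X.Nonempty) (h2 : X ≠ univ) : 2 ≤ ax s X := by
  have h : ∀ i : Bool, ∃ u ∈ X, s i u ∉ X := by
    intro i
    by_contra hc
    push Not at hc
    exact h2 (hs.tran i X h1 hc)
  obtain ⟨u, hu, hu'⟩ := h true
  obtain ⟨v, hv, hv'⟩ := h false
  have hsub : ({(u, true), (v, false)} : Finset (V × Bool)) ⊆
      (X ×ˢ (univ : Finset Bool)).filter (fun e => s e.2 e.1 ∉ X) := by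
    intro e he
    rw [Finset.mem_insert, Finset.mem_singleton] at he
    rcases he with rfl | rfl
    · exact Finset.mem_filter.2 ⟨Finset.mem_product.2 ⟨hu, Finset.mem_univ _⟩, hu'⟩
    · exact Finset.mem_filter.2 ⟨Finset.mem_product.2 ⟨hv, Finset.mem_univ _⟩, hv'⟩
  have hcard : ({(u, true), (v, false)} : Finset (V × Bool)).card = 2 := by
    rw [Finset.card_pair]
    simp
  calc 2 = ({(u, true), (v, false)} : Finset (V × Bool)).card := hcard.symm
    _ ≤ ax s X := Finset.card_le_card hsub
-- END ax_two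

-- BEGIN ax_compl
private theorem ax_compl_sum (s : Bool → Equiv.Perm V) (X : Finset V) :
    ax s X = ∑ i : Bool, (X.filter (fun u => s i u ∉ X)).card := by
  unfold ax
  rw [Finset.card_filter, Finset.sum_product_right]
  refine Finset.sum_congr rfl fun i _ => ?_
  rw [Finset.card_filter]

/-- G3. For each `i`: `#{u ∈ X : s i u ∉ X} = |X| - #{u ∈ X : s i u ∈ X}`, `#{u ∉ X : s i u ∈ X} = #{u : s i u ∈ X} - #{u ∈ X : s i u ∈ X}` and
`#{u : s i u ∈ X} = |X|` (`s i` is a bijection). Useful form: `ax s X = ∑ i, #{u ∈ X : s i u ∉ X}`. -/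
theorem ax_compl (s : Bool → Equiv.Perm V) (X : Finset V) : ax s Xᶜ = ax s X := by
  rw [ax_compl_sum, ax_compl_sum]
  refine Finset.sum_congr rfl fun i _ => ?_
  have e1 : (X.filter (fun u => s i u ∈ X)).card + (X.filter (fun u => s i u ∉ X)).card = X.card :=
    Finset.card_filter_add_card_filter_not (s := X) (fun u => s i u ∈ X)
  have e2 : (univ.filter (fun u => s i u ∈ X)).card = X.card := by
    have : univ.filter (fun u => s i u ∈ X) = X.map (s i).symm.toEmbedding := by
      ext u
      simp only [Finset.mem_filter, Finset.mem_univ, true_and, Finset.mem_map_equiv, Equiv.symm_symm]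
    rw [this, Finset.card_map]
  have e3 : (univ.filter (fun u => s i u ∈ X)).card =
      (X.filter (fun u => s i u ∈ X)).card + (Xᶜ.filter (fun u => s i u ∉ Xᶜ)).card := by
    rw [← Finset.card_union_of_disjoint]
    · congr 1
      ext u
      simp only [Finset.mem_filter, Finset.mem_univ, true_and, Finset.mem_union, Finset.mem_compl, not_not]
      by_cases hu : u ∈ X <;> simp [hu]
    · rw [Finset.disjoint_left]
      intro u hu hu'
      exact (Finset.mem_compl.1 (Finset.mem_filter.1 hu').1) (Finset.mem_filter.1 hu).1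
  omega
-- END ax_compl

-- BEGIN dg_union
/-- G4. -/
theorem dg_union (s : Bool → Equiv.Perm V) (v : V) (X Y : Finset V) (h : Disjoint X Y) :
    dg s v (X ∪ Y) = dg s v X + dg s v Y := by
  have h1 : ((univ : Finset Bool).filter (fun i => s i v ∈ X ∪ Y)).card =
      ((univ : Finset Bool).filter (fun i => s i v ∈ X)).card + ((univ : Finset Bool).filter (fun i => s i v ∈ Y)).card := by
    rw [← card_union_of_disjoint, ← filter_or]
    · congr 1
      ext i
      simp only [mem_filter, mem_union]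
    · rw [disjoint_filter]
      intro i _ hx hy
      exact (disjoint_left.1 h) hx hy
  have h2 : ((univ : Finset Bool).filter (fun i => (s i).symm v ∈ X ∪ Y)).card =
      ((univ : Finset Bool).filter (fun i => (s i).symm v ∈ X)).card +
        ((univ : Finset Bool).filter (fun i => (s i).symm v ∈ Y)).card := by
    rw [← card_union_of_disjoint, ← filter_or]
    · congr 1
      ext i
      simp only [mem_filter, mem_union]
    · rw [disjoint_filter]
      intro i _ hx hy
      exact (disjoint_left.1 h) hx hy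
  rw [dg, dg, dg, h1, h2]
  ring
-- END dg_union

-- BEGIN dg_basic
/-- G5. -/
theorem dg_univ (s : Bool → Equiv.Perm V) (v : V) : dg s v univ = 4 := by
  simp [dg]

theorem dg_mono (s : Bool → Equiv.Perm V) (v : V) (X Y : Finset V) (h : X ⊆ Y) : dg s v X ≤ dg s v Y := by
  unfold dg
  apply Nat.add_le_add
  · apply card_le_card
    intro i hi
    rw [mem_filter] at hi ⊢
    exact ⟨hi.1, h hi.2⟩
  · apply card_le_card
    intro i hi
    rw [mem_filter] at hi ⊢
    exact ⟨hi.1, h hi.2⟩

theorem dg_compl (s : Bool → Equiv.Perm V) (v : V) (X : Finset V) : dg s v X + dg s v Xᶜ = 4 := by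
  have h1 := Finset.card_filter_add_card_filter_not (s := (univ : Finset Bool)) (fun i => s i v ∈ X)
  have h2 := Finset.card_filter_add_card_filter_not (s := (univ : Finset Bool)) (fun i => (s i).symm v ∈ X)
  have h3 : (univ : Finset Bool).card = 2 := rfl
  unfold dg
  simp only [mem_compl]
  omega

/-- `dg s v X` is positive iff `v` is adjacent to a vertex of `X`. -/
theorem dg_pos (s : Bool → Equiv.Perm V) (v : V) (X : Finset V) : 1 ≤ dg s v X ↔ ∃ u ∈ X, adj s v u := by
  unfold dg adj
  constructor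
  · intro h
    rcases Nat.eq_zero_or_pos ((univ : Finset Bool).filter (fun i => s i v ∈ X)).card with h0 | h0
    · have h1 : 0 < ((univ : Finset Bool).filter (fun i => (s i).symm v ∈ X)).card := by omega
      obtain ⟨i, hi⟩ := card_pos.1 h1
      rw [mem_filter] at hi
      exact ⟨_, hi.2, i, Or.inr (by rw [Equiv.apply_symm_apply])⟩
    · obtain ⟨i, hi⟩ := card_pos.1 h0
      rw [mem_filter] at hi
      exact ⟨_, hi.2, i, Or.inl rfl⟩
  · rintro ⟨u, hu, i, h | h⟩
    · have h1 : 0 < ((univ : Finset Bool).filter (fun i => s i v ∈ X)).card :=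
        card_pos.2 ⟨i, by rw [mem_filter]; exact ⟨mem_univ _, by rw [h]; exact hu⟩⟩
      omega
    · have h1 : 0 < ((univ : Finset Bool).filter (fun i => (s i).symm v ∈ X)).card :=
        card_pos.2 ⟨i, by rw [mem_filter]; exact ⟨mem_univ _, by rw [← h, Equiv.symm_apply_apply]; exact hu⟩⟩
      omega
-- END dg_basic

-- BEGIN dg_comm
private theorem dg_comm_aux (s : Bool → Equiv.Perm V) (X Y : Finset V) :
    ∑ v ∈ X, ((univ : Finset Bool).filter (fun i => s i v ∈ Y)).card =
      ∑ w ∈ Y, ((univ : Finset Bool).filter (fun i => (s i).symm w ∈ X)).card := by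
  simp only [card_filter]
  rw [sum_comm, sum_comm (s := Y)]
  apply sum_congr rfl
  intro i _
  rw [← card_filter, ← card_filter]
  refine card_bij (fun v _ => s i v) ?_ ?_ ?_
  · intro v hv
    rw [mem_filter] at hv ⊢
    exact ⟨hv.2, by rw [Equiv.symm_apply_apply]; exact hv.1⟩
  · intro v _ v' _ h
    exact (s i).injective h
  · intro w hw
    rw [mem_filter] at hw
    exact ⟨(s i).symm w, by rw [mem_filter, Equiv.apply_symm_apply]; exact ⟨hw.2, hw.1⟩,
      by rw [Equiv.apply_symm_apply]⟩

/-- G6. Both sides are `∑ i, (#{(v, w) ∈ X × Y : s i v = w} + #{(v, w) ∈ X × Y : s i w = v})`. -/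
theorem dg_comm (s : Bool → Equiv.Perm V) (X Y : Finset V) : ∑ v ∈ X, dg s v Y = ∑ w ∈ Y, dg s w X := by
  unfold dg
  rw [sum_add_distrib, sum_add_distrib, dg_comm_aux s X Y, dg_comm_aux s Y X, add_comm]
-- END dg_comm

-- BEGIN sum_dg
private theorem sum_dg_aux (s : Bool → Equiv.Perm V) (X Y : Finset V) :
    ∑ v ∈ X, ((univ : Finset Bool).filter (fun i => s i v ∈ Y)).card =
      ∑ w ∈ Y, ((univ : Finset Bool).filter (fun i => (s i).symm w ∈ X)).card := by
  simp only [card_filter]
  rw [sum_comm, sum_comm (s := Y)]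
  apply sum_congr rfl
  intro i _
  rw [← card_filter, ← card_filter]
  refine card_bij (fun v _ => s i v) ?_ ?_ ?_
  · intro v hv
    rw [mem_filter] at hv ⊢
    exact ⟨hv.2, by rw [Equiv.symm_apply_apply]; exact hv.1⟩
  · intro v _ v' _ h
    exact (s i).injective h
  · intro w hw
    rw [mem_filter] at hw
    exact ⟨(s i).symm w, by rw [mem_filter, Equiv.apply_symm_apply]; exact ⟨hw.2, hw.1⟩,
      by rw [Equiv.apply_symm_apply]⟩

/-- G7. Every edge inside `X` is counted at both ends: `∑_{v ∈ X} [s i v ∈ X] = ∑_{v ∈ X} [(s i)⁻¹ v ∈ X]`, the number of edges `(u, i)` inside `X`. -/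
theorem sum_dg (s : Bool → Equiv.Perm V) (X : Finset V) : ∑ v ∈ X, dg s v X = 2 * ed s X := by
  have h : ed s X = ∑ v ∈ X, ((univ : Finset Bool).filter (fun i => s i v ∈ X)).card := by
    unfold ed
    rw [card_filter, sum_product]
    apply sum_congr rfl
    intro v _
    rw [card_filter]
  unfold dg
  rw [sum_add_distrib, ← sum_dg_aux s X X, h, two_mul]
-- END sum_dg

-- BEGIN ed_union
theorem ed_union_ed (s : Bool → Equiv.Perm V) (X : Finset V) :
    ed s X = ∑ i : Bool, ∑ v : V, if v ∈ X ∧ s i v ∈ X then 1 else 0 := by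
  rw [ed, card_filter, sum_product_right]
  refine sum_congr rfl fun i _ => ?_
  rw [← sum_filter, ← sum_filter, sum_const_nat (m := 1) (fun _ _ => rfl), sum_const_nat (m := 1) (fun _ _ => rfl)]
  congr 2
  ext v
  simp only [mem_filter, mem_univ, true_and]

theorem ed_union_dg (s : Bool → Equiv.Perm V) (X Y : Finset V) :
    ∑ v ∈ X, dg s v Y = ∑ i : Bool, ∑ v : V, ((if v ∈ X ∧ s i v ∈ Y then 1 else 0) + (if v ∈ Y ∧ s i v ∈ X then 1 else 0)) := by
  have h1 : ∀ v, dg s v Y = ∑ i : Bool, ((if s i v ∈ Y then 1 else 0) + (if (s i).symm v ∈ Y then 1 else 0)) := by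
    intro v
    rw [dg, card_filter, card_filter, sum_add_distrib]
  rw [sum_congr rfl (fun v _ => h1 v), sum_comm]
  refine sum_congr rfl fun i _ => ?_
  rw [sum_add_distrib, sum_add_distrib]
  congr 1
  · rw [← sum_filter_add_sum_filter_not univ (fun v => v ∈ X)
      (fun v => if v ∈ X ∧ s i v ∈ Y then 1 else 0), sum_eq_zero (s := univ.filter (fun v => ¬ v ∈ X)), add_zero]
    · rw [filter_mem_eq_inter, univ_inter]
      refine sum_congr rfl fun v hv => ?_
      simp only [hv, true_and]
    · intro v hv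
      rw [mem_filter] at hv
      rw [if_neg (fun hc => hv.2 hc.1)]
  · have h2 : ∑ x ∈ X, (if (s i).symm x ∈ Y then 1 else 0) = ∑ v : V, (if (s i).symm v ∈ Y ∧ v ∈ X then 1 else 0) := by
      rw [← sum_filter_add_sum_filter_not univ (fun v => v ∈ X)
        (fun v => if (s i).symm v ∈ Y ∧ v ∈ X then 1 else 0), sum_eq_zero (s := univ.filter (fun v => ¬ v ∈ X)), add_zero]
      · rw [filter_mem_eq_inter, univ_inter]
        refine sum_congr rfl fun v hv => ?_
        simp only [hv, and_true]
      · intro v hv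
        rw [mem_filter] at hv
        rw [if_neg (fun hc => hv.2 hc.2)]
    rw [h2, ← Equiv.sum_comp (s i) (fun v => if (s i).symm v ∈ Y ∧ v ∈ X then 1 else 0)]
    refine sum_congr rfl fun v _ => ?_
    rw [Equiv.symm_apply_apply]

/-- G8. An edge `(u, i)` inside `X ∪ Y` is inside `X`, inside `Y`, from `X` to `Y` or from `Y` to `X`. -/
theorem ed_union (s : Bool → Equiv.Perm V) (X Y : Finset V) (h : Disjoint X Y) :
    ed s (X ∪ Y) = ed s X + ed s Y + ∑ v ∈ X, dg s v Y := by
  rw [ed_union_dg, ed_union_ed, ed_union_ed, ed_union_ed, ← sum_add_distrib, ← sum_add_distrib]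
  refine sum_congr rfl fun i _ => ?_
  rw [← sum_add_distrib, ← sum_add_distrib]
  refine sum_congr rfl fun v _ => ?_
  have h1 : v ∈ X → ¬ v ∈ Y := fun hx => disjoint_left.1 h hx
  have h2 : s i v ∈ X → ¬ s i v ∈ Y := fun hx => disjoint_left.1 h hx
  simp only [mem_union]
  by_cases a1 : v ∈ X <;> by_cases a2 : v ∈ Y <;> by_cases a3 : s i v ∈ X <;> by_cases a4 : s i v ∈ Y <;>
    simp_all
-- END ed_union

-- BEGIN ed_ins
/-- G9. `ed_union` with `{v}` (`ed s {v} = 0`: no loops), `dg_comm`. -/
theorem ed_single (s : Bool → Equiv.Perm V) (hs : Ham s) (v : V) : ed s {v} = 0 := by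
  rw [ed, Finset.card_eq_zero, Finset.filter_eq_empty_iff]
  rintro ⟨u, i⟩ hu
  rw [Finset.mem_product, Finset.mem_singleton] at hu
  rw [Finset.mem_singleton]
  have h1 : u = v := hu.1
  show ¬ s i u = v
  rw [h1]
  exact hs.nofix i v

theorem ed_insert (s : Bool → Equiv.Perm V) (hs : Ham s) (v : V) (X : Finset V) (h : v ∉ X) :
    ed s (insert v X) = ed s X + dg s v X := by
  rw [Finset.insert_eq, ed_union s {v} X (Finset.disjoint_singleton_left.2 h), ed_single s hs v,
    Finset.sum_singleton, zero_add]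
-- END ed_ins

-- BEGIN ed_super
/-- G10. The edges inside `X` and the edges inside `Y` are inside `X ∪ Y`; those inside both are inside `X ∩ Y`. -/
theorem ed_super (s : Bool → Equiv.Perm V) (X Y : Finset V) : ed s X + ed s Y ≤ ed s (X ∪ Y) + ed s (X ∩ Y) := by
  unfold ed
  rw [← Finset.card_union_add_card_inter]
  refine Nat.add_le_add (Finset.card_le_card ?_) (Finset.card_le_card ?_)
  · intro e he
    simp only [Finset.mem_union, Finset.mem_filter, Finset.mem_product, Finset.mem_univ, and_true] at he ⊢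
    rcases he with ⟨h1, h2⟩ | ⟨h1, h2⟩
    · exact ⟨Or.inl h1, Or.inl h2⟩
    · exact ⟨Or.inr h1, Or.inr h2⟩
  · intro e he
    simp only [Finset.mem_inter, Finset.mem_filter, Finset.mem_product, Finset.mem_univ, and_true] at he ⊢
    exact ⟨⟨he.1.1, he.2.1⟩, ⟨he.1.2, he.2.2⟩⟩
-- END ed_super

-- BEGIN adj_basic
/-- G11. -/
theorem adj_symm (s : Bool → Equiv.Perm V) (u v : V) : adj s u v ↔ adj s v u := by
  unfold adj
  constructor
  · rintro ⟨i, h | h⟩
    · exact ⟨i, Or.inr h⟩
    · exact ⟨i, Or.inl h⟩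
  · rintro ⟨i, h | h⟩
    · exact ⟨i, Or.inr h⟩
    · exact ⟨i, Or.inl h⟩

theorem adj_ne (s : Bool → Equiv.Perm V) (hs : Ham s) (u v : V) (h : adj s u v) : u ≠ v := by
  rintro rfl
  obtain ⟨i, h | h⟩ := h
  · exact hs.nofix i u h
  · exact hs.nofix i u h

theorem mem_nbr (s : Bool → Equiv.Perm V) (u v : V) : v ∈ nbr s u ↔ adj s u v := by
  unfold nbr adj
  simp only [mem_union, mem_image, mem_univ, true_and]
  constructor
  · rintro (⟨i, h⟩ | ⟨i, h⟩)
    · exact ⟨i, Or.inl h⟩
    · exact ⟨i, Or.inr (by rw [← h, Equiv.apply_symm_apply])⟩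
  · rintro ⟨i, h | h⟩
    · exact Or.inl ⟨i, h⟩
    · exact Or.inr ⟨i, by rw [← h, Equiv.symm_apply_apply]⟩
-- END adj_basic

-- BEGIN hv_basic
/-- G11b. -/
theorem hv_adj (s : Bool → Equiv.Perm V) (u v : V) : adj s u v ↔ ∃ h, hv s u h = v := by
  constructor
  · rintro ⟨i, h | h⟩
    · exact ⟨(i, true), h⟩
    · exact ⟨(i, false), (Equiv.symm_apply_eq (s i)).2 h.symm⟩
  · rintro ⟨⟨i, b⟩, h⟩
    cases b with
    | true => exact ⟨i, Or.inl h⟩
    | false => exact ⟨i, Or.inr ((Equiv.symm_apply_eq (s i)).1 h).symm⟩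

theorem hv_dg (s : Bool → Equiv.Perm V) (v : V) (X : Finset V) :
    dg s v X = ((univ : Finset (Bool × Bool)).filter (fun h => hv s v h ∈ X)).card := by
  unfold dg
  rw [Finset.card_filter, Finset.card_filter, Finset.card_filter, Fintype.sum_prod_type]
  simp only [Fintype.sum_bool]
  change _ = ((if s true v ∈ X then 1 else 0) + (if (s true).symm v ∈ X then 1 else 0)) +
    ((if s false v ∈ X then 1 else 0) + (if (s false).symm v ∈ X then 1 else 0))
  omega
-- END hv_basic

-- BEGIN ball
/-- G12. `Bl_mem`: `Bl_succ` is `mem_union`, `mem_biUnion`. `ball_trans`: induction on `b`. `ball_symm`: induction on `r` with `ball_trans` (`Bl v 1 = {v} ∪ nbr v`).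
`ball_card`: induction, `|nbr s u| ≤ 4`, `|Bl v (r+1)| ≤ |Bl v r| + 4 |Bl v r|`. -/
theorem mem_self (s : Bool → Equiv.Perm V) (v : V) (r : ℕ) : v ∈ Bl s v r := by
  induction r with
  | zero => exact mem_singleton_self v
  | succ r ih => exact mem_union_left _ ih

private theorem ball_succ (s : Bool → Equiv.Perm V) (v w : V) (r : ℕ) :
    w ∈ Bl s v (r + 1) ↔ w ∈ Bl s v r ∨ ∃ u ∈ Bl s v r, adj s u w := by
  have h : Bl s v (r + 1) = Bl s v r ∪ (Bl s v r).biUnion (nbr s) := rfl
  rw [h, mem_union, mem_biUnion]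
  simp only [mem_nbr]

theorem ball_mono (s : Bool → Equiv.Perm V) (v : V) (r r' : ℕ) (h : r ≤ r') : Bl s v r ⊆ Bl s v r' := by
  induction r', h using Nat.le_induction with
  | base => exact Subset.refl _
  | succ k _ ih => exact ih.trans (fun w hw => (ball_succ s v w k).2 (Or.inl hw))

theorem ball_step (s : Bool → Equiv.Perm V) (v u w : V) (r : ℕ) (h : u ∈ Bl s v r) (h' : adj s u w) : w ∈ Bl s v (r + 1) := by
  exact (ball_succ s v w r).2 (Or.inr ⟨u, h, h'⟩)

theorem ball_trans (s : Bool → Equiv.Perm V) (u v w : V) (a b : ℕ) (h : v ∈ Bl s u a) (h' : w ∈ Bl s v b) : w ∈ Bl s u (a + b) := by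
  induction b generalizing w with
  | zero =>
    have hw : w = v := mem_singleton.1 h'
    rw [hw]
    exact h
  | succ b ih =>
    rcases (ball_succ s v w b).1 h' with h1 | ⟨x, h1, h2⟩
    · exact ball_mono s u (a + b) (a + (b + 1)) (by omega) (ih w h1)
    · exact ball_step s u x w (a + b) (ih x h1) h2

theorem ball_symm (s : Bool → Equiv.Perm V) (u v : V) (r : ℕ) (h : v ∈ Bl s u r) : u ∈ Bl s v r := by
  induction r generalizing v with
  | zero =>
    have hv : v = u := mem_singleton.1 h
    rw [hv]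
    exact mem_singleton_self u
  | succ r ih =>
    rcases (ball_succ s u v r).1 h with h1 | ⟨x, h1, h2⟩
    · exact ball_mono s v r (r + 1) (by omega) (ih v h1)
    · have h3 : x ∈ Bl s v 1 := ball_step s v v x 0 (mem_self s v 0) ((adj_symm s x v).1 h2)
      have h4 := ball_trans s v x u 1 r h3 (ih x h1)
      rw [Nat.add_comm] at h4
      exact h4

/-- decomposition at the first step -/
theorem ball_first (s : Bool → Equiv.Perm V) (u v : V) (r : ℕ) (h : v ∈ Bl s u (r + 1)) :
    v ∈ Bl s u r ∨ ∃ w, adj s u w ∧ v ∈ Bl s w r := by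
  induction r generalizing v with
  | zero =>
    rcases (ball_succ s u v 0).1 h with h1 | ⟨x, h1, h2⟩
    · exact Or.inl h1
    · have hx : x = u := mem_singleton.1 h1
      rw [hx] at h2
      exact Or.inr ⟨v, h2, mem_self s v 0⟩
  | succ r ih =>
    rcases (ball_succ s u v (r + 1)).1 h with h1 | ⟨x, h1, h2⟩
    · exact Or.inl h1
    · rcases ih x h1 with h3 | ⟨w, h3, h4⟩
      · exact Or.inl (ball_step s u x v r h3 h2)
      · exact Or.inr ⟨w, h3, ball_step s w x v r h4 h2⟩

private theorem ball_nbr_card (s : Bool → Equiv.Perm V) (u : V) : (nbr s u).card ≤ 4 := by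
  have h1 : ((univ : Finset Bool).image (fun i => s i u)).card ≤ 2 := card_image_le
  have h2 : ((univ : Finset Bool).image (fun i => (s i).symm u)).card ≤ 2 := card_image_le
  have h3 : (nbr s u).card ≤ ((univ : Finset Bool).image (fun i => s i u)).card +
      ((univ : Finset Bool).image (fun i => (s i).symm u)).card := card_union_le _ _
  omega

theorem ball_card (s : Bool → Equiv.Perm V) (v : V) (r : ℕ) : (Bl s v r).card ≤ 5 ^ r := by
  induction r with
  | zero => exact (card_singleton v).le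
  | succ r ih =>
    have h : Bl s v (r + 1) = Bl s v r ∪ (Bl s v r).biUnion (nbr s) := rfl
    have h1 : ((Bl s v r).biUnion (nbr s)).card ≤ (Bl s v r).card * 4 :=
      card_biUnion_le_card_mul _ _ _ fun u _ => ball_nbr_card s u
    have h2 := card_union_le (Bl s v r) ((Bl s v r).biUnion (nbr s))
    rw [h, pow_succ]
    omega
-- END ball

end Hlc
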