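import Pool.Agent.Hlc.Defs

/-!
# Hlc KER: kernels (Richardson), list colouring from kernels (Bondy, Boppana, Siegel), odd directed cycles
-/

set_option autoImplicit false

namespace Hlc

open Finset

variable {V : Type} [Fintype V] [DecidableEq V]

-- BEGIN dw_basic
/-- K1. inductions -/
theorem dw_trans (D : V → V → Prop) (W : Finset V) (k l : ℕ) (u v w : V) (h : Dw D W k u v) (h' : Dw D W l v w) :
    Dw D W (k + l) u w := by
  induction h with
  | nil u hu => rw [Nat.zero_add]; exact h'
  | cons hu hD _ ih =>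
    have h1 := Dw.cons hu hD (ih h')
    rw [Nat.add_right_comm]
    exact h1

theorem dw_mem (D : V → V → Prop) (W : Finset V) (k : ℕ) (u v : V) (h : Dw D W k u v) : u ∈ W ∧ v ∈ W := by
  induction h with
  | nil u hu => exact ⟨hu, hu⟩
  | cons hu _ _ ih => exact ⟨hu, ih.2⟩

theorem dw_mono (D : V → V → Prop) (W W' : Finset V) (hW : W ⊆ W') (k : ℕ) (u v : V) (h : Dw D W k u v) : Dw D W' k u v := by
  induction h with
  | nil u hu => exact Dw.nil u (hW hu)
  | cons hu hD _ ih => exact Dw.cons (hW hu) hD ih

theorem dw_one (D : V → V → Prop) (W : Finset V) (u v : V) (hu : u ∈ W) (hv : v ∈ W) (h : D u v) : Dw D W 1 u v :=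
  Dw.cons hu h (Dw.nil v hv)
-- END dw_basic

-- BEGIN term
/-- K2. A terminal strong component: choose `a ∈ W` with the smallest number of vertices reachable from `a` in `W` (`exists_min_image`, classical filter). If `u` is reachable from `a`, the vertices reachable from `u` are
reachable from `a`, so they are the same ones (`eq_of_subset_of_card_le`); `a` is one of them. -/
theorem term (D : V → V → Prop) (W : Finset V) (hW : W.Nonempty) :
    ∃ a ∈ W, ∀ (k : ℕ) (u : V), Dw D W k a u → ∃ l, Dw D W l u a := by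
  classical
  obtain ⟨Rc, hRc⟩ : ∃ Rc : V → Finset V, Rc = fun a => univ.filter (fun u => ∃ k, Dw D W k a u) := ⟨_, rfl⟩
  have hm : ∀ a u, u ∈ Rc a ↔ ∃ k, Dw D W k a u := by
    intro a u
    rw [hRc]
    simp only [mem_filter, mem_univ, true_and]
  obtain ⟨a, ha, hmin⟩ := exists_min_image W (fun a => (Rc a).card) hW
  refine ⟨a, ha, ?_⟩
  intro k u hku
  have hu : u ∈ W := (dw_mem D W k a u hku).2
  have hsub : Rc u ⊆ Rc a := by
    intro x hx
    obtain ⟨l, hl⟩ := (hm u x).1 hx
    exact (hm a x).2 ⟨k + l, dw_trans D W k l a u x hku hl⟩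
  have heq := eq_of_subset_of_card_le hsub (hmin u hu)
  have haa : a ∈ Rc a := (hm a a).2 ⟨0, Dw.nil a ha⟩
  rw [← heq] at haa
  exact (hm u a).1 haa
-- END term

-- BEGIN richardson
/-- K3. Richardson's theorem. Strong induction on `|W|`. `a` from `term`, `S` = the vertices reachable from `a` in `W`, `A₀` = those reachable by a walk of even length. No vertex `u` is reachable by an even walk and by an odd
walk (with a walk from `u` back to `a` one of the two closed walks is odd: `dw_trans`). So `A₀` is independent. If `u ∈ S`, `u ∉ A₀`: `u ≠ a`, the walk from `u` to `a` has a first step `D u v` with `v ∈ S`, and `v ∈ A₀`.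
`D u v` with `u ∈ A₀`, `v ∈ W` gives `v ∈ S`. Let `W'` = the vertices of `W` not in `S` and without `D`-successor in `A₀`; `W'` is smaller (`a ∈ S`); induction (`dw_mono`) gives `A'`; `A = A₀ ∪ A'`. -/
theorem richardson (D : V → V → Prop) (W : Finset V) (h : ∀ k u, Odd k → ¬ Dw D W k u u) :
    ∃ A ⊆ W, (∀ u ∈ A, ∀ v ∈ A, ¬ D u v) ∧ ∀ u ∈ W, u ∉ A → ∃ v ∈ A, D u v := by
  classical
  induction W using Finset.strongInduction with
  | H W ih =>
    rcases W.eq_empty_or_nonempty with hW | hW
    · refine ⟨∅, empty_subset _, fun u hu => absurd hu (notMem_empty u), fun u hu => ?_⟩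
      rw [hW] at hu
      exact absurd hu (notMem_empty u)
    · obtain ⟨a, haW, ha⟩ := term D W hW
      -- reachable sets
      have hodd : ∀ u k k', Even k → Odd k' → Dw D W k a u → ¬ Dw D W k' a u := by
        intro u k k' hk hk' h1 h2
        obtain ⟨l, hl⟩ := ha k u h1
        rcases Nat.even_or_odd l with hle | hlo
        · exact h (k' + l) a (hk'.add_even hle) (dw_trans D W k' l a u a h2 hl)
        · exact h (k + l) a (hk.add_odd hlo) (dw_trans D W k l a u a h1 hl)
      have ha0 : Dw D W 0 a a := Dw.nil a haW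
      obtain ⟨A', hA'W, hA'ind, hA'abs⟩ := ih (W.filter (fun u => (¬ ∃ k, Dw D W k a u) ∧
          ∀ v, (∃ k, Even k ∧ Dw D W k a v) → ¬ D u v)) (by
            refine (ssubset_iff_of_subset (filter_subset _ _)).2 ⟨a, haW, ?_⟩
            rw [mem_filter]
            rintro ⟨_, h1, _⟩
            exact h1 ⟨0, ha0⟩) (fun k u hk hd => h k u hk (dw_mono D _ W (filter_subset _ _) k u u hd))
      refine ⟨W.filter (fun u => ∃ k, Even k ∧ Dw D W k a u) ∪ A', ?_, ?_, ?_⟩
      · refine union_subset (filter_subset _ _) (hA'W.trans (filter_subset _ _))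
      · intro u hu v hv hD
        rw [mem_union, mem_filter] at hu hv
        rcases hu with ⟨huW, k, hk, hku⟩ | hu
        · have hvW : v ∈ W := by
            rcases hv with hv | hv
            · exact hv.1
            · exact (mem_filter.1 (hA'W hv)).1
          have h1 : Dw D W (k + 1) a v := dw_trans D W k 1 a u v hku (dw_one D W u v huW hvW hD)
          rcases hv with ⟨_, k', hk', hkv⟩ | hv
          · exact hodd v k' (k + 1) hk' (hk.add_one) hkv h1
          · exact (mem_filter.1 (hA'W hv)).2.1 ⟨k + 1, h1⟩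
        · rcases hv with ⟨_, hv⟩ | hv
          · exact (mem_filter.1 (hA'W hu)).2.2 v hv hD
          · exact hA'ind u hu v hv hD
      · intro u huW hu
        rw [mem_union, mem_filter, not_or] at hu
        obtain ⟨hu1, hu2⟩ := hu
        by_cases hS : ∃ k, Dw D W k a u
        · obtain ⟨k, hk⟩ := hS
          have hko : Odd k := by
            by_contra hc
            rw [Nat.not_odd_iff_even] at hc
            exact hu1 ⟨huW, k, hc, hk⟩
          obtain ⟨l, hl⟩ := ha k u hk
          cases hl with
          | nil _ _ => exact absurd ⟨haW, 0, ⟨0, rfl⟩, ha0⟩ hu1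
          | @cons l' _ v _ _ hD hw =>
            have hvW := (dw_mem D W _ _ _ hw).1
            refine ⟨v, ?_, hD⟩
            rw [mem_union, mem_filter]
            exact Or.inl ⟨hvW, k + 1, hko.add_one, dw_trans D W k 1 a u v hk (dw_one D W u v huW hvW hD)⟩
        · by_cases hE : ∀ v, (∃ k, Even k ∧ Dw D W k a v) → ¬ D u v
          · obtain ⟨v, hv, hD⟩ := hA'abs u (mem_filter.2 ⟨huW, hS, hE⟩) hu2
            exact ⟨v, mem_union_right _ hv, hD⟩
          · push Not at hE
            obtain ⟨v, ⟨k, hk, hkv⟩, hD⟩ := hE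
            exact ⟨v, mem_union_left _ (mem_filter.2 ⟨(dw_mem D W _ _ _ hkv).2, k, hk, hkv⟩), hD⟩
-- END richardson

-- BEGIN bbs
theorem bbs_aux (G : SimpleGraph V) (D : V → V → Prop) (L : V → Finset ℕ) (hD : ∀ u v, G.Adj u v → D u v ∨ D v u)
    (hk : ∀ (c : ℕ) (W : Finset V), (∀ u ∈ W, c ∈ L u) →
      ∃ A ⊆ W, (∀ u ∈ A, ∀ v ∈ A, ¬ D u v) ∧ ∀ u ∈ W, u ∉ A → ∃ v ∈ A, D u v) (U : Finset V) :
    ∀ L' : V → Finset ℕ, (∀ u, L' u ⊆ L u) → (∀ u ∈ U, ∃ S : Finset V, S.card < (L' u).card ∧ ∀ v ∈ U, D u v → v ∈ S) →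
      ∃ c : V → ℕ, (∀ u ∈ U, c u ∈ L' u) ∧ ∀ u ∈ U, ∀ v ∈ U, G.Adj u v → c u ≠ c v := by
  classical
  induction U using Finset.strongInduction with
  | H U ih =>
    intro L' hL' hout
    rcases U.eq_empty_or_nonempty with hU | ⟨u₀, hu₀⟩
    · refine ⟨fun _ => 0, fun u hu => ?_, fun u hu => ?_⟩
      · rw [hU] at hu
        exact absurd hu (notMem_empty u)
      · rw [hU] at hu
        exact absurd hu (notMem_empty u)
    · obtain ⟨S₀, hS₀, -⟩ := hout u₀ hu₀
      have hne : (L' u₀).Nonempty := card_pos.1 (lt_of_le_of_lt (Nat.zero_le _) hS₀)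
      obtain ⟨c₀, hc₀⟩ := hne
      obtain ⟨A, hAW, hAind, hAabs⟩ := hk c₀ (U.filter (fun u => c₀ ∈ L' u))
        (fun u hu => hL' u (mem_filter.1 hu).2)
      have hAU : A ⊆ U := hAW.trans (filter_subset _ _)
      have hAne : ∃ x, x ∈ A := by
        by_cases h0 : u₀ ∈ A
        · exact ⟨u₀, h0⟩
        · obtain ⟨v, hv, _⟩ := hAabs u₀ (mem_filter.2 ⟨hu₀, hc₀⟩) h0
          exact ⟨v, hv⟩
      obtain ⟨x, hx⟩ := hAne
      obtain ⟨c', hc'1, hc'2⟩ := ih (U \ A) (by
        refine (ssubset_iff_of_subset sdiff_subset).2 ⟨x, hAU hx, fun hc => (mem_sdiff.1 hc).2 hx⟩)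
        (fun u => (L' u).erase c₀) (fun u => (erase_subset _ _).trans (hL' u)) (by
          intro u hu
          obtain ⟨huU, huA⟩ := mem_sdiff.1 hu
          obtain ⟨S, hS, hS2⟩ := hout u huU
          by_cases hc : c₀ ∈ L' u
          · obtain ⟨v, hv, hDv⟩ := hAabs u (mem_filter.2 ⟨huU, hc⟩) huA
            have hvS : v ∈ S := hS2 v (hAU hv) hDv
            refine ⟨S.erase v, ?_, ?_⟩
            · rw [card_erase_of_mem hvS, card_erase_of_mem hc]
              have := card_pos.2 ⟨v, hvS⟩
              omega
            · intro w hw hDw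
              rw [mem_erase]
              refine ⟨fun h => (mem_sdiff.1 hw).2 (h ▸ hv), hS2 w (mem_sdiff.1 hw).1 hDw⟩
          · refine ⟨S, ?_, fun w hw hDw => hS2 w (mem_sdiff.1 hw).1 hDw⟩
            rw [erase_eq_of_notMem hc]
            exact hS)
      refine ⟨fun u => if u ∈ A then c₀ else c' u, ?_, ?_⟩
      · intro u hu
        by_cases hA : u ∈ A
        · simp only [hA, if_true]
          exact (mem_filter.1 (hAW hA)).2
        · simp only [hA, if_false]
          exact mem_of_mem_erase (hc'1 u (mem_sdiff.2 ⟨hu, hA⟩))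
      · intro u hu v hv hadj
        by_cases hA : u ∈ A <;> by_cases hB : v ∈ A
        · exfalso
          rcases hD u v hadj with h1 | h1
          · exact hAind u hA v hB h1
          · exact hAind v hB u hA h1
        · simp only [hA, hB, if_true, if_false]
          exact (ne_of_mem_erase (hc'1 v (mem_sdiff.2 ⟨hv, hB⟩))).symm
        · simp only [hA, hB, if_true, if_false]
          exact ne_of_mem_erase (hc'1 u (mem_sdiff.2 ⟨hu, hA⟩))
        · simp only [hA, hB, if_false]
          exact hc'2 u (mem_sdiff.2 ⟨hu, hA⟩) v (mem_sdiff.2 ⟨hv, hB⟩) hadj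

/-- K4. Bondy, Boppana, Siegel. Claim, by strong induction on `U`: for `U : Finset V` and `L' : V → Finset ℕ` with `L' u ⊆ L u` and, for `u ∈ U`, a set `S` with `|S| < |L' u|` containing all `v ∈ U` with `D u v`, there is
`c` with `c u ∈ L' u` for `u ∈ U` and `c u ≠ c v` for adjacent `u, v ∈ U`. Step: `u₀ ∈ U`, `c₀ ∈ L' u₀`, `W = {u ∈ U : c₀ ∈ L' u}`, a kernel `A` of `W` (nonempty, since `u₀ ∈ W`). Colour `A` with `c₀`; apply the claim to
`U \ A` and the lists `(L' u).erase c₀`: for `u ∈ W \ A` some `v ∈ A` has `D u v`, replace `S` by `S.erase v`; for `u ∉ W` the list is unchanged. Adjacent `u, v` are not both in `A` (`D u v` or `D v u`). -/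
theorem bbs (G : SimpleGraph V) (D : V → V → Prop) (L : V → Finset ℕ) (hD : ∀ u v, G.Adj u v → D u v ∨ D v u)
    (hout : ∀ u, ∃ S : Finset V, S.card < (L u).card ∧ ∀ v, D u v → v ∈ S)
    (hk : ∀ (c : ℕ) (W : Finset V), (∀ u ∈ W, c ∈ L u) →
      ∃ A ⊆ W, (∀ u ∈ A, ∀ v ∈ A, ¬ D u v) ∧ ∀ u ∈ W, u ∉ A → ∃ v ∈ A, D u v) : LCol G L := by
  obtain ⟨c, hc1, hc2⟩ := bbs_aux G D L hD hk univ L (fun u => Subset.refl _) (fun u _ => by
    obtain ⟨S, hS1, hS2⟩ := hout u
    exact ⟨S, hS1, fun v _ hv => hS2 v hv⟩)
  exact ⟨c, fun v => hc1 v (mem_univ v), fun u v huv => hc2 u (mem_univ u) v (mem_univ v) huv⟩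
-- END bbs

-- BEGIN dw_walk
/-- K5. induction -/
theorem dw_walk (G : SimpleGraph V) (D : V → V → Prop) (hD : ∀ u v, D u v → G.Adj u v) (W : Finset V) (k : ℕ) (u v : V)
    (h : Dw D W k u v) : ∃ w : G.Walk u v, w.length = k ∧ (∀ x ∈ w.support, x ∈ W) ∧ ∀ d ∈ w.darts, D d.fst d.snd := by
  induction h with
  | nil u hu =>
    refine ⟨SimpleGraph.Walk.nil, rfl, ?_, ?_⟩
    · intro x hx
      rw [SimpleGraph.Walk.support_nil, List.mem_singleton] at hx
      rw [hx]; exact hu
    · intro d hd
      simp at hd
  | cons hu h hw ih =>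
    obtain ⟨w, h1, h2, h3⟩ := ih
    refine ⟨SimpleGraph.Walk.cons (hD _ _ h) w, ?_, ?_, ?_⟩
    · rw [SimpleGraph.Walk.length_cons, h1]
    · intro x hx
      rw [SimpleGraph.Walk.support_cons, List.mem_cons] at hx
      rcases hx with rfl | hx
      · exact hu
      · exact h2 x hx
    · intro d hd
      rw [SimpleGraph.Walk.darts_cons, List.mem_cons] at hd
      rcases hd with rfl | hd
      · exact h
      · exact h3 d hd
-- END dw_walk

-- BEGIN odd_cycle
private theorem odd_cycle_split {V : Type} [DecidableEq V] (G : SimpleGraph V) {a b : V} (p : G.Walk a b) :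
    p.IsPath ∨ ∃ (x : V) (p1 : G.Walk a x) (c : G.Walk x x) (p3 : G.Walk x b), 0 < c.length ∧
      p = (p1.append c).append p3 := by
  induction p with
  | nil => left; exact SimpleGraph.Walk.IsPath.nil
  | @cons a b d h q ih =>
    rcases ih with hq | ⟨x, p1, c, p3, hc, hpe⟩
    · by_cases ha : a ∈ q.support
      · right
        refine ⟨a, SimpleGraph.Walk.nil, SimpleGraph.Walk.cons h (q.takeUntil a ha), q.dropUntil a ha, ?_, ?_⟩
        · rw [SimpleGraph.Walk.length_cons]
          omega
        · rw [SimpleGraph.Walk.nil_append, SimpleGraph.Walk.cons_append, SimpleGraph.Walk.take_spec]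
      · left
        exact (SimpleGraph.Walk.cons_isPath_iff h q).2 ⟨hq, ha⟩
    · right
      refine ⟨x, SimpleGraph.Walk.cons h p1, c, p3, hc, ?_⟩
      rw [hpe, SimpleGraph.Walk.cons_append, SimpleGraph.Walk.cons_append]

private theorem odd_cycle_min {V : Type} [DecidableEq V] (G : SimpleGraph V) (D : V → V → Prop) (W : Finset V) :
    ∀ (n : ℕ) (v : V) (w : G.Walk v v), w.length = n → Odd n → (∀ x ∈ w.support, x ∈ W) →
      (∀ d ∈ w.darts, D d.fst d.snd) →
      ∃ (v : V) (w : G.Walk v v), w.IsCycle ∧ Odd w.length ∧ (∀ x ∈ w.support, x ∈ W) ∧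
        ∀ d ∈ w.darts, D d.fst d.snd := by
  intro n
  induction n using Nat.strong_induction_on with
  | _ n ih =>
    intro v w hn ho hW hD
    by_cases hcy : w.IsCycle
    · exact ⟨v, w, hcy, hn ▸ ho, hW, hD⟩
    cases w with
    | nil =>
      rw [SimpleGraph.Walk.length_nil] at hn
      rw [← hn] at ho
      exact absurd ho (by decide)
    | @cons _ b _ h p =>
      rcases odd_cycle_split G p with hp | ⟨x, p1, c, p3, hc, hpe⟩
      · exfalso
        apply hcy
        rw [SimpleGraph.Walk.cons_isCycle_iff]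
        refine ⟨hp, fun hmem => ?_⟩
        have h1 : p.length = 1 := by
          rw [Sym2.eq_swap] at hmem
          exact hp.length_eq_one_of_mem_edges hmem
        rw [SimpleGraph.Walk.length_cons, h1] at hn
        rw [← hn] at ho
        exact absurd ho (by decide)
      · have hlen : n = c.length + ((SimpleGraph.Walk.cons h p1).append p3).length := by
          rw [← hn, hpe]
          simp only [SimpleGraph.Walk.length_cons, SimpleGraph.Walk.length_append]
          omega
        have hpos : 0 < ((SimpleGraph.Walk.cons h p1).append p3).length := by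
          simp only [SimpleGraph.Walk.length_append, SimpleGraph.Walk.length_cons]
          omega
        have hWc : ∀ y ∈ c.support, y ∈ W := by
          intro y hy
          apply hW
          rw [hpe, SimpleGraph.Walk.support_cons, List.mem_cons]
          right
          rw [SimpleGraph.Walk.mem_support_append_iff, SimpleGraph.Walk.mem_support_append_iff]
          exact Or.inl (Or.inr hy)
        have hDc : ∀ d ∈ c.darts, D d.fst d.snd := by
          intro d hd
          apply hD
          rw [hpe, SimpleGraph.Walk.darts_cons, List.mem_cons]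
          right
          rw [SimpleGraph.Walk.darts_append, SimpleGraph.Walk.darts_append, List.mem_append, List.mem_append]
          exact Or.inl (Or.inr hd)
        have hWr : ∀ y ∈ ((SimpleGraph.Walk.cons h p1).append p3).support, y ∈ W := by
          intro y hy
          apply hW
          rw [hpe, SimpleGraph.Walk.support_cons, List.mem_cons]
          rw [SimpleGraph.Walk.mem_support_append_iff, SimpleGraph.Walk.support_cons, List.mem_cons] at hy
          rw [SimpleGraph.Walk.mem_support_append_iff, SimpleGraph.Walk.mem_support_append_iff]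
          rcases hy with (hy | hy) | hy
          · exact Or.inl hy
          · exact Or.inr (Or.inl (Or.inl hy))
          · exact Or.inr (Or.inr hy)
        have hDr : ∀ d ∈ ((SimpleGraph.Walk.cons h p1).append p3).darts, D d.fst d.snd := by
          intro d hd
          apply hD
          rw [hpe, SimpleGraph.Walk.darts_cons, List.mem_cons]
          rw [SimpleGraph.Walk.darts_append, SimpleGraph.Walk.darts_cons, List.mem_append, List.mem_cons] at hd
          rw [SimpleGraph.Walk.darts_append, SimpleGraph.Walk.darts_append, List.mem_append, List.mem_append]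
          rcases hd with (hd | hd) | hd
          · exact Or.inl hd
          · exact Or.inr (Or.inl (Or.inl hd))
          · exact Or.inr (Or.inr hd)
        by_cases hco : Odd c.length
        · exact ih c.length (by omega) x c rfl hco hWc hDc
        · refine ih _ (by omega) v ((SimpleGraph.Walk.cons h p1).append p3) rfl ?_ hWr hDr
          rw [Nat.not_odd_iff_even] at hco
          rw [hlen] at ho
          by_contra hcon
          rw [Nat.not_odd_iff_even] at hcon
          exact (Nat.not_odd_iff_even.2 (hco.add hcon)) ho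

/-- K6. `dw_walk`; take a closed walk `w` in `G` of odd length with support in `W` and all darts in `D`, of minimal length. It is `cons h p` (`h : G.Adj v b`, `p : G.Walk b v`). `p` is a path: if a vertex occurs twice in `p.support`
(`p.support = w.support.tail`), the closed walk splits there into two shorter closed walks, one of them odd (`takeUntil`, `dropUntil`, or `IsPath` via `bypass`). `s(v, b) ∉ p.edges`: a path from `b` to `v` with the edge `s(v, b)` has length `1`, and
then `w` has length `2`. So `w` is a cycle (`SimpleGraph.Walk.cons_isCycle_iff`). Every vertex `x` of `w` is the end of a dart of `w` (`x ∈ w.support.tail`, `map_snd_darts`). -/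
theorem odd_cycle (G : SimpleGraph V) (D : V → V → Prop) (hD : ∀ u v, D u v → G.Adj u v) (W : Finset V) (k : ℕ) (u : V)
    (hk : Odd k) (h : Dw D W k u u) : ∃ (v : V) (w : G.Walk v v), w.IsCycle ∧ Odd w.length ∧ (∀ x ∈ w.support, x ∈ W) ∧
      ∀ x ∈ w.support, ∃ y, s(y, x) ∈ w.edges ∧ D y x := by
  obtain ⟨w0, hw0, hW0, hD0⟩ := dw_walk G D hD W k u u h
  obtain ⟨v, w, hcy, ho, hW, hDw⟩ := odd_cycle_min G D W k u w0 hw0 hk hW0 hD0
  refine ⟨v, w, hcy, ho, hW, fun x hx => ?_⟩
  have hxt : x ∈ w.support.tail := by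
    cases w with
    | nil => exact absurd rfl hcy.ne_nil
    | @cons _ b _ h p =>
      rw [SimpleGraph.Walk.support_cons] at hx ⊢
      rw [List.tail_cons]
      rw [List.mem_cons] at hx
      rcases hx with hx | hx
      · rw [hx]
        exact p.end_mem_support
      · exact hx
  rw [← SimpleGraph.Walk.map_snd_darts, List.mem_map] at hxt
  obtain ⟨d, hd, hdx⟩ := hxt
  refine ⟨d.fst, ?_, ?_⟩
  · rw [← hdx]
    exact List.mem_map_of_mem hd
  · have := hDw d hd
    rw [hdx] at this
    exact this
-- END odd_cycle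

end Hlc
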