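import Pool.Agent.Hlc.Shr

/-!
# Hlc LNG: long odd cycles
-/

set_option autoImplicit false

namespace Hlc

open Finset

variable {V : Type} [Fintype V] [DecidableEq V]

/-- `f` is a path with `k` vertices, at most `5 ^ (2R)` of them within distance `2R` of the special points `zc Z` of the short cycles. -/
structure Pth (s : Bool → Equiv.Perm V) (R K : ℕ) (zc : Finset V → V) (k : ℕ) (f : Fin k → V) : Prop where
  inj : Function.Injective f
  adj : ∀ (j : ℕ) (h : j + 1 < k), Hlc.adj s (f ⟨j, by omega⟩) (f ⟨j + 1, h⟩)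
  near : ∃ S : Finset V, S.card ≤ 5 ^ (2 * R) ∧ ∀ j, ∀ Z ∈ Zs s K, f j ∈ Bl s (zc Z) (2 * R) → f j ∈ S

-- BEGIN walk_ball
/-- L1. Induction on `j - i`: `w.adj_getVert_succ`, `ball_step` (`getVert` is constant after the length). -/
theorem walk_ball (s : Bool → Equiv.Perm V) (G : SimpleGraph V) (hG : ∀ u v, G.Adj u v ↔ adj s u v) (a b : V)
    (w : G.Walk a b) (i j : ℕ) (h : i ≤ j) : w.getVert j ∈ Bl s (w.getVert i) (j - i) := by
  obtain ⟨k, rfl⟩ := Nat.exists_eq_add_of_le h
  rw [Nat.add_sub_cancel_left]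
  induction k with
  | zero => exact mem_self s _ _
  | succ k ih =>
    have h1 := ih (Nat.le_add_right _ _)
    by_cases h2 : i + k < w.length
    · exact ball_step s _ _ _ _ h1 ((hG _ _).1 (w.adj_getVert_succ h2))
    · rw [w.getVert_of_length_le (by omega : w.length ≤ i + k)] at h1
      rw [w.getVert_of_length_le (by omega : w.length ≤ i + (k + 1))]
      exact ball_mono s _ _ _ (Nat.le_succ k) h1
-- END walk_ball

-- BEGIN near_one
/-- L2. If no `f j` is in a ball `Bl s (zc Z) (2R)`: `S = ∅`. If `f j` is in it and `f j'` is in `Bl s (zc Z') (2R)` then `zc Z' ∈ Bl s (zc Z) (2R + K/2 + 2R) ⊆ Bl s (zc Z) K` (`ball_trans`, `ball_symm`, `ball_mono`), so `Z = Z'` by `zs_far`: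
`S = Bl s (zc Z) (2R)` (`ball_card`). -/
theorem near_one (s : Bool → Equiv.Perm V) (hs : Ham s) (K R k : ℕ) (hS : Sparse s (3 * K)) (hK : 8 * R ≤ K)
    (zc : Finset V → V) (hz : ∀ Z ∈ Zs s K, zc Z ∈ Z) (f : Fin k → V) (hb : ∀ i j, f j ∈ Bl s (f i) (K / 2)) :
    ∃ S : Finset V, S.card ≤ 5 ^ (2 * R) ∧ ∀ j, ∀ Z ∈ Zs s K, f j ∈ Bl s (zc Z) (2 * R) → f j ∈ S := by
  by_cases h : ∃ j, ∃ Z ∈ Zs s K, f j ∈ Bl s (zc Z) (2 * R)
  · obtain ⟨j, Z, hZ, hj⟩ := h
    refine ⟨Bl s (zc Z) (2 * R), ball_card s _ _, ?_⟩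
    intro j' Z' hZ' hj'
    have hZZ : Z' = Z := by
      by_contra hne
      have h1 := zs_far s hs K hS Z Z' hZ hZ' (fun h => hne h.symm) (zc Z) (zc Z') (hz Z hZ) (hz Z' hZ')
      apply h1
      have h2 : f j' ∈ Bl s (zc Z) (2 * R + K / 2) := ball_trans s _ _ _ _ _ hj (hb j j')
      have h3 : zc Z' ∈ Bl s (zc Z) (2 * R + K / 2 + 2 * R) :=
        ball_trans s _ _ _ _ _ h2 (ball_symm s _ _ _ hj')
      exact ball_mono s _ _ _ (by omega) h3
    rw [hZZ] at hj'
    exact hj'
  · refine ⟨∅, by simp, ?_⟩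
    intro j Z hZ hj
    exact absurd ⟨j, Z, hZ, hj⟩ h
-- END near_one

-- BEGIN cyc_path
/-- L3. `hw.getVert_injOn'` (`k < w.length`), `w.adj_getVert_succ`, `walk_ball` and `ball_symm`, `ball_mono` (distances less than `k ≤ K / 2`), `near_one`. -/
theorem cyc_path (s : Bool → Equiv.Perm V) (hs : Ham s) (G : SimpleGraph V) (hG : ∀ u v, G.Adj u v ↔ adj s u v) (K R k : ℕ)
    (hS : Sparse s (3 * K)) (hK : 8 * R ≤ K) (hk : k ≤ K / 2) (zc : Finset V → V) (hz : ∀ Z ∈ Zs s K, zc Z ∈ Z) (a : V)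
    (w : G.Walk a a) (hw : w.IsCycle) (hl : K < w.length) : Pth s R K zc k (fun j => w.getVert j) := by
  refine ⟨?_, ?_, ?_⟩
  · intro i j hij
    have hi := i.isLt
    have hj := j.isLt
    have h1 : (i : ℕ) = (j : ℕ) := hw.getVert_injOn' (show (i : ℕ) ≤ w.length - 1 by omega)
      (show (j : ℕ) ≤ w.length - 1 by omega) hij
    exact Fin.ext h1
  · intro j h
    exact (hG _ _).mp (w.adj_getVert_succ (by omega))
  · refine near_one s hs K R k hS hK zc hz (fun j => w.getVert j) ?_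
    intro i j
    have hi := i.isLt
    have hj := j.isLt
    rcases le_total (i : ℕ) (j : ℕ) with h | h
    · exact ball_mono s _ _ _ (by omega) (walk_ball s G hG a a w i j h)
    · exact ball_mono s _ _ _ (by omega) (ball_symm s _ _ _ (walk_ball s G hG a a w j i h))
-- END cyc_path

-- BEGIN hv_inj
/-- L4. If `hv s x h = hv s x h' = y`, `h ≠ h'`, then `dg s x {y} ≥ 2` (`hv_dg`), `{x, y} ∈ Zs s K` (`dbl`, `y ≠ x`), and `zc {x, y}` is `x` or `y`, so `x ∈ Bl s (zc {x, y}) 1`. -/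
theorem hv_inj (s : Bool → Equiv.Perm V) (hs : Ham s) (K R : ℕ) (hK : 2 ≤ K) (hR : 1 ≤ R) (zc : Finset V → V)
    (hz : ∀ Z ∈ Zs s K, zc Z ∈ Z) (x : V) (hf : ∀ Z ∈ Zs s K, x ∉ Bl s (zc Z) (2 * R)) : Function.Injective (hv s x) := by
  intro h h' he
  by_contra hne
  have hadj : adj s x (hv s x h) := (hv_adj s x _).2 ⟨h, rfl⟩
  have hxy : x ≠ hv s x h := adj_ne s hs _ _ hadj
  have hdg : 2 ≤ dg s x {hv s x h} := by
    rw [hv_dg]
    have h1 : ({h, h'} : Finset (Bool × Bool)) ⊆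
        (univ : Finset (Bool × Bool)).filter (fun g => hv s x g ∈ ({hv s x h} : Finset V)) := by
      intro g hg
      rw [mem_filter]
      refine ⟨mem_univ _, ?_⟩
      rw [mem_singleton]
      rcases mem_insert.1 hg with rfl | hg
      · rfl
      · rw [mem_singleton.1 hg]
        exact he.symm
    have h2 := card_le_card h1
    rwa [card_pair hne] at h2
  have hZ := dbl s hs K hK x (hv s x h) hxy hdg
  have h3 := hf _ hZ
  rcases mem_insert.1 (hz _ hZ) with h4 | h4
  · rw [h4] at h3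
    exact h3 (mem_self s x _)
  · rw [mem_singleton.1 h4] at h3
    apply h3
    have h5 : x ∈ Bl s (hv s x h) (0 + 1) :=
      ball_step s _ _ _ 0 (mem_self s _ 0) ((adj_symm s _ _).1 hadj)
    exact ball_mono s _ _ _ (by omega) h5
-- END hv_inj

-- BEGIN cyc_nb
/-- L5. The set of `y` with `s(y, x) ∈ w.edges` has two elements (`nb_two`) and contains the different vertices `w.getVert j` and `w.getVert (j + 2)` (`getVert_injOn'`; the edges of the walk: `SimpleGraph.Walk.toSubgraph`-free version: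
`w.darts` / `edges` at position `j`, e.g. `List.getElem_mem` or induction). -/
theorem cyc_nb (G : SimpleGraph V) (a : V) (w : G.Walk a a) (hw : w.IsCycle) (j : ℕ) (hj : j + 2 < w.length) (y : V)
    (hy : s(y, w.getVert (j + 1)) ∈ w.edges) : y = w.getVert j ∨ y = w.getVert (j + 2) := by
  obtain ⟨i, hi, hi2⟩ := (w.mk_mem_edges_iff_exists).1 hy
  rcases Sym2.eq_iff.1 hi2 with ⟨h1, h2⟩ | ⟨h1, h2⟩
  · have h3 : i + 1 = j + 1 := hw.getVert_injOn (by simp only [Set.mem_ofPred_eq]; omega)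
      (by simp only [Set.mem_ofPred_eq]; omega) h2
    have h4 : i = j := by omega
    left
    rw [← h1, h4]
  · have h3 : i = j + 1 := hw.getVert_injOn' (by simp only [Set.mem_ofPred_eq]; omega)
      (by simp only [Set.mem_ofPred_eq]; omega) h1
    right
    rw [← h2, h3]
-- END cyc_nb

-- BEGIN fam_cov
open Classical in
/-- L6. `f` in the set contains `v`, so the colour `c` of its cycle is in `L v` (`getVert_mem_support`): the set is contained in the union of the sets `OddPath G L c k v` over the three `c ∈ L v`. -/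
theorem fam_cov (G : SimpleGraph V) (L : V → Finset ℕ) (hL : ∀ v, (L v).card = 3) (k Q : ℕ)
    (hQ : ∀ c v, (OddPath G L c k v).ncard ≤ Q) (v : V) :
    ((univ : Finset (Fin k → V)).filter (fun f => ∃ c, f ∈ OddPath G L c k v)).card ≤ 3 * Q := by
  have hsub : ((univ : Finset (Fin k → V)).filter (fun f => ∃ c, f ∈ OddPath G L c k v)) ⊆
      (L v).biUnion (fun c => (univ : Finset (Fin k → V)).filter (fun f => f ∈ OddPath G L c k v)) := by
    intro f hf
    rw [mem_filter] at hf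
    obtain ⟨-, c, hc⟩ := hf
    rw [mem_biUnion]
    refine ⟨c, ?_, ?_⟩
    · obtain ⟨⟨j, hj⟩, a, w, -, -, -, hs, hw⟩ := hc
      have h1 := hs (w.getVert j) (w.getVert_mem_support j)
      rw [← hw j, hj] at h1
      exact h1
    · rw [mem_filter]
      exact ⟨mem_univ _, hc⟩
  refine (card_le_card hsub).trans ?_
  refine (card_biUnion_le_card_mul _ _ Q ?_).trans (by rw [hL v])
  intro c _
  refine le_trans (le_of_eq ?_) (hQ c v)
  rw [← Set.ncard_coe_finset]
  congr 1
  ext f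
  simp
-- END fam_cov

end Hlc
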