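import Pool.Agent.Hlc.Gr

/-!
# Hlc SHR: short cycles
-/

set_option autoImplicit false

namespace Hlc

open Finset

variable {V : Type} [Fintype V] [DecidableEq V]

-- BEGIN zs_mem
/-- S1. unfolding -/
theorem zs_mem (s : Bool → Equiv.Perm V) (K : ℕ) (Z : Finset V) : Z ∈ Zs s K ↔
    2 ≤ Z.card ∧ Z.card ≤ K ∧ Z.card ≤ ed s Z ∧ ∀ W : Finset V, W ⊂ Z → W.Nonempty → ed s W < W.card := by
  rw [Zs, Finset.mem_filter]
  constructor
  · rintro ⟨_, h1, h2, h3, h4⟩
    exact ⟨h1, h2, h3, fun W hW hne => h4 W (Finset.mem_ssubsets.2 hW) hne⟩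
  · rintro ⟨h1, h2, h3, h4⟩
    exact ⟨Finset.mem_univ _, h1, h2, h3, fun W hW hne => h4 W (Finset.mem_ssubsets.1 hW) hne⟩
-- END zs_mem

-- BEGIN zs_disj
/-- S2. If `W = Z ∩ Z'` is nonempty: it is a proper subset of `Z` and of `Z'` (if `W = Z`, then `Z ⊂ Z'` and `ed s Z ≥ |Z|` contradicts the minimality of `Z'`), so
`ed s W < |W|`, and `ed_super` gives `ed s (Z ∪ Z') ≥ |Z| + |Z'| - |W| + 1 = |Z ∪ Z'| + 1`, but `|Z ∪ Z'| ≤ 2K`. -/
theorem zs_disj (s : Bool → Equiv.Perm V) (K : ℕ) (hS : Sparse s (3 * K)) (Z Z' : Finset V) (hZ : Z ∈ Zs s K)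
    (hZ' : Z' ∈ Zs s K) (h : Z ≠ Z') : Disjoint Z Z' := by
  rw [zs_mem] at hZ hZ'
  obtain ⟨h1, h2, h3, h4⟩ := hZ
  obtain ⟨h1', h2', h3', h4'⟩ := hZ'
  by_contra hcon
  have hne : (Z ∩ Z').Nonempty := by
    rw [Finset.nonempty_iff_ne_empty]
    intro h0
    exact hcon (Finset.disjoint_iff_inter_eq_empty.2 h0)
  have hZne : Z.Nonempty := hne.mono Finset.inter_subset_left
  have hss : Z ∩ Z' ⊂ Z := by
    refine lt_of_le_of_ne Finset.inter_subset_left fun h0 => ?_
    have h5 : Z ⊆ Z' := Finset.inter_eq_left.1 h0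
    have h6 : Z ⊂ Z' := lt_of_le_of_ne h5 h
    have h7 := h4' Z h6 hZne
    omega
  have h5 := h4 _ hss hne
  have h6 := ed_super s Z Z'
  have h7 := Finset.card_union_add_card_inter Z Z'
  have h8 := hS (Z ∪ Z') (hZne.mono Finset.subset_union_left) (by omega)
  omega
-- END zs_disj

-- BEGIN zs_dg
/-- S3. For `v ∈ Z` let `W = Z.erase v`: `ed s W < |W| = |Z| - 1` (minimality), `ed s Z = ed s W + dg s v W` (`ed_insert`), `dg s v W ≤ dg s v Z`: so `dg s v Z ≥ 2`. The sum over
`v ∈ Z` is `2 * ed s Z ≤ 2|Z|` (`sum_dg`, `Sparse`), so all are `2`. -/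
theorem zs_dg (s : Bool → Equiv.Perm V) (hs : Ham s) (K : ℕ) (hS : Sparse s (3 * K)) (Z : Finset V) (hZ : Z ∈ Zs s K)
    (v : V) (hv : v ∈ Z) : dg s v Z = 2 := by
  rw [zs_mem] at hZ
  obtain ⟨h1, h2, h3, h4⟩ := hZ
  have hge : ∀ u ∈ Z, 2 ≤ dg s u Z := by
    intro u hu
    have hW : Z.erase u ⊂ Z := Finset.erase_ssubset hu
    have hc : (Z.erase u).card = Z.card - 1 := Finset.card_erase_of_mem hu
    have hne : (Z.erase u).Nonempty := by
      rw [← Finset.card_pos, hc]
      omega
    have h5 := h4 _ hW hne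
    have h6 := ed_insert s hs u (Z.erase u) (Finset.notMem_erase u Z)
    rw [Finset.insert_erase hu] at h6
    have h7 := dg_mono s u (Z.erase u) Z (Finset.erase_subset u Z)
    omega
  have hsum : ∑ u ∈ Z, dg s u Z = 2 * ed s Z := sum_dg s Z
  have hle : ed s Z ≤ Z.card := hS Z ⟨v, hv⟩ (by omega)
  have h5 : ∑ u ∈ Z.erase v, dg s u Z + dg s v Z = ∑ u ∈ Z, dg s u Z := Finset.sum_erase_add Z _ hv
  have h6 : (Z.erase v).card * 2 ≤ ∑ u ∈ Z.erase v, dg s u Z := by
    have := Finset.card_nsmul_le_sum (Z.erase v) (fun u => dg s u Z) 2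
      (fun u hu => hge u (Finset.mem_of_mem_erase hu))
    rwa [smul_eq_mul] at this
  have h7 : (Z.erase v).card = Z.card - 1 := Finset.card_erase_of_mem hv
  have h8 := hge v hv
  omega
-- END zs_dg

-- BEGIN grow
/-- S4. Induction on `r` for all `X`, `u`. `r = 0`: `v = u`, impossible. `r + 1`: `ball_first`: either `v ∈ Bl s u r`, or `adj s u w`, `v ∈ Bl s w r`. If `w ∈ Z`: `X ∪ Z`
(`ed_union`, `dg s u Z ≥ 1` by `dg_pos`). If `w ∈ X`: induction for `X`, `w`. Otherwise induction for `insert w X`, `w`: `ed_insert`, `dg s w X ≥ 1`. -/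
theorem grow (s : Bool → Equiv.Perm V) (hs : Ham s) (Z : Finset V) (v : V) (hv : v ∈ Z) (hZ : Z.card ≤ ed s Z) (r : ℕ) :
    ∀ (X : Finset V) (u : V), u ∈ X → v ∈ Bl s u r → Disjoint X Z → X.card ≤ ed s X →
      ∃ Y : Finset V, Y.Nonempty ∧ Y.card ≤ X.card + Z.card + r ∧ Y.card + 1 ≤ ed s Y := by
  induction r with
  | zero =>
    intro X u hu hvb hd hX
    have h0 : v = u := by
      have : v ∈ ({u} : Finset V) := hvb
      exact Finset.mem_singleton.1 this
    rw [h0] at hv
    exact absurd hv (Finset.disjoint_left.1 hd hu)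
  | succ r ih =>
    intro X u hu hvb hd hX
    rcases ball_first s u v r hvb with h1 | ⟨w, huw, hw⟩
    · obtain ⟨Y, h2, h3, h4⟩ := ih X u hu h1 hd hX
      exact ⟨Y, h2, by omega, h4⟩
    · by_cases hwZ : w ∈ Z
      · refine ⟨X ∪ Z, ⟨u, Finset.mem_union_left _ hu⟩, ?_, ?_⟩
        · have := Finset.card_union_le X Z
          omega
        · have h2 := ed_union s X Z hd
          have h3 : 1 ≤ dg s u Z := (dg_pos s u Z).2 ⟨w, hwZ, huw⟩
          have h4 : dg s u Z ≤ ∑ v ∈ X, dg s v Z :=
            Finset.single_le_sum (f := fun v => dg s v Z) (fun _ _ => Nat.zero_le _) hu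
          have h5 := Finset.card_union_le X Z
          omega
      · by_cases hwX : w ∈ X
        · obtain ⟨Y, h2, h3, h4⟩ := ih X w hwX hw hd hX
          exact ⟨Y, h2, by omega, h4⟩
        · have h2 := ed_insert s hs w X hwX
          have h3 : 1 ≤ dg s w X := (dg_pos s w X).2 ⟨u, hu, (adj_symm s u w).1 huw⟩
          have h4 : (insert w X).card = X.card + 1 := Finset.card_insert_of_notMem hwX
          have h5 : Disjoint (insert w X) Z := Finset.disjoint_insert_left.2 ⟨hwZ, hd⟩
          obtain ⟨Y, h6, h7, h8⟩ := ih (insert w X) w (Finset.mem_insert_self w X) hw h5 (by omega)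
          exact ⟨Y, h6, by omega, h8⟩
-- END grow

-- BEGIN zs_far
/-- S5. `zs_disj`, `grow` with `r = K`: a set of at most `3K` vertices with more edges than vertices. -/
theorem zs_far (s : Bool → Equiv.Perm V) (hs : Ham s) (K : ℕ) (hS : Sparse s (3 * K)) (Z Z' : Finset V) (hZ : Z ∈ Zs s K)
    (hZ' : Z' ∈ Zs s K) (h : Z ≠ Z') (z z' : V) (hz : z ∈ Z) (hz' : z' ∈ Z') : z' ∉ Bl s z K := by
  intro hb
  have hd := zs_disj s K hS Z Z' hZ hZ' h
  rw [zs_mem] at hZ hZ'
  obtain ⟨Y, h1, h2, h3⟩ := grow s hs Z' z' hz' hZ'.2.2.1 K Z z hz hb hd hZ.2.2.1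
  have h4 := hZ.2.1
  have h5 := hZ'.2.1
  have h6 := hS Y h1 (by omega)
  omega
-- END zs_far

-- BEGIN dbl
/-- S6. Double edges. `ed s {u, v} = ed s {v} + dg s u {v}`; proper nonempty subsets are singletons (`ed_single`). -/
theorem dbl (s : Bool → Equiv.Perm V) (hs : Ham s) (K : ℕ) (hK : 2 ≤ K) (u v : V) (huv : u ≠ v) (h : 2 ≤ dg s u {v}) :
    ({u, v} : Finset V) ∈ Zs s K := by
  have hc : ({u, v} : Finset V).card = 2 := Finset.card_pair huv
  have he : ed s ({u, v} : Finset V) = ed s {v} + dg s u {v} :=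
    ed_insert s hs u {v} (by rwa [Finset.mem_singleton])
  rw [zs_mem]
  refine ⟨by rw [hc], by rw [hc]; exact hK, by rw [hc, he]; omega, fun W hW hne => ?_⟩
  have h1 : W.card < 2 := by
    have := Finset.card_lt_card hW
    rwa [hc] at this
  have h2 : 1 ≤ W.card := Finset.card_pos.2 hne
  obtain ⟨x, hx⟩ := Finset.card_eq_one.1 (show W.card = 1 by omega)
  rw [hx, ed_single s hs x, Finset.card_singleton]
  exact Nat.one_pos
-- END dbl

-- BEGIN nb_two
/-- S7. `SimpleGraph.Walk.IsCycle.ncard_neighborSet_toSubgraph_eq_two`; `fst_mem_support_of_mem_edges`, `adj_of_mem_edges`. -/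
theorem nb_two (G : SimpleGraph V) (a : V) (w : G.Walk a a) (hw : w.IsCycle) (v : V) (hv : v ∈ w.support) :
    ((univ : Finset V).filter (fun x => s(x, v) ∈ w.edges)).card = 2 ∧ ∀ x, s(x, v) ∈ w.edges → G.Adj x v ∧ x ∈ w.support := by
  constructor
  · have h1 := hw.ncard_neighborSet_toSubgraph_eq_two hv
    have h2 : w.toSubgraph.neighborSet v = (((univ : Finset V).filter (fun x => s(x, v) ∈ w.edges) : Finset V) : Set V) := by
      ext x
      rw [SimpleGraph.Subgraph.mem_neighborSet, SimpleGraph.Walk.adj_toSubgraph_iff_mem_edges, Finset.mem_coe,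
        Finset.mem_filter, Sym2.eq_swap]
      simp only [mem_univ, true_and]
    rw [h2, Set.ncard_coe_finset] at h1
    exact h1
  · intro x hx
    exact ⟨w.adj_of_mem_edges hx, w.fst_mem_support_of_mem_edges hx⟩
-- END nb_two

-- BEGIN cyc_card
/-- S8. `w.support = a :: w.support.tail`, `w.support.tail` has no repetition, length `w.length`, and contains `a`. -/
theorem cyc_card (G : SimpleGraph V) (a : V) (w : G.Walk a a) (hw : w.IsCycle) : w.support.toFinset.card = w.length := by
  have h1 : w.support.toFinset = w.support.tail.toFinset := by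
    ext x
    rw [List.mem_toFinset, List.mem_toFinset]
    constructor
    · intro hx
      rw [← w.cons_tail_support, List.mem_cons] at hx
      rcases hx with rfl | hx
      · exact w.end_mem_tail_support hw.not_nil
      · exact hx
    · exact List.mem_of_mem_tail
  rw [h1, List.toFinset_card_of_nodup hw.support_nodup, List.length_tail, w.length_support]
  omega
-- END cyc_card

-- BEGIN cyc_grow
/-- S9. Write `C` for the vertex set of the cycle. Induction on `|C \ W|`: there are `x ∈ W`, `y ∈ C \ W` with `G.Adj x y` (`SimpleGraph.Walk.exists_boundary_dart` for a part of the cycle: rotate it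
to a point of `W` and take it until a point of `C \ W`). `W' = insert y W`: `ed s W' = ed s W + dg s y W`. If `W' = C` then `dg s y W = dg s y C ≥ 2` (`nb_two`: two
neighbours on the cycle). Otherwise `dg s y W ≥ 1` and the induction hypothesis for `W'`. -/
theorem cyc_grow (s : Bool → Equiv.Perm V) (hs : Ham s) (G : SimpleGraph V) (hG : ∀ u v, G.Adj u v ↔ adj s u v) (a : V)
    (w : G.Walk a a) (hw : w.IsCycle) (W : Finset V) (hW : W.Nonempty) (h : W ⊂ w.support.toFinset) :
    ed s W + w.support.toFinset.card + 1 ≤ ed s w.support.toFinset + W.card := by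
  set C : Finset V := w.support.toFinset with hC
  obtain ⟨m, hm⟩ : ∃ m, (C \ W).card = m := ⟨_, rfl⟩
  induction m using Nat.strong_induction_on generalizing W with
  | _ m ih =>
    obtain ⟨u, hu⟩ := hW
    have huC : u ∈ w.support := List.mem_toFinset.1 (h.1 hu)
    obtain ⟨y₀, hy₀C, hy₀W⟩ := Finset.exists_of_ssubset h
    have hy₀s : y₀ ∈ (w.rotate u huC).support := by
      rw [SimpleGraph.Walk.mem_support_rotate_iff]
      exact List.mem_toFinset.1 hy₀C
    obtain ⟨d, hd, hd1, hd2⟩ := ((w.rotate u huC).takeUntil y₀ hy₀s).exists_boundary_dart (W : Set V)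
      (by exact_mod_cast hu) (by exact_mod_cast hy₀W)
    have hd1' : d.fst ∈ W := by exact_mod_cast hd1
    have hd2' : d.snd ∉ W := by exact_mod_cast hd2
    have hdC : d.snd ∈ C := by
      have h1 : d.snd ∈ ((w.rotate u huC).takeUntil y₀ hy₀s).support :=
        SimpleGraph.Walk.dart_snd_mem_support_of_mem_darts _ hd
      have h2 := SimpleGraph.Walk.support_takeUntil_subset_support _ hy₀s h1
      rw [SimpleGraph.Walk.mem_support_rotate_iff] at h2
      exact List.mem_toFinset.2 h2
    have hadj : adj s d.snd d.fst := (hG _ _).1 d.adj.symm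
    have hdg1 : 1 ≤ dg s d.snd W := (dg_pos s d.snd W).2 ⟨d.fst, hd1', hadj⟩
    have hins := ed_insert s hs d.snd W hd2'
    have hcard : (insert d.snd W).card = W.card + 1 := card_insert_of_notMem hd2'
    have hsub : insert d.snd W ⊆ C := insert_subset hdC h.1
    by_cases heq : insert d.snd W = C
    · have hdg2 : 2 ≤ dg s d.snd W := by
        have hys : d.snd ∈ w.support := List.mem_toFinset.1 hdC
        obtain ⟨hn1, hn2⟩ := nb_two G a w hw d.snd hys
        set S : Finset V := (univ : Finset V).filter (fun x => s(x, d.snd) ∈ w.edges) with hS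
        have hSW : S ⊆ W := by
          intro x hx
          obtain ⟨h3, h4⟩ := hn2 x (mem_filter.1 hx).2
          have h5 : x ∈ insert d.snd W := by rw [heq]; exact List.mem_toFinset.2 h4
          rcases mem_insert.1 h5 with h6 | h6
          · exact absurd h6 h3.ne
          · exact h6
        obtain ⟨x, y, hxy, hSxy⟩ := card_eq_two.1 hn1
        have hx : x ∈ S := by rw [hSxy]; exact mem_insert_self _ _
        have hy : y ∈ S := by rw [hSxy]; exact mem_insert_of_mem (mem_singleton_self _)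
        have hax : adj s d.snd x := (hG _ _).1 (hn2 x (mem_filter.1 hx).2).1.symm
        have hay : adj s d.snd y := (hG _ _).1 (hn2 y (mem_filter.1 hy).2).1.symm
        have h7 : dg s d.snd ({x} ∪ {y}) = dg s d.snd {x} + dg s d.snd {y} :=
          dg_union s d.snd {x} {y} (by rw [disjoint_singleton]; exact hxy)
        have h8 : 1 ≤ dg s d.snd {x} := (dg_pos s d.snd {x}).2 ⟨x, mem_singleton_self _, hax⟩
        have h9 : 1 ≤ dg s d.snd {y} := (dg_pos s d.snd {y}).2 ⟨y, mem_singleton_self _, hay⟩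
        have h10 : dg s d.snd ({x} ∪ {y}) ≤ dg s d.snd W := by
          apply dg_mono
          intro z hz
          rcases mem_union.1 hz with h | h
          · rw [mem_singleton.1 h]; exact hSW hx
          · rw [mem_singleton.1 h]; exact hSW hy
        omega
      rw [heq] at hins hcard
      omega
    · have hss : insert d.snd W ⊂ C := ⟨hsub, fun hcon => heq (Subset.antisymm hsub hcon)⟩
      have hlt : (C \ insert d.snd W).card < m := by
        rw [← hm]
        apply card_lt_card
        refine ⟨fun z hz => ?_, fun hcon => ?_⟩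
        · obtain ⟨h1, h2⟩ := mem_sdiff.1 hz
          exact mem_sdiff.2 ⟨h1, fun h3 => h2 (mem_insert_of_mem h3)⟩
        · have h1 := hcon (mem_sdiff.2 ⟨hdC, hd2'⟩)
          exact (mem_sdiff.1 h1).2 (mem_insert_self _ _)
      have h1 := ih _ hlt (insert d.snd W) ⟨_, mem_insert_self _ _⟩ hss rfl
      omega
-- END cyc_grow

-- BEGIN cyc_mem
/-- S10. `cyc_card`, `hw.three_le_length`; `cyc_grow` for a singleton gives `ed ≥ |·|`; if a proper nonempty `W` had `ed s W ≥ |W|`, `cyc_grow` would contradict `Sparse`. -/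
theorem cyc_mem (s : Bool → Equiv.Perm V) (hs : Ham s) (G : SimpleGraph V) (hG : ∀ u v, G.Adj u v ↔ adj s u v) (K : ℕ)
    (hS : Sparse s (3 * K)) (a : V) (w : G.Walk a a) (hw : w.IsCycle) (hl : w.length ≤ K) : w.support.toFinset ∈ Zs s K := by
  have hcard := cyc_card G a w hw
  have h3 := hw.three_le_length
  set C : Finset V := w.support.toFinset with hC
  have hne : C.Nonempty := ⟨a, List.mem_toFinset.2 w.start_mem_support⟩
  have hsp := hS C hne (by omega)
  have hgrow : ∀ W : Finset V, W.Nonempty → W ⊂ C → ed s W + C.card + 1 ≤ ed s C + W.card := fun W h1 h2 =>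
    cyc_grow s hs G hG a w hw W h1 h2
  rw [zs_mem]
  refine ⟨by omega, by omega, ?_, ?_⟩
  · have h1 : ({a} : Finset V) ⊂ C := by
      refine ⟨?_, fun hcon => ?_⟩
      · intro x hx
        rw [mem_singleton.1 hx]
        exact List.mem_toFinset.2 w.start_mem_support
      · have := card_le_card hcon
        rw [card_singleton] at this
        omega
    have h2 := hgrow {a} (singleton_nonempty a) h1
    rw [card_singleton] at h2
    omega
  · intro W hW hWn
    have h2 := hgrow W hWn hW
    omega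
-- END cyc_mem

end Hlc
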